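import Pool.Agent.MP_00906f_gt.H33E.Defs

/-! Basic facts on the Hurwitz action: full twists, naturality, and the construction of
additive characters of the kernel from an invariant displacement relation. -/

namespace Pool.Agent.MP_00906f_gt.H33E

open H46 H46.FinAux

namespace Rk

variable {X : Type} (R : Rk X)

/-- The product of the actions of the first `k` entries. -/
def pa (y : ℕ → X) (k : ℕ) : Equiv.Perm X := up (fun j => R.act (y j)) k

theorem pa_zero (y : ℕ → X) : R.pa y 0 = 1 := rfl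

theorem pa_succ (y : ℕ → X) (k : ℕ) : R.pa y (k + 1) = R.pa y k * R.act (y k) := rfl

theorem pa_congr {y y' : ℕ → X} {k : ℕ} (h : ∀ j, j < k → y j = y' j) : R.pa y k = R.pa y' k := by
  induction k with
  | zero => rfl
  | succ k ih => rw [pa_succ, pa_succ, ih fun j hj => h j (by omega), h k (by omega)]

theorem act_act (x y : X) : R.act (R.act x y) * R.act x = R.act x * R.act y :=
  Equiv.ext fun z => R.sd x y z

theorem hur_lo {i j : ℕ} (h : j < i) (y : ℕ → X) : R.hur i y j = y j := by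
  rw [hur_apply, if_neg (by omega), if_neg (by omega)]

theorem hur_hi {i j : ℕ} (h : i + 1 < j) (y : ℕ → X) : R.hur i y j = y j := by
  rw [hur_apply, if_neg (by omega), if_neg (by omega)]

theorem hur_self (i : ℕ) (y : ℕ → X) : R.hur i y i = R.act (y i) (y (i + 1)) := by
  rw [hur_apply, if_pos rfl]

theorem hur_succ (i : ℕ) (y : ℕ → X) : R.hur i y (i + 1) = y i := by
  rw [hur_apply, if_neg (by omega), if_pos rfl]

theorem pa_hur {i k : ℕ} (h : i + 2 ≤ k) (y : ℕ → X) : R.pa (R.hur i y) k = R.pa y k := by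
  induction k, h using Nat.le_induction with
  | base =>
    rw [pa_succ, pa_succ, pa_succ, pa_succ, R.pa_congr (y' := y) fun j hj => R.hur_lo hj y,
      hur_self, hur_succ, mul_assoc, act_act, mul_assoc]
  | succ k hk ih => rw [pa_succ, pa_succ, ih, R.hur_hi (by omega)]

theorem pa_up {m k : ℕ} (h : m + 1 ≤ k) (y : ℕ → X) : R.pa (up R.hur m y) k = R.pa y k := by
  induction m generalizing y with
  | zero => rfl
  | succ m ih => rw [up, Equiv.Perm.mul_apply, ih (by omega), R.pa_hur (by omega)]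

theorem up_apply (k : ℕ) (y : ℕ → X) (j : ℕ) :
    up R.hur k y j = if j = 0 then R.pa y k (y k) else if j ≤ k then y (j - 1) else y j := by
  induction k generalizing y with
  | zero =>
    by_cases h : j = 0
    · simp [up, h, pa_zero]
    · simp [up, h]
  | succ k ih =>
    rw [up, Equiv.Perm.mul_apply, ih]
    by_cases h : j = 0
    · rw [if_pos h, if_pos h, hur_self, pa_succ, R.pa_congr (y' := y) fun j hj => R.hur_lo hj y]
      rfl
    · rw [if_neg h, if_neg h]
      by_cases h1 : j ≤ k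
      · rw [if_pos h1, if_pos (by omega), R.hur_lo (by omega)]
      · rw [if_neg h1]
        by_cases h2 : j = k + 1
        · rw [if_pos (by omega), h2, hur_succ]; rfl
        · rw [if_neg (by omega), R.hur_hi (by omega)]

theorem pa_up_pow (k m : ℕ) (y : ℕ → X) : R.pa ((up R.hur k ^ m) y) (k + 1) = R.pa y (k + 1) := by
  induction m with
  | zero => rfl
  | succ m ih => rw [pow_succ', Equiv.Perm.mul_apply, R.pa_up le_rfl, ih]

theorem up_pow_apply (k : ℕ) (y : ℕ → X) {m : ℕ} (hm : m ≤ k + 1) (j : ℕ) :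
    (up R.hur k ^ m) y j =
      if j < m then R.pa y (k + 1) (y (j + (k + 1) - m)) else if j ≤ k then y (j - m) else y j := by
  induction m generalizing j with
  | zero => simp
  | succ m ih =>
    rw [pow_succ', Equiv.Perm.mul_apply, up_apply]
    by_cases h : j = 0
    · rw [if_pos h, if_pos (by omega), ← R.pa_up_pow k m y, pa_succ, Equiv.Perm.mul_apply,
        show y (j + (k + 1) - (m + 1)) = (up R.hur k ^ m) y k by
          rw [ih (by omega), if_neg (by omega), if_pos le_rfl]; congr 1; omega, R.idem]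
    · rw [if_neg h]
      by_cases h1 : j ≤ k
      · rw [if_pos h1, ih (by omega)]
        by_cases h2 : j < m + 1
        · rw [if_pos (by omega), if_pos h2]; congr 2; omega
        · rw [if_neg (by omega), if_neg h2, if_pos (by omega), if_pos h1]; congr 1; omega
      · rw [if_neg h1, ih (by omega), if_neg (by omega), if_neg h1, if_neg (by omega), if_neg h1]

/-- The full twist on the first `k + 1` strands. -/
theorem twist (k : ℕ) (y : ℕ → X) (j : ℕ) :
    (up R.hur k ^ (k + 1)) y j = if j ≤ k then R.pa y (k + 1) (y j) else y j := by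
  rw [R.up_pow_apply k y le_rfl]
  by_cases h : j ≤ k
  · rw [if_pos (by omega), if_pos h]; congr 2; omega
  · rw [if_neg (by omega), if_neg h, if_neg h]

/-- The squared full twist on the first `k + 1` strands. -/
theorem twist2 (k : ℕ) (y : ℕ → X) (j : ℕ) :
    (up R.hur k ^ (2 * (k + 1))) y j =
      if j ≤ k then (R.pa y (k + 1) ^ 2) (y j) else y j := by
  rw [two_mul, pow_add, Equiv.Perm.mul_apply, twist, pa_up_pow, twist]
  by_cases h : j ≤ k
  · simp only [if_pos h, sq, Equiv.Perm.mul_apply]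
  · simp only [if_neg h]

theorem br_sg {N i : ℕ} (hi : i < N) : R.br N (sg N i) = R.hur i := brLift_sg _ _ hi

theorem br_up {N k : ℕ} (hk : k ≤ N) : R.br N (up (sg N) k) = up R.hur k := by
  induction k with
  | zero => exact map_one _
  | succ k ih => rw [up, up, map_mul, ih (by omega), R.br_sg (by omega)]

theorem br_T3 {N : ℕ} (hN : 2 ≤ N) (y : ℕ → X) (j : ℕ) :
    R.br N (T3 (sg N)) y j = if j ≤ 2 then (R.pa y 3 ^ 2) (y j) else y j := by
  have e : T3 (sg N) = up (sg N) 2 ^ (2 * (2 + 1)) := by simp [T3, up]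
  rw [e, map_pow, R.br_up hN, twist2]

theorem br_T5 {N : ℕ} (hN : 4 ≤ N) (y : ℕ → X) (j : ℕ) :
    R.br N (T5 (sg N)) y j = if j ≤ 4 then (R.pa y 5 ^ 2) (y j) else y j := by
  have e : T5 (sg N) = up (sg N) 4 ^ (2 * (4 + 1)) := by simp [T5, up]
  rw [e, map_pow, R.br_up hN, twist2]

theorem br_Del4 (N : ℕ) (y : ℕ → X) (j : ℕ) :
    R.br N (Del4 N) y j = if j ≤ N then (R.pa y (N + 1) ^ 2) (y j) else y j := by
  rw [Del4, map_pow, R.br_up le_rfl, twist2]

end Rk

/-- Induction over the braid group for relations preserved by the generators. -/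
theorem br_rel {Y Y' : Type} {N : ℕ} (a : Br N →* Equiv.Perm Y) (a' : Br N →* Equiv.Perm Y')
    (r : Y → Y' → Prop)
    (h : ∀ i, i < N → ∀ y y', r y y' ↔ r (a (sg N i) y) (a' (sg N i) y')) (β : Br N)
    (y : Y) (y' : Y') : r y y' ↔ r (a β y) (a' β y') := by
  have hβ := br_top β
  induction hβ using Subgroup.closure_induction generalizing y y' with
  | mem x hx => obtain ⟨i, hi, rfl⟩ := hx; exact h i hi y y'
  | one => simp
  | mul x z _ _ hx hz => rw [map_mul, map_mul]; exact (hz y y').trans (hx _ _)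
  | inv x _ hx =>
    have := hx (a x⁻¹ y) (a' x⁻¹ y')
    rw [← Equiv.Perm.mul_apply, ← Equiv.Perm.mul_apply, ← map_mul,
      ← map_mul, mul_inv_cancel, map_one, map_one] at this
    exact this.symm

/-- Naturality of the Hurwitz action. -/
theorem br_nat {X X' : Type} (R : Rk X) (R' : Rk X') (f : X → X')
    (hf : ∀ x y, f (R.act x y) = R'.act (f x) (f y)) {N : ℕ} (β : Br N) (y : ℕ → X) :
    R'.br N β (f ∘ y) = f ∘ R.br N β y := by
  have key : ∀ i (y : ℕ → X), R'.hur i (f ∘ y) = f ∘ R.hur i y := by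
    intro i y
    funext j
    simp only [Function.comp, Rk.hur_apply]
    split_ifs <;> simp [hf]
  refine (br_rel (R.br N) (R'.br N) (fun y y' => y' = f ∘ y) (fun i hi y y' => ?_) β y _).1 rfl
  rw [R.br_sg hi, R'.br_sg hi, ← key]
  exact (R'.hur i).injective.eq_iff.symm

theorem pa_conj {P : Type} [Group P] (y : ℕ → P) (k : ℕ) (x : P) :
    (conjR P).pa y k x = up y k * x * (up y k)⁻¹ := by
  induction k generalizing x with
  | zero => simp [Rk.pa_zero, up]
  | succ k ih => rw [Rk.pa_succ, Equiv.Perm.mul_apply, ih, conjR_act, up]; group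

theorem pa_conj_sq {P : Type} [Group P] (y : ℕ → P) (k : ℕ) (x : P) :
    ((conjR P).pa y k ^ 2) x = up y k ^ 2 * x * (up y k ^ 2)⁻¹ := by
  rw [sq, Equiv.Perm.mul_apply, pa_conj, pa_conj, sq]; group

/-- The Artin action controls the Hurwitz action in every group. -/
theorem br_of_Art {N : ℕ} {β β' : Br N} (h : Art N β FreeGroup.of = Art N β' FreeGroup.of)
    {P : Type} [Group P] (y : ℕ → P) : (conjR P).br N β y = (conjR P).br N β' y := by
  have e : y = FreeGroup.lift y ∘ FreeGroup.of := by funext j; simp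
  have hf : ∀ a b, FreeGroup.lift y ((conjR (FreeGroup ℕ)).act a b) =
      (conjR P).act (FreeGroup.lift y a) (FreeGroup.lift y b) := fun a b => by
    simp [conjR_act]
  rw [e, br_nat _ _ _ hf, br_nat _ _ _ hf]
  exact congrArg _ h

/-- An invariant displacement relation gives additive characters of the kernel. -/
theorem frame {G Y : Type} [Group G] (a : G →* Equiv.Perm Y) (K : Subgroup G) (T : Set G)
    (hK : ∀ k ∈ K, k ∈ Subgroup.closure {x | ∃ g, ∃ t ∈ T, x = g * t * g⁻¹})
    (r : Y → Y → ℚ → Prop)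
    (symm : ∀ y y' t, r y y' t → r y' y (-t))
    (trans : ∀ y y' y'' t t', r y y' t → r y' y'' t' → r y y'' (t + t'))
    (uniq : ∀ y t, r y y t → t = 0)
    (equi : ∀ g y y' t, r y y' t → r (a g y) (a g y') t)
    (v : G → Y → ℚ) (gen : ∀ τ ∈ T, ∀ y, r y y 0 → r y (a τ y) (v τ y))
    (inv : ∀ τ ∈ T, ∀ y y' t, r y y' t → v τ y = v τ y') (y₀ : Y) (h₀ : r y₀ y₀ 0) :
    ∃ φ : Additive K →+ ℚ,
      (∀ k k' : K, a k y₀ = a k' y₀ → φ (Additive.ofMul k) = φ (Additive.ofMul k')) ∧
      ∀ τ ∈ T, ∀ g (h : g * τ * g⁻¹ ∈ K), φ (Additive.ofMul ⟨_, h⟩) = v τ (a g⁻¹ y₀) := by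
  have refl1 : ∀ y y' t, r y y' t → r y y 0 := fun y y' t h => by
    simpa using trans _ _ _ _ _ h (symm _ _ _ h)
  have refl2 : ∀ y y' t, r y y' t → r y' y' 0 := fun y y' t h => refl1 _ _ _ (symm _ _ _ h)
  have uniq' : ∀ y y' t t', r y y' t → r y y' t' → t = t' := fun y y' t t' h h' => by
    have := uniq _ _ (trans _ _ _ _ _ h (symm _ _ _ h'))
    linarith
  have hgen : ∀ τ ∈ T, ∀ g y, r y y 0 → r y (a (g * τ * g⁻¹) y) (v τ (a g⁻¹ y)) := by
    intro τ hτ g y hy
    have := equi g _ _ _ (gen τ hτ _ (equi g⁻¹ _ _ _ hy))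
    rwa [← Equiv.Perm.mul_apply, ← map_mul, mul_inv_cancel, map_one, Equiv.Perm.one_apply,
      ← Equiv.Perm.mul_apply, ← Equiv.Perm.mul_apply, ← map_mul, ← map_mul] at this
  have key : ∀ k ∈ Subgroup.closure {x | ∃ g, ∃ t ∈ T, x = g * t * g⁻¹},
      ∀ y, r y y 0 → ∃ t, ∀ y' s, r y y' s → r y' (a k y') t := by
    intro k hk
    induction hk using Subgroup.closure_induction with
    | mem x hx =>
      obtain ⟨g, τ, hτ, rfl⟩ := hx
      intro y _
      refine ⟨v τ (a g⁻¹ y), fun y' s hs => ?_⟩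
      rw [inv τ hτ _ _ _ (equi g⁻¹ _ _ _ hs)]
      exact hgen τ hτ g y' (refl2 _ _ _ hs)
    | one => exact fun y _ => ⟨0, fun y' s hs => by simpa using refl2 _ _ _ hs⟩
    | mul x z _ _ hx hz =>
      intro y hy
      obtain ⟨t, ht⟩ := hx y hy
      obtain ⟨t', ht'⟩ := hz y hy
      refine ⟨t' + t, fun y' s hs => ?_⟩
      rw [map_mul, Equiv.Perm.mul_apply]
      exact trans _ _ _ _ _ (ht' y' s hs) (ht _ _ (trans _ _ _ _ _ hs (ht' y' s hs)))
    | inv x _ hx =>
      intro y hy
      obtain ⟨t, ht⟩ := hx y hy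
      refine ⟨-t, fun y' s hs => ?_⟩
      have := equi x⁻¹ _ _ _ (symm _ _ _ (ht y' s hs))
      rwa [← Equiv.Perm.mul_apply, ← map_mul, inv_mul_cancel, map_one, Equiv.Perm.one_apply] at this
  choose f hf using fun k : K => key k (hK k k.2) y₀ h₀
  refine ⟨AddMonoidHom.mk' (fun k => f (Additive.toMul k)) fun k k' => ?_, fun k k' e => ?_,
    fun τ hτ g h => ?_⟩
  · have h1 := hf (Additive.toMul k') y₀ 0 h₀
    have h2 := trans _ _ _ _ _ h1 (hf (Additive.toMul k) _ _ h1)
    rw [← Equiv.Perm.mul_apply, ← map_mul, add_comm] at h2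
    exact uniq' _ _ _ _ (hf _ y₀ 0 h₀) h2
  · exact uniq' _ _ _ _ (hf k y₀ 0 h₀) (e ▸ hf k' y₀ 0 h₀)
  · exact uniq' _ _ _ _ (hf ⟨_, h⟩ y₀ 0 h₀) (hgen τ hτ g y₀ h₀)

end Pool.Agent.MP_00906f_gt.H33E
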