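import Pool.Agent.MP_00906f_gt.H33E.Spec

/-! Independence of the signed classes, duality and rank. -/

namespace Pool.Agent.MP_00906f_gt.H33E

open H46 H46.FinAux

namespace ChiA

theorem sep {ι G Γ : Type} [DecidableEq ι] (v : ι → G → ℚ × ℚ) (τ : Γ → G → G) (χ : ι → Γ → ℚ)
    (h : ∀ t γ g, v t (τ γ g) = χ t γ • v t g) (t₀ : ι) (s : Finset ι)
    (hs : ∀ t ∈ s, ∃ γ, χ t γ ≠ χ t₀ γ) : ∀ (c : ℚ) (f : ι → ℚ),
      (∀ g, c • v t₀ g + ∑ t ∈ s, f t • v t g = 0) → ∀ g, c • v t₀ g = 0 := by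
  induction s using Finset.induction_on with
  | empty => intro c f hf; simpa using hf
  | insert t s ht ih =>
    intro c f hf g
    obtain ⟨γ, hγ⟩ := hs t (Finset.mem_insert_self _ _)
    have := ih (fun x hx => hs x (Finset.mem_insert_of_mem hx)) ((χ t₀ γ - χ t γ) * c)
      (fun x => (χ x γ - χ t γ) * f x) (fun g => by
        have h1 := hf (τ γ g)
        have h2 := congrArg (χ t γ • ·) (hf g)
        simp only [Finset.sum_insert ht, h, smul_add, Finset.smul_sum, smul_smul, smul_zero,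
          sub_mul, sub_smul, Finset.sum_sub_distrib, mul_comm (χ _ _)] at h1 h2 ⊢
        linear_combination (exp := 1) h1 - h2) g
    rw [mul_smul, smul_eq_zero] at this
    exact this.resolve_left (sub_ne_zero.2 hγ.symm)

theorem shape {N c d : ℕ} {A : Finset ℕ} (h : LabIdx N A c d) (hA : A ≠ ∅) :
    ∃ a b, A = {a, b} ∧ a ≤ b ∧ b ≤ N ∧ (a < b → a < c ∧ a < d) ∧ c ≠ a ∧ c ≠ b ∧ d ≠ a ∧ d ≠ b := by
  obtain ⟨h1, h2, -, -, -, h3, h4, h5⟩ := h
  have h0 := Finset.card_pos.2 (Finset.nonempty_iff_ne_empty.2 hA)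
  rcases (by omega : A.card = 1 ∨ A.card = 2) with e | e
  · obtain ⟨a, rfl⟩ := Finset.card_eq_one.1 e
    refine ⟨a, a, by simp, le_rfl, ?_⟩
    simp at h1 h3 h4
    omega
  · have h6 := h5 e
    obtain ⟨a, b, -, rfl⟩ := Finset.card_eq_two.1 e
    simp [Finset.insert_subset_iff] at h1 h3 h4 h6
    rcases le_total a b with hab | hab
    · exact ⟨a, b, rfl, by omega⟩
    · exact ⟨b, a, Finset.pair_comm _ _, by omega⟩

theorem chi_iff {A A' : Finset ℕ} {c d c' d' i j : ℕ} (h : chi A c d i j = chi A' c' d' i j) :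
    ((i ∈ A ∧ (j = c ∨ j = d)) ∨ (j ∈ A ∧ (i = c ∨ i = d))) ↔
      ((i ∈ A' ∧ (j = c' ∨ j = d')) ∨ (j ∈ A' ∧ (i = c' ∨ i = d'))) := by
  unfold chi at h
  split_ifs at h with h1 h2 h2
  · exact iff_of_true h1 h2
  · norm_num at h
  · norm_num at h
  · exact iff_of_false h1 h2

theorem chi_inj {N c d c' d' : ℕ} {A A' : Finset ℕ} (h : LabIdx N A c d) (h' : LabIdx N A' c' d')
    (hc : c < d) (hc' : c' < d') (hA : A ≠ ∅)
    (e : ∀ i j, i ≤ N → j ≤ N → i ≠ j → chi A c d i j = chi A' c' d' i j) :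
    (A', c', d') = (A, c, d) := by
  obtain ⟨a, b, rfl, s1, s2, s3, s4, s5, s6, s7⟩ := shape h hA
  have q1 := h.2.2.1
  have q2 := h.2.2.2.1
  have q3 := h'.2.2.1
  have q4 := h'.2.2.2.1
  have p1 := (chi_iff (e a c (by omega) q1 (by omega))).1 (by simp)
  have p2 := (chi_iff (e a d (by omega) q2 (by omega))).1 (by simp)
  have p3 := (chi_iff (e b c (by omega) q1 (by omega))).1 (by simp)
  have p4 := (chi_iff (e b d (by omega) q2 (by omega))).1 (by simp)
  obtain ⟨a', b', rfl, t1, t2, t3, t4, t5, t6, t7⟩ := shape h' (by rintro rfl; simp at p1)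
  have p5 := (chi_iff (e a' c' (by omega) q3 (by omega))).2 (by simp)
  have p6 := (chi_iff (e a' d' (by omega) q4 (by omega))).2 (by simp)
  have p7 := (chi_iff (e b' c' (by omega) q3 (by omega))).2 (by simp)
  simp only [Finset.mem_insert, Finset.mem_singleton] at p1 p2 p3 p4 p5 p6 p7
  have k1 : a' = a := by omega
  subst k1
  have k2 : c' = c ∧ d' = d := by omega
  obtain ⟨rfl, rfl⟩ := k2
  have k3 : b' = b := by omega
  rw [k3]

theorem two {G H : Type} [Group G] [AddCommGroup H] {X : XSys G H} (K : LabKit X) {i j : ℕ}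
    (hi : i ≤ X.N) (hj : j ≤ X.N) (h : i ≠ j) : ∃ g, X.perm g 0 = i ∧ X.perm g 1 = j := by
  have := X.h6
  obtain ⟨k, hk, h1, h2⟩ : ∃ k, k ≤ 2 ∧ i ≠ k ∧ j ≠ k := by
    by_cases a : i ≠ 0 ∧ j ≠ 0
    · exact ⟨0, by omega⟩
    · by_cases b : i ≠ 1 ∧ j ≠ 1
      · exact ⟨1, by omega⟩
      · exact ⟨2, by omega⟩
  obtain ⟨g, a, b, -⟩ := K.three i j k hi hj (by omega) h h1 h2
  exact ⟨g, a, b⟩

theorem clear {A : Type} [AddGroup A] (x : A →₀ ℚ) : ∃ (n : ℕ) (k : A), n ≠ 0 ∧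
    ∀ φ : A →+ ℚ, φ k = n * Finsupp.linearCombination ℚ φ x := by
  induction x using Finsupp.induction_linear with
  | zero => exact ⟨1, 0, one_ne_zero, by simp⟩
  | add x y hx hy =>
    obtain ⟨n, k, hn, h⟩ := hx
    obtain ⟨n', k', hn', h'⟩ := hy
    refine ⟨n * n', n' • k + n • k', mul_ne_zero hn hn', fun φ => ?_⟩
    simp only [map_add, map_nsmul, h, h', nsmul_eq_mul]
    push_cast
    ring
  | single a q =>
    refine ⟨q.den, q.num • a, q.den_nz, fun φ => ?_⟩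
    simp [← mul_assoc]

theorem comb {A ι : Type} [AddGroup A] [Fintype ι] (φ : ι → A →+ ℚ) (ψ : A →+ ℚ)
    (h : ∀ k, (∀ i, φ i k = 0) → ψ k = 0) : ∃ c : ι → ℚ, ψ = ∑ i, c i • φ i := by
  have := mem_span_of_iInf_ker_le_ker (L := fun i => Finsupp.linearCombination ℚ (φ i))
    (K := Finsupp.linearCombination ℚ ψ) fun x hx => by
      obtain ⟨n, k, hn, hk⟩ := clear x
      have h1 := h k fun i => by
        rw [hk, LinearMap.mem_ker.1 ((Submodule.mem_iInf _).1 hx i), mul_zero]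
      rw [hk] at h1
      exact (mul_eq_zero.1 h1).resolve_left (Nat.cast_ne_zero.2 hn)
  obtain ⟨c, hc⟩ := (Submodule.mem_span_range_iff_exists_fun ℚ).1 this
  refine ⟨c, AddMonoidHom.ext fun a => ?_⟩
  simpa using (LinearMap.congr_fun hc (Finsupp.single a 1)).symm

/-- The values depend linearly on the class. -/
def valL {G H : Type} [Group G] [AddCommGroup H] (X : XSys G H) :
    (Additive X.ρ.ker →+ ℚ) →ₗ[ℚ] G → ℚ × ℚ where
  toFun := X.val
  map_add' _ _ := rfl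
  map_smul' _ _ := rfl

theorem val_inj {G H : Type} [Group G] [AddCommGroup H] (X : XSys G H) :
    Function.Injective X.val := by
  refine (injective_iff_map_eq_zero (valL X)).2 fun φ hφ => AddMonoidHom.ext fun k => ?_
  obtain ⟨m, hm⟩ := X.hN
  have hk := (Sys.main m X.toSys (by omega)).2.2 _ (X.top _) (Additive.toMul k).2
  have key : ∀ x (hx : x ∈ K0 X.σ X.N), φ (Additive.ofMul ⟨x, X.K0_le_ker hx⟩) = 0 := by
    intro x hx
    induction hx using Subgroup.closure_induction with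
    | mem x hx =>
      obtain ⟨g, -, ⟨-, rfl⟩ | ⟨-, rfl⟩⟩ := hx
      · exact congrArg Prod.fst (congrFun hφ g)
      · exact congrArg Prod.snd (congrFun hφ g)
    | one => exact map_zero φ
    | mul x y hx hy h1 h2 =>
      exact (map_add φ (Additive.ofMul ⟨x, X.K0_le_ker hx⟩)
        (Additive.ofMul ⟨y, X.K0_le_ker hy⟩)).trans (by rw [h1, h2, add_zero])
    | inv x hx h1 =>
      exact (map_neg φ (Additive.ofMul ⟨x, X.K0_le_ker hx⟩)).trans (by rw [h1, neg_zero])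
  exact key _ hk

/-- Pull back along the abelianisation. -/
def pull (K : Type) [Group K] :
    (Additive (Abelianization K) →ₗ[ℤ] ℚ) →ₗ[ℚ] Additive K →+ ℚ where
  toFun f := f.toAddMonoidHom.comp (MonoidHom.toAdditive Abelianization.of)
  map_add' _ _ := rfl
  map_smul' _ _ := rfl

theorem pull_bij (K : Type) [Group K] : Function.Bijective (pull K) := by
  refine ⟨fun f f' h => LinearMap.ext fun x => ?_, fun φ => ?_⟩
  · obtain ⟨k, hk⟩ := QuotientGroup.mk_surjective (Additive.toMul x)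
    rw [show x = Additive.ofMul (Abelianization.of k) from congrArg Additive.ofMul hk.symm]
    exact DFunLike.congr_fun h (Additive.ofMul k)
  · exact ⟨(MonoidHom.toAdditiveLeft
      (Abelianization.lift (AddMonoidHom.toMultiplicativeRight φ))).toIntLinearMap, rfl⟩

end ChiA

open ChiA

theorem sChi : SChi := by
  intro G H _ _ X K f F h t ht
  have hJ : ∀ t : JL X.N, LabIdx X.N t.1.1 t.1.2.1 t.1.2.2 ∧ t.1.2.1 < t.1.2.2 := fun t =>
    ⟨(Finset.mem_filter.1 t.2).2.1, (Finset.mem_filter.1 t.2).2.2.1⟩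
  have hp : ∀ γ g, X.perm (γ * X.σ 0 ^ 2 * γ⁻¹ * g) = X.perm g := fun γ g => by
    rw [map_mul, map_mul, map_mul, map_pow, X.perm_σ 0 (by have := X.h6; omega), sq,
      Equiv.swap_mul_self, mul_one, ← map_mul, mul_inv_cancel, map_one, one_mul]
  obtain ⟨a, b, hA, s1, s2, -, s4, -⟩ := shape (hJ t).1 ht
  obtain ⟨γ₀, g1, g2⟩ := two K (s1.trans s2) (hJ t).1.2.2.1 s4.symm
  have e0 : chi t.1.1 t.1.2.1 t.1.2.2 (X.perm γ₀ 0) (X.perm γ₀ 1) = -1 := by
    rw [g1, g2, chi, if_pos (Or.inl ⟨by simp [hA], Or.inl rfl⟩)]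
  obtain ⟨χ, hχ⟩ : ∃ χ : JL X.N → G → ℚ,
    χ = fun t γ => chi t.1.1 t.1.2.1 t.1.2.2 (X.perm γ 0) (X.perm γ 1) := ⟨_, rfl⟩
  have he : ∀ (t : JL X.N) γ g, X.vL (mkL t.1.1 t.1.2.1 t.1.2.2) (γ * X.σ 0 ^ 2 * γ⁻¹ * g) =
      χ t γ • X.vL (mkL t.1.1 t.1.2.1 t.1.2.2) g := fun t γ g => by
    rw [hχ]; exact K.eig γ _ _ _ (hJ t).1 g
  obtain ⟨g, hg⟩ := K.ne _ _ _ (hJ t).1
  have := sep (fun t : JL X.N => X.vL (mkL t.1.1 t.1.2.1 t.1.2.2))
    (fun γ g => γ * X.σ 0 ^ 2 * γ⁻¹ * g) χ he t (Finset.univ.erase t) (fun s hs => by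
      by_contra hh
      push Not at hh
      refine (Finset.mem_erase.1 hs).1 (Subtype.ext
        (chi_inj (hJ t).1 (hJ s).1 (hJ t).2 (hJ s).2 ht fun i j hi hj hij => ?_))
      obtain ⟨γ, rfl, rfl⟩ := two K hi hj hij
      simpa only [hχ] using (hh γ).symm) ((χ t γ₀ - 1) * f t) (fun s => (χ s γ₀ - 1) * f s)
    (fun g => by
      rw [Finset.add_sum_erase _ (fun s : JL X.N =>
        ((χ s γ₀ - 1) * f s) • X.vL (mkL s.1.1 s.1.2.1 s.1.2.2) g) (Finset.mem_univ t)]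
      have h1 := h (γ₀ * X.σ 0 ^ 2 * γ₀⁻¹ * g)
      rw [hp, ← h g] at h1
      simp only [he, smul_smul, sub_mul, sub_smul, Finset.sum_sub_distrib, one_mul,
        mul_comm (χ _ _)] at h1 ⊢
      rw [h1, sub_self]) g
  rw [smul_eq_zero, hχ] at this
  rcases this with h1 | h1
  · simp only [e0] at h1
    linarith
  · exact absurd (congrArg Prod.fst h1) hg

theorem sDual : SDual := by
  intro G H _ _ X
  refine ⟨val_inj X, fun F hF hfin ψ hψ => ?_⟩
  obtain ⟨s, hs, e⟩ := (Submodule.fg_span_iff_fg_span_finset_subset F).1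
    (Module.Finite.iff_fg.1 hfin)
  choose φ hφ using fun v : s => hF v (hs v.2)
  obtain ⟨c, rfl⟩ := comb φ ψ fun k hk => hψ k fun φ' h' => by
    have h1 : X.val φ' ∈ Submodule.span ℚ (Set.range fun v : s => valL X (φ v)) := by
      rw [show (Set.range fun v : s => valL X (φ v)) = s by
        ext v; simp [valL, hφ], ← e]
      exact Submodule.subset_span h'
    obtain ⟨c, hc⟩ := (Submodule.mem_span_range_iff_exists_fun ℚ).1 h1
    simp only [← map_smul, ← map_sum] at hc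
    rw [← val_inj X hc]
    simp [hk]
  change valL X _ ∈ _
  rw [map_sum]
  refine Submodule.sum_mem _ fun v _ => ?_
  rw [map_smul]
  refine Submodule.smul_mem _ _ (Submodule.subset_span ?_)
  change X.val _ ∈ F
  rw [hφ]
  exact hs v.2

theorem sRank : SRank := by
  intro K _ _
  rw [← (LinearEquiv.ofBijective _ (pull_bij K)).finrank_eq,
    (LinearMap.liftBaseChangeEquiv ℚ).finrank_eq]
  exact ((TensorProduct.isBaseChange ℤ _ ℚ).finrank_eq.symm).trans Subspace.dual_finrank_eq.symm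

end Pool.Agent.MP_00906f_gt.H33E
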