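import Pool.Agent.MP_00906f_gt.H46.FG4
import Pool.Agent.MP_00906f_gt.H46.Fin

/-! Definitions for the exact first Betti number of the hyperelliptic Torelli group. -/

namespace Pool.Agent.MP_00906f_gt.H33E

open H46

/-- A quandle. -/
structure Rk (X : Type) where
  act : X → Equiv.Perm X
  sd : ∀ x y z, act (act x y) (act x z) = act x (act y z)
  idem : ∀ x, act x x = x

/-- The Hurwitz move at the places `i, i+1`. -/
def Rk.hur {X : Type} (R : Rk X) (i : ℕ) : Equiv.Perm (ℕ → X) where
  toFun y j := if j = i then R.act (y i) (y (i + 1)) else if j = i + 1 then y i else y j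
  invFun y j := if j = i then y (i + 1) else if j = i + 1 then (R.act (y (i + 1)))⁻¹ (y i) else y j
  left_inv y := by
    funext j
    by_cases h : j = i
    · simp [h]
    · by_cases h' : j = i + 1 <;> simp [h, h']
  right_inv y := by
    funext j
    by_cases h : j = i
    · simp [h]
    · by_cases h' : j = i + 1 <;> simp [h, h']

theorem Rk.hur_apply {X : Type} (R : Rk X) (i : ℕ) (y : ℕ → X) (j : ℕ) :
    R.hur i y j = if j = i then R.act (y i) (y (i + 1)) else if j = i + 1 then y i else y j := rfl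

theorem Rk.hur_inv_apply {X : Type} (R : Rk X) (i : ℕ) (y : ℕ → X) (j : ℕ) :
    (R.hur i)⁻¹ y j =
      if j = i then y (i + 1) else if j = i + 1 then (R.act (y (i + 1)))⁻¹ (y i) else y j := rfl

theorem Rk.hur_bf {X : Type} (R : Rk X) (N : ℕ) : IsBF R.hur N := by
  refine ⟨fun i _ => ?_, fun i j hij _ => ?_⟩
  · ext y j
    simp only [Equiv.Perm.mul_apply, Rk.hur_apply]
    by_cases h0 : j = i
    · simp [h0, R.sd, show i + 1 + 1 ≠ i by omega, show i ≠ i + 1 + 1 by omega]
    · by_cases h1 : j = i + 1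
      · simp [h1, show i + 1 + 1 ≠ i by omega, show i ≠ i + 1 + 1 by omega]
      · by_cases h2 : j = i + 1 + 1
        · simp [h2, show i + 1 + 1 ≠ i by omega, show i ≠ i + 1 + 1 by omega]
        · simp [h0, h1, h2]
  · ext y k
    simp only [Equiv.Perm.mul_apply, Rk.hur_apply]
    have a1 : i ≠ j := by omega
    have a2 : i ≠ j + 1 := by omega
    have a3 : i + 1 ≠ j := by omega
    have a4 : j ≠ i := by omega
    have a5 : j ≠ i + 1 := by omega
    have a6 : j + 1 ≠ i := by omega
    by_cases h0 : k = i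
    · simp [h0, a1, a2, a3]
    · by_cases h1 : k = i + 1
      · simp [h1, a1, a2, a3]
      · by_cases h2 : k = j
        · simp [h2, a4, a5, a6]
        · by_cases h3 : k = j + 1 <;> simp [h0, h1, h2, h3, a4, a5, a6]

/-- The conjugation rack of a group. -/
def conjR (P : Type) [Group P] : Rk P where
  act x := (MulAut.conj x).toEquiv
  sd x y z := by simp [MulAut.conj_apply, mul_assoc]
  idem x := by simp [MulAut.conj_apply]

theorem conjR_act {P : Type} [Group P] (x y : P) : (conjR P).act x y = x * y * x⁻¹ := rfl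

/-- Labels: blank, reflection, and two signed markers. -/
inductive Lab : Type
  | O : Lab
  | R : Lab
  | C : Bool → Lab
  | D : Bool → Lab
  deriving DecidableEq

/-- Change of sign of the markers. -/
def Lab.flip : Lab → Lab
  | .O => .O
  | .R => .R
  | .C s => .C (!s)
  | .D s => .D (!s)

theorem Lab.flip_flip (x : Lab) : x.flip.flip = x := by cases x <;> simp [Lab.flip]

def Lab.flipE : Equiv.Perm Lab := ⟨Lab.flip, Lab.flip, Lab.flip_flip, Lab.flip_flip⟩

/-- The rack of labels: a reflection changes the sign of the markers. -/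
def labR : Rk Lab where
  act x := if x = .R then Lab.flipE else 1
  sd x y z := by
    cases x <;> cases y <;> cases z <;> simp [Lab.flipE, Lab.flip]
  idem x := by cases x <;> simp [Lab.flipE, Lab.flip]

/-- The sign of the first marker. -/
def Lab.al : Lab → ℚ
  | .C s => if s then 1 else -1
  | _ => 0

/-- The sign of the second marker. -/
def Lab.be : Lab → ℚ
  | .D s => if s then 1 else -1
  | _ => 0

/-- The number of reflections among the first `k` places. -/
def nR (k : ℕ) (l : ℕ → Lab) : ℕ := ((Finset.range k).filter fun j => l j = .R).card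

/-- The value of a labelled class on the squared full twist of the first `k` strands. -/
def lval (N k : ℕ) (l : ℕ → Lab) : ℚ :=
  if nR k l = 0 then 2 * (∑ j ∈ Finset.range k, (l j).al) * ∑ j ∈ Finset.range k, (l j).be
  else if nR k l = 2 then
    2 * (∑ j ∈ Finset.Ico k (N + 1), (l j).al) * ∑ j ∈ Finset.Ico k (N + 1), (l j).be
  else 0

/-- Reflections on `A`, markers at `c` and `d`. -/
def mkL (A : Finset ℕ) (c d : ℕ) : ℕ → Lab := fun j =>
  if j = c then .C true else if j = d then .D true else if j ∈ A then .R else .O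

/-- The normalised labellings. -/
def LabIdx (N : ℕ) (A : Finset ℕ) (c d : ℕ) : Prop :=
  A ⊆ Finset.range (N + 1) ∧ A.card ≤ 2 ∧ c ≤ N ∧ d ≤ N ∧ c ≠ d ∧ c ∉ A ∧ d ∉ A ∧
    (A.card = 2 → ∃ a ∈ A, a < c ∧ a < d)

/-- The braid relators on `N` generators. -/
def brRels (N : ℕ) : Set (FreeGroup (Fin N)) :=
  {r | (∃ i j : Fin N, i.val + 1 = j.val ∧
          r = .of i * .of j * .of i * (.of j * .of i * .of j)⁻¹) ∨
       (∃ i j : Fin N, i.val + 2 ≤ j.val ∧ r = .of i * .of j * (.of j * .of i)⁻¹)}

/-- The braid group on `N + 1` strands. -/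
abbrev Br (N : ℕ) : Type := PresentedGroup (brRels N)

/-- The standard generators. -/
def sg (N i : ℕ) : Br N := if h : i < N then PresentedGroup.of ⟨i, h⟩ else 1

theorem sg_of {N : ℕ} (i : Fin N) : sg N i = PresentedGroup.of i := by simp [sg]

theorem sg_bf (N : ℕ) : IsBF (sg N) N := by
  refine ⟨fun i hi => ?_, fun i j hij hj => ?_⟩
  · have := PresentedGroup.one_of_mem (rels := brRels N)
      (Or.inl ⟨⟨i, by omega⟩, ⟨i + 1, hi⟩, rfl, rfl⟩)
    simp only [map_mul, map_inv, mul_inv_eq_one] at this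
    simp only [sg, dif_pos hi, dif_pos (show i < N by omega)]
    exact this
  · have := PresentedGroup.one_of_mem (rels := brRels N)
      (Or.inr ⟨⟨i, by omega⟩, ⟨j, hj⟩, hij, rfl⟩)
    simp only [map_mul, map_inv, mul_inv_eq_one] at this
    simp only [sg, dif_pos hj, dif_pos (show i < N by omega)]
    exact this

/-- The universal property of the braid group. -/
def brLift {Q : Type} [Group Q] {N : ℕ} (τ : ℕ → Q) (h : IsBF τ N) : Br N →* Q :=
  PresentedGroup.toGroup (f := fun i : Fin N => τ i) (by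
    rintro r (⟨i, j, hij, rfl⟩ | ⟨i, j, hij, rfl⟩)
    · simp only [map_mul, map_inv, FreeGroup.lift_apply_of, mul_inv_eq_one, ← hij]
      exact h.braid i (by omega)
    · simp only [map_mul, map_inv, FreeGroup.lift_apply_of, mul_inv_eq_one]
      exact h.comm i j hij j.2)

theorem brLift_sg {Q : Type} [Group Q] {N : ℕ} (τ : ℕ → Q) (h : IsBF τ N) {i : ℕ} (hi : i < N) :
    brLift τ h (sg N i) = τ i := by
  rw [sg, dif_pos hi, brLift, PresentedGroup.toGroup.of]

theorem br_top {N : ℕ} (x : Br N) : x ∈ BB (sg N) N :=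
  PresentedGroup.generated_by _ (BB (sg N) N) (fun i => by rw [← sg_of]; exact mem_BB i.2) x

/-- The Hurwitz action of the braid group on tuples in a rack. -/
def Rk.br {X : Type} (R : Rk X) (N : ℕ) : Br N →* Equiv.Perm (ℕ → X) := brLift R.hur (R.hur_bf N)

/-- The Artin action, on tuples in the free group. -/
def Art (N : ℕ) : Br N →* Equiv.Perm (ℕ → FreeGroup ℕ) := (conjR (FreeGroup ℕ)).br N

/-- The squared full twist of all strands. -/
def Del4 (N : ℕ) : Br N := FinAux.up (sg N) N ^ (2 * (N + 1))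

/-- A system that is generated by its braid family, with the actions on places and labels. -/
structure XSys (G H : Type) [Group G] [AddCommGroup H] extends Sys G H where
  hN : Even N
  h6 : 6 ≤ N
  top : ∀ x, x ∈ toSys.B
  Ltop : ∀ x, x ∈ toSys.L
  perm : G →* Equiv.Perm ℕ
  lab : G →* Equiv.Perm (ℕ → Lab)
  perm_σ : ∀ i, i < N → perm (σ i) = Equiv.swap i (i + 1)
  lab_σ : ∀ i, i < N → lab (σ i) = labR.hur i

namespace XSys

variable {G H : Type} [Group G] [AddCommGroup H] (X : XSys G H)

/-- The context of the finite generation proof. -/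
def ctx (h : ∀ a ∈ X.ρ.ker, ∀ b ∈ X.ρ.ker, a * b = b * a) : Ctx G H :=
  { X.toSys with hN := X.hN, h6 := X.h6, comm := h }

/-- The Pluecker coordinate of `x, y` at `p, q`. -/
def pl (x y p q : H) : ℚ := (X.ω p x * X.ω q y - X.ω p y * X.ω q x : ℤ)

/-- The form of the genus one summand moved by `g`. -/
def B3 (g : G) (p q : H) : ℚ := X.pl (X.ρ g (X.c 0)) (X.ρ g (X.c 1)) p q

/-- The form of the genus two summand moved by `g`. -/
def B5 (g : G) (p q : H) : ℚ :=
  X.B3 g p q + X.pl (X.ρ g (X.c 0 + X.c 2)) (X.ρ g (X.c 3)) p q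

/-- The weight of the first `k` places moved by `g`. -/
def sI (k : ℕ) (I : ℕ → ℚ) (g : G) : ℚ := ∑ j ∈ Finset.range k, I (X.perm g j)

/-- The values of the Johnson type classes. -/
def v4 (p q r e : H) (I : ℕ → ℚ) (g : G) : ℚ × ℚ :=
  ((X.sI 3 I g + X.B3 g p q) * X.B3 g r e - X.B3 g q r * X.B3 g p e,
   (X.sI 5 I g + X.B5 g p q) * X.B5 g r e - X.B5 g q r * X.B5 g p e)

/-- The values of the labelled classes. -/
def vL (l : ℕ → Lab) (g : G) : ℚ × ℚ :=
  (lval X.N 3 (X.lab g⁻¹ l), lval X.N 5 (X.lab g⁻¹ l))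

/-- All the value functions; the invariant class has the values `a, b`. -/
def Fam (a b : ℚ) : Set (G → ℚ × ℚ) :=
  {v | (∃ p q r e I, v = X.v4 p q r e I) ∨ (∃ A c d, LabIdx X.N A c d ∧ v = X.vL (mkL A c d)) ∨
    v = fun _ => (a, b)}

theorem T3_mem (g : G) : g * T3 X.σ * g⁻¹ ∈ X.ρ.ker :=
  (MonoidHom.normal_ker X.ρ).conj_mem _ (X.T3_ker (by have := X.h6; omega)) g

theorem T5_mem (g : G) : g * T5 X.σ * g⁻¹ ∈ X.ρ.ker :=
  (MonoidHom.normal_ker X.ρ).conj_mem _ (X.K0_le_ker (H46.T5_mem (by have := X.h6; omega))) g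

/-- The values of a class on the conjugates of the two twists. -/
def val (φ : Additive X.ρ.ker →+ ℚ) (g : G) : ℚ × ℚ :=
  (φ (Additive.ofMul ⟨_, X.T3_mem g⟩), φ (Additive.ofMul ⟨_, X.T5_mem g⟩))

end XSys

end Pool.Agent.MP_00906f_gt.H33E
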