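import Pool.Agent.MP_00906f_gt.H33E.Spec

/-! Row Desc: the kernel of `piB` acts like the powers of the full twist. -/

namespace Pool.Agent.MP_00906f_gt.H33E

open H46 H46.FinAux

namespace DescA

theorem rep_of_cons {α : Type} (a : α) : ∀ w : List α, a :: w = w ++ [a] →
    w = List.replicate w.length a
  | [], _ => rfl
  | b :: w, h => by
    rw [List.cons_append, List.cons.injEq] at h
    obtain ⟨rfl, h⟩ := h
    rw [List.length_cons, List.replicate_succ, ← rep_of_cons a w h]

theorem cent_aux (s : ℕ × Bool) (u : FreeGroup ℕ)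
    (h : FreeGroup.mk [s] * u = u * FreeGroup.mk [s])
    (hs : ∀ t, u.toWord ≠ (s.1, !s.2) :: t) : u = FreeGroup.mk [s] ^ u.toWord.length := by
  have h1 : (FreeGroup.mk [s]).toWord = [s] := rfl
  have h2 : (FreeGroup.mk [s] * u).toWord = s :: u.toWord := by
    rw [FreeGroup.toWord_mul, h1, List.singleton_append, FreeGroup.reduce.cons,
      FreeGroup.reduce_toWord]
    cases hw : u.toWord with
    | nil => rfl
    | cons a t =>
      refine if_neg fun e => hs t ?_
      rw [hw, e.1, e.2, Bool.not_not]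
  have h3 := FreeGroup.toWord_mul_sublist u (FreeGroup.mk [s])
  rw [← h, h2, h1] at h3
  have h4 := rep_of_cons s _ (h3.eq_of_length (by simp))
  apply FreeGroup.toWord_injective
  rw [FreeGroup.toWord_pow, h1, List.flatten_replicate_singleton, FreeGroup.reduce_replicate]
  exact h4

/-- The centraliser of a generator. -/
theorem cent_of (u : FreeGroup ℕ) (h : FreeGroup.of 0 * u = u * FreeGroup.of 0) :
    ∃ m : ℤ, u = FreeGroup.of 0 ^ m := by
  by_cases hs : ∀ t, u.toWord ≠ (0, false) :: t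
  · exact ⟨u.toWord.length, by rw [zpow_natCast]; exact cent_aux (0, true) u h hs⟩
  · push Not at hs
    obtain ⟨t, ht⟩ := hs
    have e : FreeGroup.mk [((0 : ℕ), false)] = (FreeGroup.of 0)⁻¹ := rfl
    refine ⟨-u.toWord.length, ?_⟩
    rw [zpow_neg, zpow_natCast, ← inv_pow, ← e]
    refine cent_aux (0, false) u ?_ fun t' ht' => ?_
    · rw [e]; exact (Commute.inv_left h :)
    · rw [ht] at ht'; simp at ht'

theorem map_up {G Q : Type} [Group G] [Group Q] (f : G →* Q) {σ : ℕ → G} {τ : ℕ → Q} {k : ℕ}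
    (h : ∀ i, i < k → f (σ i) = τ i) : f (up σ k) = up τ k := by
  induction k with
  | zero => exact map_one _
  | succ k ih => rw [up, up, map_mul, ih fun i hi => h i (by omega), h k (by omega)]

theorem map_aa {G Q : Type} [Group G] [Group Q] (f : G →* Q) {σ : ℕ → G} {τ : ℕ → Q} {k : ℕ}
    (h : ∀ i, i < k → f (σ i) = τ i) : f (aa σ k) = aa τ k := by
  induction k with
  | zero => exact map_one _
  | succ k ih => rw [aa, aa, map_mul, ih fun i hi => h i (by omega), h k (by omega)]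

/-- The centraliser of the product of the generators. -/
theorem cent_up (N : ℕ) (u : FreeGroup ℕ)
    (h : up FreeGroup.of (N + 1) * u = u * up FreeGroup.of (N + 1)) :
    ∃ m : ℤ, u = up FreeGroup.of (N + 1) ^ m := by
  obtain ⟨w, hw⟩ : ∃ w : FreeGroup ℕ, w = up (fun i => FreeGroup.of (i + 1)) N := ⟨_, rfl⟩
  have key : ∀ v : FreeGroup ℕ, ∃ f : FreeGroup ℕ →* FreeGroup ℕ,
      f (FreeGroup.of 0) = FreeGroup.of 0 * v ∧
        ∀ i, f (FreeGroup.of (i + 1)) = FreeGroup.of (i + 1) := fun v =>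
    ⟨FreeGroup.lift fun i => if i = 0 then FreeGroup.of 0 * v else FreeGroup.of i,
      by simp, fun i => by simp⟩
  obtain ⟨φ, φ0, φ1⟩ := key w
  obtain ⟨ψ, ψ0, ψ1⟩ := key w⁻¹
  have φw : φ w = w := by rw [hw]; exact map_up φ fun i _ => φ1 i
  have ψw : ψ w = w := by rw [hw]; exact map_up ψ fun i _ => ψ1 i
  have hid : φ.comp ψ = MonoidHom.id _ := by
    refine FreeGroup.ext_hom _ _ fun i => ?_
    cases i with
    | zero => simp [ψ0, φ0, φw]
    | succ i => simp [ψ1, φ1]
  rw [up_succ, ← hw] at h ⊢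
  have h1 := congrArg ψ h
  simp only [map_mul, ψ0, ψw, inv_mul_cancel_right] at h1
  obtain ⟨m, hm⟩ := cent_of _ h1
  refine ⟨m, ?_⟩
  have h2 : φ (ψ u) = u := DFunLike.congr_fun hid u
  rw [← h2, hm, map_zpow, φ0]

section loc

variable {X : Type} (R : Rk X) {N : ℕ}

theorem br_hi (β : Br N) (y : ℕ → X) {j : ℕ} (hj : N < j) : R.br N β y j = y j := by
  refine (br_rel (R.br N) (1 : Br N →* Equiv.Perm (ℕ → X)) (fun y y' => y j = y' j)
    (fun i hi y y' => ?_) β y y).1 rfl
  rw [R.br_sg hi, R.hur_hi (by omega)]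
  rfl

theorem br_loc (β : Br N) {y y' : ℕ → X} (h : ∀ j, j ≤ N → y j = y' j) :
    ∀ j, j ≤ N → R.br N β y j = R.br N β y' j := by
  refine (br_rel (R.br N) (R.br N) (fun y y' => ∀ j, j ≤ N → y j = y' j)
    (fun i hi y y' => ⟨fun h j hj => ?_, fun h j hj => ?_⟩) β y y').1 h
  · rw [R.br_sg hi, R.hur_apply, R.hur_apply, h i (by omega), h (i + 1) hi, h j hj]
  · rw [R.br_sg hi] at h
    have e : ∀ z : ℕ → X, z j = (R.hur i)⁻¹ (R.hur i z) j := fun z => by simp
    rw [e y, e y', R.hur_inv_apply, R.hur_inv_apply, h i (by omega), h (i + 1) hi, h j hj]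

/-- A new entry in front. -/
def cons (z : X) (y : ℕ → X) : ℕ → X
  | 0 => z
  | j + 1 => y j

/-- The shift of the braid group. -/
def shB (N : ℕ) : Br N →* Br (N + 1) :=
  brLift (fun i => sg (N + 1) (i + 1))
    ⟨fun i hi => (sg_bf (N + 1)).braid (i + 1) (by omega),
      fun i j hij hj => (sg_bf (N + 1)).comm (i + 1) (j + 1) (by omega) (by omega)⟩

theorem shB_sg {i : ℕ} (hi : i < N) : shB N (sg N i) = sg (N + 1) (i + 1) := brLift_sg _ _ hi

theorem br_cons (β : Br N) (z : X) (y : ℕ → X) :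
    R.br (N + 1) (shB N β) (cons z y) = cons z (R.br N β y) := by
  have key : ∀ i (y : ℕ → X), R.hur (i + 1) (cons z y) = cons z (R.hur i y) := by
    intro i y
    funext j
    cases j with
    | zero => rw [R.hur_lo (by omega)]; rfl
    | succ j => simp only [Rk.hur_apply, cons, Nat.add_right_cancel_iff]
  refine (br_rel (R.br N) ((R.br (N + 1)).comp (shB N)) (fun y y' => y' = cons z y)
    (fun i hi y y' => ?_) β y _).1 rfl
  rw [MonoidHom.comp_apply, shB_sg hi, R.br_sg hi, R.br_sg (by omega), ← key]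
  exact (R.hur (i + 1)).injective.eq_iff.symm

theorem aa_apply (k : ℕ) (y : ℕ → X) (j : ℕ) :
    aa R.hur k y j = if j < k then R.act (y 0) (y (j + 1)) else if j = k then y 0 else y j := by
  induction k generalizing j with
  | zero => by_cases h : j = 0 <;> simp [aa, h]
  | succ k ih =>
    rw [aa, Equiv.Perm.mul_apply, R.hur_apply]
    by_cases h : j = k
    · rw [if_pos h, if_pos (by omega), ih, ih, if_neg (by omega), if_pos rfl, if_neg (by omega),
        if_neg (by omega), h]
    · rw [if_neg h]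
      by_cases h1 : j = k + 1
      · rw [if_pos h1, if_neg (by omega), if_pos h1, ih, if_neg (by omega), if_pos rfl]
      · rw [if_neg h1, ih, if_neg h, if_neg h1]
        by_cases h2 : j < k
        · rw [if_pos h2, if_pos (by omega)]
        · rw [if_neg h2, if_neg (by omega)]

end loc

section grp

variable {P : Type} [Group P] {N : ℕ}

theorem up_congr {y y' : ℕ → P} {k : ℕ} (h : ∀ j, j < k → y j = y' j) : up y k = up y' k :=
  map_up (MonoidHom.id P) h

theorem up_hur {i k : ℕ} (h : i + 2 ≤ k) (y : ℕ → P) : up ((conjR P).hur i y) k = up y k := by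
  induction k, h using Nat.le_induction with
  | base =>
    rw [up, up, up, up, up_congr (y' := y) fun j hj => (conjR P).hur_lo hj y,
      Rk.hur_self, Rk.hur_succ, conjR_act]
    group
  | succ k hk ih => rw [up, up, ih, (conjR P).hur_hi (by omega)]

theorem up_br (β : Br N) (y : ℕ → P) : up ((conjR P).br N β y) (N + 1) = up y (N + 1) := by
  refine (br_rel ((conjR P).br N) (1 : Br N →* Equiv.Perm (ℕ → P))
    (fun y y' => up y (N + 1) = up y' (N + 1)) (fun i hi y y' => ?_) β y y).1 rfl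
  rw [(conjR P).br_sg hi, up_hur (by omega)]
  rfl

theorem br_conj (β : Br N) {y y' : ℕ → P} {u : P} (h : ∀ j, j ≤ N → y' j = u * y j * u⁻¹) :
    ∀ j, j ≤ N → (conjR P).br N β y' j = u * (conjR P).br N β y j * u⁻¹ := by
  intro j hj
  have h1 := br_nat (conjR P) (conjR P) (fun x => u * x * u⁻¹)
    (fun a b => by simp only [conjR_act]; group) β y
  rw [br_loc (conjR P) β (y' := (fun x => u * x * u⁻¹) ∘ y) h j hj, h1]
  rfl

/-- The braids that act by a conjugation on every tuple with trivial product. -/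
def TT (P : Type) [Group P] (N : ℕ) : Subgroup (Br N) where
  carrier := {β | ∀ y : ℕ → P, up y (N + 1) = 1 →
    ∃ u : P, ∀ j, j ≤ N → (conjR P).br N β y j = u * y j * u⁻¹}
  one_mem' y _ := ⟨1, fun j _ => by simp⟩
  mul_mem' := by
    intro β β' h h' y hy
    obtain ⟨u', hu'⟩ := h' y hy
    obtain ⟨u, hu⟩ := h ((conjR P).br N β' y) (by rw [up_br, hy])
    refine ⟨u * u', fun j hj => ?_⟩
    rw [map_mul, Equiv.Perm.mul_apply, hu j hj, hu' j hj]
    group
  inv_mem' := by
    intro β h y hy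
    obtain ⟨u, hu⟩ := h ((conjR P).br N β⁻¹ y) (by rw [up_br, hy])
    refine ⟨u⁻¹, fun j hj => ?_⟩
    have h1 := hu j hj
    rw [← Equiv.Perm.mul_apply, ← map_mul, mul_inv_cancel, map_one, Equiv.Perm.one_apply] at h1
    rw [h1]
    group

instance TT_normal : (TT P N).Normal := ⟨by
  intro β h γ y hy
  obtain ⟨u, hu⟩ := h ((conjR P).br N γ⁻¹ y) (by rw [up_br, hy])
  refine ⟨u, fun j hj => ?_⟩
  rw [map_mul, map_mul, Equiv.Perm.mul_apply, Equiv.Perm.mul_apply, br_conj γ hu j hj,
    ← Equiv.Perm.mul_apply, ← map_mul, mul_inv_cancel, map_one, Equiv.Perm.one_apply]⟩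

theorem pw_mem : up (sg N) N ^ (N + 1) ∈ TT P N := fun y _ =>
  ⟨up y (N + 1), fun j hj => by
    rw [map_pow, (conjR P).br_up le_rfl, Rk.twist, if_pos hj, pa_conj]⟩

theorem iota_mem : up (sg N) N * aa (sg N) N ∈ TT P N := by
  intro y hy
  refine ⟨y 0, fun j hj => ?_⟩
  have h1 := up_br (aa (sg N) N) y
  have h2 : (conjR P).br N (aa (sg N) N) = aa (conjR P).hur N :=
    map_aa _ fun i hi => (conjR P).br_sg hi
  rw [h2, hy, up, aa_apply, if_neg (lt_irrefl _), if_pos rfl] at h1
  rw [map_mul, Equiv.Perm.mul_apply, (conjR P).br_up le_rfl, h2, Rk.up_apply]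
  by_cases h : j = 0
  · rw [if_pos h, pa_conj, eq_inv_of_mul_eq_one_left h1, aa_apply, if_neg (lt_irrefl _),
      if_pos rfl, h]
    group
  · rw [if_neg h, if_pos hj, aa_apply, if_pos (by omega), conjR_act,
      show j - 1 + 1 = j by omega]

theorem quot_BH : BH (fun i => QuotientGroup.mk' (TT P N) (sg N i)) N := by
  have hu : up (fun i => QuotientGroup.mk' (TT P N) (sg N i)) N =
      QuotientGroup.mk' (TT P N) (up (sg N) N) := (map_up _ fun _ _ => rfl).symm
  have ha : aa (fun i => QuotientGroup.mk' (TT P N) (sg N i)) N =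
      QuotientGroup.mk' (TT P N) (aa (sg N) N) := (map_aa _ fun _ _ => rfl).symm
  have hi : up (fun i => QuotientGroup.mk' (TT P N) (sg N i)) N *
      aa (fun i => QuotientGroup.mk' (TT P N) (sg N i)) N = 1 := by
    rw [hu, ha, ← map_mul]
    exact (QuotientGroup.eq_one_iff _).2 iota_mem
  refine ⟨⟨fun i h => ?_, fun i j hij hj => ?_⟩, ?_, ?_, fun i _ => ?_⟩
  · simp only [← map_mul, (sg_bf N).braid i h]
  · simp only [← map_mul, (sg_bf N).comm i j hij hj]
  · rw [hu, ← map_pow]
    exact (QuotientGroup.eq_one_iff _).2 pw_mem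
  · rw [hi, one_pow]
  · rw [hi, one_mul, mul_one]

theorem mem_TT {g : ℕ} {β : Br (2 * g)} (h : piB g β = 1) :
    shB (2 * g) β ∈ TT P (2 * g + 1) := by
  have hr := (rels_iff g
    (FreeGroup.lift fun i : Fin (2 * g + 1) =>
      QuotientGroup.mk' (TT P (2 * g + 1)) (sg (2 * g + 1) i))
    (fun i => QuotientGroup.mk' (TT P (2 * g + 1)) (sg (2 * g + 1) i))
    fun i => FreeGroup.lift_apply_of).2 quot_BH
  have e : (PresentedGroup.toGroup hr).comp (piB g) =
      (QuotientGroup.mk' (TT P (2 * g + 1))).comp (shB (2 * g)) := by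
    refine PresentedGroup.ext fun i => ?_
    rw [← sg_of, MonoidHom.comp_apply, MonoidHom.comp_apply, shB_sg i.2, piB, brLift_sg _ _ i.2,
      tt, dif_pos (show i.1 + 1 < 2 * g + 1 by omega), PresentedGroup.toGroup.of]
  have h1 := DFunLike.congr_fun e β
  rw [MonoidHom.comp_apply, MonoidHom.comp_apply, h, map_one] at h1
  exact (QuotientGroup.eq_one_iff _).1 h1.symm

/-- The braid acts on the tuple `y` by the conjugation with `u`. -/
def Cj (y : ℕ → P) (β : Br N) (u : P) : Prop :=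
  ∀ j, j ≤ N → (conjR P).br N β y j = u * y j * u⁻¹

theorem Cj.mul {y : ℕ → P} {β β' : Br N} {u u' : P} (h : Cj y β u) (h' : Cj y β' u') :
    Cj y (β * β') (u' * u) := fun j hj => by
  rw [map_mul, Equiv.Perm.mul_apply, br_conj β h' j hj, h j hj]
  group

theorem Cj.inv {y : ℕ → P} {β : Br N} {u : P} (h : Cj y β u) : Cj y β⁻¹ u⁻¹ := fun j hj => by
  have h1 := br_conj β⁻¹ h j hj
  rw [← Equiv.Perm.mul_apply, ← map_mul, inv_mul_cancel, map_one, Equiv.Perm.one_apply] at h1
  rw [h1]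
  group

theorem Cj.pow {y : ℕ → P} {β : Br N} {u : P} (h : Cj y β u) (n : ℕ) : Cj y (β ^ n) (u ^ n) := by
  induction n with
  | zero => intro j _; simp
  | succ n ih => rw [pow_succ, pow_succ']; exact ih.mul h

theorem Cj.zpow {y : ℕ → P} {β : Br N} {u : P} (h : Cj y β u) (m : ℤ) :
    Cj y (β ^ m) (u ^ m) := by
  obtain ⟨n, rfl | rfl⟩ := m.eq_nat_or_neg
  · rw [zpow_natCast, zpow_natCast]; exact h.pow n
  · rw [zpow_neg, zpow_neg, zpow_natCast, zpow_natCast]; exact (h.pow n).inv

theorem Cj.eq {y : ℕ → P} {β β' : Br N} {u : P} (h : Cj y β u) (h' : Cj y β' u) :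
    (conjR P).br N β y = (conjR P).br N β' y := by
  funext j
  by_cases hj : j ≤ N
  · rw [h j hj, h' j hj]
  · rw [br_hi _ _ _ (by omega), br_hi _ _ _ (by omega)]

theorem cj_Del4 (y : ℕ → P) : Cj y (Del4 N) (up y (N + 1) ^ 2) := fun j hj => by
  rw [Rk.br_Del4, if_pos hj, pa_conj_sq]

theorem iota_eq {τ : ℕ → P} {m : ℕ} (h : BH τ (m + 1)) :
    up τ (m + 1) * aa τ (m + 1) = (up (fun i => τ (i + 1)) m ^ (m + 1))⁻¹ := by
  have h1 : ∀ k, k < m + 1 → up τ (m + 1) ^ k * τ 0 = τ k * up τ (m + 1) ^ k := by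
    intro k hk
    induction k with
    | zero => simp
    | succ k ih =>
      rw [pow_succ', mul_assoc, ih (by omega), ← mul_assoc, up_conj h.bf (by omega) le_rfl,
        mul_assoc]
  have h2 : ∀ k, k ≤ m + 1 → aa τ k * up (fun i => τ (i + 1)) m ^ k = up τ (m + 1) ^ k := by
    intro k hk
    induction k with
    | zero => simp [aa]
    | succ k ih =>
      rw [aa, pow_succ, mul_assoc, ← mul_assoc (aa τ k), ih (by omega), ← mul_assoc,
        ← h1 k (by omega), mul_assoc, ← up_succ, pow_succ]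
  rw [eq_inv_iff_mul_eq_one, mul_assoc, h2 _ le_rfl, ← pow_succ', h.pw]

end grp

end DescA

open DescA

/-- Row Desc. -/
theorem sDesc : SDesc := by
  intro g
  refine ⟨?_, fun β hβ => ?_⟩
  · have h1 := (tt_BH g).sq
    rw [iota_eq (tt_BH g), inv_pow, inv_eq_one, ← pow_mul, mul_comm (2 * g + 1)] at h1
    rw [Del4, map_pow, map_up (piB g) (τ := fun i => tt g (i + 1)) fun i hi => brLift_sg _ _ hi]
    exact h1
  · obtain ⟨u, hu⟩ := mem_TT (P := FreeGroup ℕ) hβ
      (cons (up FreeGroup.of (2 * g + 1))⁻¹ FreeGroup.of) (by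
        rw [up_succ]
        exact inv_mul_cancel _)
    rw [br_cons] at hu
    have h0 : (up FreeGroup.of (2 * g + 1))⁻¹ = u * (up FreeGroup.of (2 * g + 1))⁻¹ * u⁻¹ :=
      hu 0 (by omega)
    have h1 : Cj FreeGroup.of β u := fun j hj => hu (j + 1) (by omega)
    obtain ⟨m, hm⟩ := cent_up (2 * g) u (by
      have h2 := congrArg (·⁻¹) h0
      simp only [mul_inv_rev, inv_inv] at h2
      conv_lhs => rw [h2]
      group)
    refine ⟨m, Cj.eq (h1.pow 2) ?_⟩
    have h3 := (cj_Del4 (N := 2 * g) (FreeGroup.of : ℕ → FreeGroup ℕ)).zpow m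
    rwa [← zpow_natCast, ← zpow_mul, mul_comm _ m, zpow_mul, ← hm, zpow_natCast] at h3

end Pool.Agent.MP_00906f_gt.H33E
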