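import Pool.Agent.MP_00906f_gt.H33E.Spec

/-! Row Glue: from the upper bound, the classes and the count to the first Betti number. -/

namespace Pool.Agent.MP_00906f_gt.H33E

open H46 H46.FinAux

namespace GlueA

section quot
variable {G H : Type} [Group G] [AddCommGroup H]

/-- The values as a linear map. -/
def valL (X : XSys G H) : (Additive X.ρ.ker →+ ℚ) →ₗ[ℚ] (G → ℚ × ℚ) where
  toFun := X.val
  map_add' _ _ := rfl
  map_smul' _ _ := rfl

theorem comm_le (X : XSys G H) : ⁅X.ρ.ker, X.ρ.ker⁆ ≤ X.ρ.ker := Subgroup.commutator_le_left _ _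

/-- The system modulo the commutator subgroup of the kernel. -/
def quo (X : XSys G H) (hk : LabKit X) : XSys (G ⧸ ⁅X.ρ.ker, X.ρ.ker⁆) H where
  N := X.N
  σ i := QuotientGroup.mk' _ (X.σ i)
  c := X.c
  ω := X.ω
  ρ := QuotientGroup.lift _ X.ρ fun _ hx => comm_le X hx
  pt := X.pt
  bf := ⟨fun i hi => by simp only [← map_mul, X.bf.braid i hi],
    fun i j hij hj => by simp only [← map_mul, X.bf.comm i j hij hj]⟩
  alt := X.alt
  ch1 := X.ch1
  ch2 := X.ch2
  ρσ := X.ρσ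
  pt_c := X.pt_c
  hN := X.hN
  h6 := X.h6
  top x := by
    obtain ⟨y, rfl⟩ := QuotientGroup.mk'_surjective _ x
    have hy := X.top y
    induction hy using Subgroup.closure_induction with
    | mem x hx => obtain ⟨i, hi, rfl⟩ := hx; exact mem_BB hi
    | one => rw [map_one]; exact one_mem _
    | mul x z _ _ hx hz => rw [map_mul]; exact mul_mem hx hz
    | inv x _ hx => rw [map_inv]; exact inv_mem hx
  Ltop := X.Ltop
  perm := QuotientGroup.lift _ X.perm fun x hx => (hk.ker x (comm_le X hx)).1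
  lab := QuotientGroup.lift _ X.lab fun x hx => (hk.ker x (comm_le X hx)).2
  perm_σ := X.perm_σ
  lab_σ := X.lab_σ

/-- The map between the kernels. -/
def qk (X : XSys G H) (hk : LabKit X) : X.ρ.ker →* (quo X hk).ρ.ker :=
  ((QuotientGroup.mk' _).comp X.ρ.ker.subtype).codRestrict _ fun x => x.2

theorem qk_surj (X : XSys G H) (hk : LabKit X) : Function.Surjective (qk X hk) := fun ⟨a, ha⟩ => by
  obtain ⟨x, rfl⟩ := QuotientGroup.mk'_surjective _ a
  exact ⟨⟨x, ha⟩, rfl⟩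

theorem exists_desc {K K' : Type} [Group K] [Group K'] (f : K →* K') (hf : Function.Surjective f)
    (φ : Additive K →+ ℚ) (h : ∀ k, f k = 1 → φ (Additive.ofMul k) = 0) :
    ∃ φ' : Additive K' →+ ℚ, ∀ k, φ' (Additive.ofMul (f k)) = φ (Additive.ofMul k) := by
  refine ⟨(MonoidHom.toAdditive f).liftOfSurjective hf ⟨φ, fun k hk => h (Additive.toMul k) hk⟩,
    fun k => ?_⟩
  exact AddMonoidHom.liftOfRightInverse_comp_apply (MonoidHom.toAdditive f) _ _ _ (Additive.ofMul k)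

theorem kill_comm (X : XSys G H) (hk : LabKit X) (φ : Additive X.ρ.ker →+ ℚ) (k : X.ρ.ker)
    (h : qk X hk k = 1) : φ (Additive.ofMul k) = 0 := by
  have h2 : (k : G) ∈ ⁅X.ρ.ker, X.ρ.ker⁆ :=
    (QuotientGroup.eq_one_iff _).1 (congrArg Subtype.val h)
  rw [← Subgroup.map_subtype_commutator] at h2
  obtain ⟨y, hy, e⟩ := h2
  rw [← Subtype.ext e]
  exact Abelianization.commutator_subset_ker (AddMonoidHom.toMultiplicativeRight φ) hy

theorem val_quo (X : XSys G H) (hk : LabKit X) {φ : Additive X.ρ.ker →+ ℚ}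
    {φ' : Additive (quo X hk).ρ.ker →+ ℚ}
    (h : ∀ k, φ' (Additive.ofMul (qk X hk k)) = φ (Additive.ofMul k)) (g : G) :
    (quo X hk).val φ' (QuotientGroup.mk' _ g) = X.val φ g := by
  refine Prod.ext ?_ ?_
  · refine Eq.trans ?_ (h ⟨_, X.T3_mem g⟩)
    rfl
  · refine Eq.trans ?_ (h ⟨_, X.T5_mem g⟩)
    rfl

theorem fam_quo (X : XSys G H) (hk : LabKit X) (a b : ℚ) (v : G ⧸ ⁅X.ρ.ker, X.ρ.ker⁆ → ℚ × ℚ)
    (hv : v ∈ (quo X hk).Fam a b) : v ∘ QuotientGroup.mk' _ ∈ X.Fam a b := by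
  rcases hv with ⟨p, q, r, e, I, rfl⟩ | ⟨A, c, d, h, rfl⟩ | rfl
  · exact Or.inl ⟨p, q, r, e, I, rfl⟩
  · exact Or.inr (Or.inl ⟨A, c, d, h, rfl⟩)
  · exact Or.inr (Or.inr rfl)

theorem upper_any {n₀ : ℕ} (hU : Upper n₀) (X : XSys G H) (hk : LabKit X) (hn : n₀ ≤ X.N)
    {a b : ℚ} (hab : 10 * a ≠ 3 * b) (hF : ∀ v ∈ X.Fam a b, ∃ φ, X.val φ = v)
    (ψ : Additive X.ρ.ker →+ ℚ) (k : Additive X.ρ.ker)
    (h : ∀ φ, X.val φ ∈ X.Fam a b → φ k = 0) : ψ k = 0 := by
  have hc : ∀ a ∈ (quo X hk).ρ.ker, ∀ b ∈ (quo X hk).ρ.ker, a * b = b * a := by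
    intro a ha b hb
    obtain ⟨x, rfl⟩ := QuotientGroup.mk'_surjective _ a
    obtain ⟨y, rfl⟩ := QuotientGroup.mk'_surjective _ b
    rw [← commutatorElement_eq_one_iff_mul_comm, ← map_commutatorElement]
    exact (QuotientGroup.eq_one_iff _).2 (Subgroup.commutator_mem_commutator ha hb)
  obtain ⟨n, hn0, hkn⟩ := hU _ _ (quo X hk) hn hc a b hab (fun v hv => by
    obtain ⟨φ, hφ⟩ := hF _ (fam_quo X hk a b v hv)
    obtain ⟨φ', h'⟩ := exists_desc _ (qk_surj X hk) φ (kill_comm X hk φ)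
    refine ⟨φ', funext fun x => ?_⟩
    obtain ⟨y, rfl⟩ := QuotientGroup.mk'_surjective _ x
    rw [val_quo X hk h', hφ]; rfl) (qk X hk (Additive.toMul k)) (fun φ' hφ' => by
    refine h (φ'.comp (MonoidHom.toAdditive (qk X hk))) ?_
    have := fam_quo X hk a b _ hφ'
    rwa [show (quo X hk).val φ' ∘ QuotientGroup.mk' _ =
      X.val (φ'.comp (MonoidHom.toAdditive (qk X hk))) from
        funext fun g => val_quo X hk (fun _ => rfl) g] at this)
  have h1 := kill_comm X hk ψ (Additive.toMul k ^ n) (by rw [map_pow, hkn])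
  rw [ofMul_pow, map_nsmul, nsmul_eq_mul] at h1
  exact (mul_eq_zero.1 h1).resolve_left (by exact_mod_cast hn0.ne')

end quot

theorem swap_bf (N : ℕ) : IsBF (fun i : ℕ => Equiv.swap i (i + 1)) N := by
  refine ⟨fun i _ => ?_, fun i j hij _ => ?_⟩
  · ext x
    simp only [Equiv.Perm.mul_apply, Equiv.swap_apply_def]
    split_ifs <;> omega
  · ext x
    simp only [Equiv.Perm.mul_apply, Equiv.swap_apply_def]
    split_ifs <;> omega

variable {g : ℕ}

theorem piB_sg {i : ℕ} (hi : i < 2 * g) : piB g (sg (2 * g) i) = tt g (i + 1) := brLift_sg _ _ hi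

/-- The action as endomorphisms. -/
def rho0 (ρ : HypMCG g →* (Hom1 g ≃ₗ[ℤ] Hom1 g)) : HypMCG g →* Module.End ℤ (Hom1 g) :=
  LinearEquiv.automorphismGroup.toLinearMapMonoidHom.comp ρ

theorem rho0_ker (ρ : HypMCG g →* (Hom1 g ≃ₗ[ℤ] Hom1 g)) (x : HypMCG g) :
    x ∈ (rho0 ρ).ker ↔ x ∈ ρ.ker :=
  ⟨fun h => LinearEquiv.ext fun y => LinearMap.congr_fun h y, fun h => by
    simp only [rho0, MonoidHom.mem_ker, MonoidHom.comp_apply, MonoidHom.mem_ker.1 h, map_one]⟩

theorem rho0_tt {ρ : HypMCG g →* (Hom1 g ≃ₗ[ℤ] Hom1 g)} (hρ : IsHomologyAction g ρ) (i : ℕ)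
    (hi : i < 2 * g + 1) (x : Hom1 g) :
    rho0 ρ (tt g i) x = x + om g x (chain g i) • chain g i := by
  rw [show tt g i = _ from tt_of ⟨i, hi⟩]; exact hρ ⟨i, hi⟩ x

/-- The braid system. -/
def XB (hg : 3 ≤ g) {ρ : HypMCG g →* (Hom1 g ≃ₗ[ℤ] Hom1 g)} (hρ : IsHomologyAction g ρ) :
    XSys (Br (2 * g)) (Hom1 g) where
  N := 2 * g
  σ := sg (2 * g)
  c i := chain g (i + 1)
  ω := om g
  ρ := (rho0 ρ).comp (piB g)
  pt := pt g
  bf := sg_bf _
  alt := om_self
  ch1 i hi := om_ch1 hi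
  ch2 i j hij _ := om_ch2 (by omega)
  ρσ i hi x := by rw [MonoidHom.comp_apply, piB_sg hi]; exact rho0_tt hρ _ (by omega) x
  pt_c i hi := pt_c hi
  hN := even_two_mul g
  h6 := by omega
  top := br_top
  Ltop := mem_of_chain _ fun i hi => Submodule.subset_span ⟨i, hi, rfl⟩
  perm := brLift _ (swap_bf _)
  lab := labR.br _
  perm_σ i hi := brLift_sg _ _ hi
  lab_σ i hi := labR.br_sg hi

variable (hg : 3 ≤ g) {ρ : HypMCG g →* (Hom1 g ≃ₗ[ℤ] Hom1 g)} (hρ : IsHomologyAction g ρ)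

/-- The map between the kernels. -/
def pk : (XB hg hρ).ρ.ker →* ρ.ker :=
  ((piB g).comp (XB hg hρ).ρ.ker.subtype).codRestrict _ fun x => (rho0_ker ρ _).1 x.2

theorem pk_surj : Function.Surjective (pk hg hρ) := by
  rintro ⟨k, hk⟩
  have htop : ∀ x, x ∈ BB (tt g) (2 * g + 1) := fun x =>
    PresentedGroup.generated_by _ (BB (tt g) (2 * g + 1))
      (fun i => by rw [← tt_of]; exact mem_BB i.2) x
  have h1 := ker_le hg (tt g) (tt_BH g) (rho0 ρ) (rho0_tt hρ) htop ((rho0_ker ρ k).2 hk)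
  have h2 : BB (fun i => tt g (i + 1)) (2 * g) ≤ (piB g).range := by
    refine (Subgroup.closure_le _).2 ?_
    rintro x ⟨i, hi, rfl⟩
    exact ⟨_, piB_sg hi⟩
  obtain ⟨β, rfl⟩ := h2 h1
  exact ⟨⟨β, (rho0_ker ρ _).2 hk⟩, rfl⟩

theorem ker_of {β : Br (2 * g)} (h : piB g β = 1) : β ∈ (XB hg hρ).ρ.ker := by
  change rho0 ρ (piB g β) = 1
  rw [h, map_one]

/-- The class is compatible with the passage to the closed surface. -/
def Good (φ : Additive (XB hg hρ).ρ.ker →+ ℚ) : Prop :=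
  ∀ k k' : (XB hg hρ).ρ.ker, pk hg hρ k = 1 → pk hg hρ k' = 1 →
    Art (2 * g) k FreeGroup.of = Art (2 * g) k' FreeGroup.of →
      φ (Additive.ofMul k) = φ (Additive.ofMul k')

theorem descend (hD : SDesc) (hI : Function.Injective (XB hg hρ).val)
    (F : Set (Br (2 * g) → ℚ × ℚ)) (hF : ∀ v ∈ F, ∃ φ, Good hg hρ φ ∧ (XB hg hρ).val φ = v)
    (hfin : Module.Finite ℚ (Submodule.span ℚ F))
    (hall : ∀ ψ, (XB hg hρ).val ψ ∈ Submodule.span ℚ F) :
    Module.finrank ℚ (Additive ρ.ker →+ ℚ) + 1 = Module.finrank ℚ (Submodule.span ℚ F) := by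
  have hr : LinearMap.range (valL (XB hg hρ)) = Submodule.span ℚ F := by
    refine le_antisymm ?_ (Submodule.span_le.2 fun v hv => ?_)
    · rintro _ ⟨ψ, rfl⟩; exact hall ψ
    · obtain ⟨φ, -, h⟩ := hF v hv; exact ⟨φ, h⟩
  have e := LinearEquiv.ofInjective (valL (XB hg hρ)) hI
  rw [hr] at e
  have : Module.Finite ℚ (Additive (XB hg hρ).ρ.ker →+ ℚ) := Module.Finite.equiv e.symm
  have hgood : ∀ ψ, Good hg hρ ψ := by
    intro ψ k k' h1 h2 h3
    let P : Submodule ℚ (Additive (XB hg hρ).ρ.ker →+ ℚ) :=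
      { carrier := {φ | φ (Additive.ofMul k) = φ (Additive.ofMul k')}
        add_mem' := fun {a b} ha hb => by
          have ha' : a _ = a _ := ha
          have hb' : b _ = b _ := hb
          change a _ + b _ = a _ + b _
          rw [ha', hb']
        zero_mem' := rfl
        smul_mem' := fun c a ha => by
          have ha' : a _ = a _ := ha
          change c • a _ = c • a _
          rw [ha'] }
    have hle : Submodule.span ℚ F ≤ P.map (valL (XB hg hρ)) := Submodule.span_le.2 fun v hv => by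
      obtain ⟨φ, h, h'⟩ := hF v hv
      exact ⟨φ, h k k' h1 h2 h3, h'⟩
    obtain ⟨φ, hφ, h⟩ := hle (hall ψ)
    rw [← hI h]; exact hφ
  let D : (XB hg hρ).ρ.ker := ⟨Del4 (2 * g), ker_of hg hρ (hD g).1⟩
  let ev : (Additive (XB hg hρ).ρ.ker →+ ℚ) →ₗ[ℚ] ℚ :=
    { toFun := fun φ => φ (Additive.ofMul D), map_add' := fun _ _ => rfl, map_smul' := fun _ _ => rfl }
  let pull : (Additive ρ.ker →+ ℚ) →ₗ[ℚ] (Additive (XB hg hρ).ρ.ker →+ ℚ) :=
    { toFun := fun φ => φ.comp (MonoidHom.toAdditive (pk hg hρ))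
      map_add' := fun _ _ => rfl, map_smul' := fun _ _ => rfl }
  have hD1 : pk hg hρ D = 1 := Subtype.ext (hD g).1
  have hinj : Function.Injective pull := fun a b h => AddMonoidHom.ext fun x => by
    obtain ⟨k, hk⟩ := pk_surj hg hρ (Additive.toMul x)
    have := DFunLike.congr_fun h (Additive.ofMul k)
    change a (Additive.ofMul (pk hg hρ k)) = b (Additive.ofMul (pk hg hρ k)) at this
    rw [hk] at this
    exact this
  have hrange : LinearMap.range pull = LinearMap.ker ev := by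
    refine le_antisymm ?_ fun φ hφ => ?_
    · rintro _ ⟨φ, rfl⟩
      change φ (Additive.ofMul (pk hg hρ D)) = 0
      rw [hD1]; exact map_zero φ
    · have h0 : φ (Additive.ofMul D) = 0 := hφ
      obtain ⟨φ', h'⟩ := exists_desc _ (pk_surj hg hρ) φ fun k hk => by
        obtain ⟨m, hm⟩ := (hD g).2 k (congrArg Subtype.val hk)
        have := hgood φ (k ^ 2) (D ^ m) (by rw [map_pow, hk, one_pow])
          (by rw [map_zpow, hD1, one_zpow]) hm
        rw [ofMul_pow, ofMul_zpow, map_nsmul, map_zsmul, h0, smul_zero, two_nsmul] at this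
        linarith
      exact ⟨φ', AddMonoidHom.ext fun k => h' (Additive.toMul k)⟩
  have hsurj : LinearMap.range ev = ⊤ := by
    have hb : IsBF (fun _ : ℕ => Multiplicative.ofAdd (1 : ℚ)) (2 * g) :=
      ⟨fun _ _ => rfl, fun _ _ _ _ => rfl⟩
    have hup : ∀ k, k ≤ 2 * g → brLift _ hb (up (sg (2 * g)) k) = Multiplicative.ofAdd (k : ℚ) := by
      intro k hk
      induction k with
      | zero => exact map_one _
      | succ k ih =>
        rw [up, map_mul, ih (by omega), brLift_sg _ _ (by omega), ← ofAdd_add]; push_cast; rfl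
    let l : Additive (XB hg hρ).ρ.ker →+ ℚ :=
      MonoidHom.toAdditiveLeft ((brLift _ hb).comp (XB hg hρ).ρ.ker.subtype)
    have hl : ev l ≠ 0 := by
      change Multiplicative.toAdd (brLift _ hb (Del4 (2 * g))) ≠ 0
      rw [Del4, map_pow, hup _ le_rfl, toAdd_pow, toAdd_ofAdd, nsmul_eq_mul]
      have : (0 : ℚ) < g := by exact_mod_cast (show 0 < g by omega)
      positivity
    refine eq_top_iff.2 fun t _ => ⟨(t / ev l) • l, ?_⟩
    rw [map_smul, smul_eq_mul, div_mul_cancel₀ _ hl]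
  have h1 := LinearMap.finrank_range_add_finrank_ker ev
  rw [hsurj, finrank_top, Module.finrank_self, ← hrange, LinearMap.finrank_range_of_inj hinj,
    e.finrank_eq] at h1
  omega

theorem exists_s (hM : SMey) : ∃ a b : ℚ, 10 * a ≠ 3 * b ∧
    ∃ φ, Good hg hρ φ ∧ (XB hg hρ).val φ = fun _ => (a, b) := by
  obtain ⟨s, a, b, hab, h3, h5⟩ := hM g hg ρ hρ
  refine ⟨a, b, hab, s.comp (MonoidHom.toAdditive (pk hg hρ)), fun k k' h h' _ => ?_,
    funext fun γ => Prod.ext ?_ ?_⟩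
  · change s (Additive.ofMul (pk hg hρ k)) = s (Additive.ofMul (pk hg hρ k'))
    rw [h, h']
  · have e : piB g (γ * T3 (sg (2 * g)) * γ⁻¹) =
        piB g γ * T3 (fun i => tt g (i + 1)) * (piB g γ)⁻¹ := by
      simp only [T3, map_mul, map_inv, map_pow, piB_sg (show 0 < 2 * g by omega),
        piB_sg (show 1 < 2 * g by omega)]
    have hm := (pk hg hρ ⟨_, (XB hg hρ).T3_mem γ⟩).2
    refine Eq.trans ?_ (h3 (piB g γ) (e ▸ hm))
    exact congrArg (fun x => s (Additive.ofMul x)) (Subtype.ext e)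
  · have e : piB g (γ * T5 (sg (2 * g)) * γ⁻¹) =
        piB g γ * T5 (fun i => tt g (i + 1)) * (piB g γ)⁻¹ := by
      simp only [T5, map_mul, map_inv, map_pow, piB_sg (show 0 < 2 * g by omega),
        piB_sg (show 1 < 2 * g by omega), piB_sg (show 2 < 2 * g by omega),
        piB_sg (show 3 < 2 * g by omega)]
    have hm := (pk hg hρ ⟨_, (XB hg hρ).T5_mem γ⟩).2
    refine Eq.trans ?_ (h5 (piB g γ) (e ▸ hm))
    exact congrArg (fun x => s (Additive.ofMul x)) (Subtype.ext e)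

end GlueA

open GlueA in
theorem glue {n₀ g₀ : ℕ} (h3 : 3 ≤ g₀) (hn : n₀ ≤ 2 * g₀) (hU : Upper n₀) (h4 : SH4) (hL : SHL)
    (hM : SMey) (hD : SDesc) (hk : SLab) (hS : SSpan) (hI : SIndep) (hC : SCard) (hd : SDual) :
    Final g₀ := by
  intro g hg0 ρ hρ
  have hg : 3 ≤ g := h3.trans hg0
  obtain ⟨a, b, hab, hs⟩ := exists_s hg hρ hM
  have kit := hk _ _ (XB hg hρ)
  have hF : ∀ v ∈ (XB hg hρ).Fam a b, ∃ φ, Good hg hρ φ ∧ (XB hg hρ).val φ = v := by
    rintro v (⟨p, q, r, e, I, rfl⟩ | ⟨A, c, d, h, rfl⟩ | rfl)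
    · obtain ⟨φ, h1, h2⟩ := h4 _ _ (XB hg hρ) rfl rfl p q r e I
      exact ⟨φ, fun k k' _ _ h => h1 k k' h, h2⟩
    · obtain ⟨φ, h1, h2⟩ := hL _ _ (XB hg hρ) rfl rfl A c d h
      exact ⟨φ, fun k k' _ _ h => h1 k k' h, h2⟩
    · exact hs
  have hF' : ∀ v ∈ (XB hg hρ).Fam a b, ∃ φ, (XB hg hρ).val φ = v := fun v hv =>
    (hF v hv).imp fun _ h => h.2
  have hsp := hS _ _ (XB hg hρ) kit a b
  have hfin : Module.Finite ℚ (Submodule.span ℚ ((XB hg hρ).Fam a b)) := by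
    rw [hsp]; exact Module.Finite.span_of_finite ℚ (Set.finite_range _)
  have h1 := descend hg hρ hD (hd _ _ _).1 _ hF hfin fun ψ =>
    (hd _ _ _).2 _ hF' hfin ψ fun k h =>
      upper_any hU _ kit (hn.trans (Nat.mul_le_mul_left 2 hg0)) hab hF' ψ k h
  rw [hsp, finrank_span_eq_card (hI _ _ _ kit a b hab)] at h1
  have h2 := hC g hg
  have h5 : Fintype.card (Ix (XB hg hρ).N) = Fintype.card (Ix (2 * g)) := rfl
  omega

end Pool.Agent.MP_00906f_gt.H33E
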