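import Pool.Agent.MP_00906f_gt.H33E.Spec

/-! The Johnson type classes. -/

namespace Pool.Agent.MP_00906f_gt.H33E

open H46 H46.FinAux

namespace H4A

/-- Upper triangular matrices of size four with diagonal `1, e, 1, e`, with a second copy `n` of
the entry `a`. -/
structure P where
  e : ℚ
  a : ℚ
  b : ℚ
  c : ℚ
  n : ℚ
  l : ℚ
  m : ℚ
  z : ℚ
  he : e * e = 1

theorem P.ext' {x y : P} (h1 : x.e = y.e) (h2 : x.a = y.a) (h3 : x.b = y.b) (h4 : x.c = y.c)
    (h5 : x.n = y.n) (h6 : x.l = y.l) (h7 : x.m = y.m) (h8 : x.z = y.z) : x = y := by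
  cases x; cases y; simp_all

instance : Mul P := ⟨fun x y => ⟨x.e * y.e, y.a + x.a * y.e, x.e * y.b + x.b, y.c + x.c * y.e,
  y.n + x.n * y.e, y.l + x.a * y.b + x.l, x.e * y.m + x.b * y.c + x.m * y.e,
  y.z + x.a * y.m + x.l * y.c + x.z * y.e, by
    linear_combination (y.e * y.e) * x.he + y.he⟩⟩

instance : One P := ⟨⟨1, 0, 0, 0, 0, 0, 0, 0, by norm_num⟩⟩

instance : Inv P := ⟨fun x => ⟨x.e, -x.a * x.e, -x.e * x.b, -x.c * x.e, -x.n * x.e,
  x.a * x.e * x.b - x.l, x.b * x.c - x.m,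
  -x.a * (x.b * x.c - x.m) + x.l * x.c * x.e - x.z * x.e, x.he⟩⟩

section Coord

variable (x y : P)

theorem mul_e : (x * y).e = x.e * y.e := rfl
theorem mul_a : (x * y).a = y.a + x.a * y.e := rfl
theorem mul_b : (x * y).b = x.e * y.b + x.b := rfl
theorem mul_c : (x * y).c = y.c + x.c * y.e := rfl
theorem mul_n : (x * y).n = y.n + x.n * y.e := rfl
theorem mul_l : (x * y).l = y.l + x.a * y.b + x.l := rfl
theorem mul_m : (x * y).m = x.e * y.m + x.b * y.c + x.m * y.e := rfl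
theorem mul_z : (x * y).z = y.z + x.a * y.m + x.l * y.c + x.z * y.e := rfl
theorem one_e : (1 : P).e = 1 := rfl
theorem one_a : (1 : P).a = 0 := rfl
theorem one_b : (1 : P).b = 0 := rfl
theorem one_c : (1 : P).c = 0 := rfl
theorem one_n : (1 : P).n = 0 := rfl
theorem one_l : (1 : P).l = 0 := rfl
theorem one_m : (1 : P).m = 0 := rfl
theorem one_z : (1 : P).z = 0 := rfl
theorem inv_e : x⁻¹.e = x.e := rfl
theorem inv_a : x⁻¹.a = -x.a * x.e := rfl
theorem inv_b : x⁻¹.b = -x.e * x.b := rfl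
theorem inv_c : x⁻¹.c = -x.c * x.e := rfl
theorem inv_n : x⁻¹.n = -x.n * x.e := rfl
theorem inv_l : x⁻¹.l = x.a * x.e * x.b - x.l := rfl
theorem inv_m : x⁻¹.m = x.b * x.c - x.m := rfl
theorem inv_z : x⁻¹.z = -x.a * (x.b * x.c - x.m) + x.l * x.c * x.e - x.z * x.e := rfl

end Coord

instance : Group P := Group.ofLeftAxioms
  (fun x y z => by
    apply P.ext' <;> simp only [mul_e, mul_a, mul_b, mul_c, mul_n, mul_l, mul_m, mul_z] <;> ring)
  (fun x => by
    apply P.ext' <;> simp only [mul_e, mul_a, mul_b, mul_c, mul_n, mul_l, mul_m, mul_z, one_e,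
      one_a, one_b, one_c, one_n, one_l, one_m, one_z] <;> ring)
  (fun x => by
    rcases mul_self_eq_one_iff.1 x.he with h | h <;> apply P.ext' <;>
      simp only [mul_e, mul_a, mul_b, mul_c, mul_n, mul_l, mul_m, mul_z, one_e,
        one_a, one_b, one_c, one_n, one_l, one_m, one_z, inv_e, inv_a, inv_b, inv_c, inv_n, inv_l,
        inv_m, inv_z, h] <;> ring)

/-- Agreement outside the corner entry. -/
def Sim (x y : P) : Prop :=
  x.e = y.e ∧ x.a = y.a ∧ x.b = y.b ∧ x.c = y.c ∧ x.n = y.n ∧ x.l = y.l ∧ x.m = y.m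

theorem Sim.refl (x : P) : Sim x x := ⟨rfl, rfl, rfl, rfl, rfl, rfl, rfl⟩

theorem Sim.symm {x y : P} (h : Sim x y) : Sim y x := by
  obtain ⟨h1, h2, h3, h4, h5, h6, h7⟩ := h
  exact ⟨h1.symm, h2.symm, h3.symm, h4.symm, h5.symm, h6.symm, h7.symm⟩

theorem Sim.trans {x y z : P} (h : Sim x y) (h' : Sim y z) : Sim x z := by
  obtain ⟨h1, h2, h3, h4, h5, h6, h7⟩ := h
  obtain ⟨g1, g2, g3, g4, g5, g6, g7⟩ := h'
  exact ⟨h1.trans g1, h2.trans g2, h3.trans g3, h4.trans g4, h5.trans g5, h6.trans g6, h7.trans g7⟩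

theorem Sim.mul {x x' y y' : P} (h : Sim x x') (h' : Sim y y') : Sim (x * y) (x' * y') := by
  obtain ⟨h1, h2, h3, h4, h5, h6, h7⟩ := h
  obtain ⟨g1, g2, g3, g4, g5, g6, g7⟩ := h'
  simp only [Sim, mul_e, mul_a, mul_b, mul_c, mul_n, mul_l, mul_m, *, and_self]

theorem Sim.inv {x x' : P} (h : Sim x x') : Sim x⁻¹ x'⁻¹ := by
  obtain ⟨h1, h2, h3, h4, h5, h6, h7⟩ := h
  simp only [Sim, inv_e, inv_a, inv_b, inv_c, inv_n, inv_l, inv_m, *, and_self]

theorem Sim.up {y y' : ℕ → P} (h : ∀ j, Sim (y j) (y' j)) (k : ℕ) : Sim (up y k) (up y' k) := by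
  induction k with
  | zero => exact Sim.refl _
  | succ k ih => exact ih.mul (h k)

theorem conj_e (x y : P) : (x * y * x⁻¹).e = y.e := by
  rw [mul_e, mul_e, inv_e]; linear_combination y.e * x.he

/-- The first class function. -/
def Ic (x : P) : ℚ := 2 * x.l + x.a * x.b

/-- The second class function. -/
def Jc (x : P) : ℚ := -2 * x.m + x.b * x.c

section Conj

variable {x y : P} (hx : x.e = -1) (hy : y.e = -1)
include hx hy

theorem conj_a : (x * y * x⁻¹).a = 2 * x.a - y.a := by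
  simp only [mul_a, inv_e, inv_a, hx, hy]; ring

theorem conj_b : (x * y * x⁻¹).b = 2 * x.b - y.b := by
  simp only [mul_e, mul_b, inv_b, hx, hy]; ring

theorem conj_c : (x * y * x⁻¹).c = 2 * x.c - y.c := by
  simp only [mul_c, inv_e, inv_c, hx, hy]; ring

theorem conj_n : (x * y * x⁻¹).n = 2 * x.n - y.n := by
  simp only [mul_n, inv_e, inv_n, hx, hy]; ring

theorem conj_I : Ic (x * y * x⁻¹) = Ic y := by
  simp only [Ic, mul_e, mul_a, mul_b, mul_l, inv_e, inv_a, inv_b, inv_l, hx, hy]; ring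

theorem conj_J : Jc (x * y * x⁻¹) = Jc y := by
  simp only [Jc, mul_e, mul_b, mul_c, mul_m, inv_e, inv_b, inv_c, inv_m, hx, hy]; ring

theorem conj_z {x' y' : P} (h : Sim x x') (h' : Sim y y') :
    (x' * y' * x'⁻¹).z - (x * y * x⁻¹).z = 2 * (x'.z - x.z) - (y'.z - y.z) := by
  obtain ⟨h1, h2, h3, h4, h5, h6, h7⟩ := h
  obtain ⟨g1, g2, g3, g4, g5, g6, g7⟩ := h'
  simp only [mul_a, mul_l, mul_z, inv_e, inv_c, inv_m, inv_z, ← h1, ← h2, ← h3, ← h4, ← h6,
    ← h7, ← g1, ← g2, ← g3, ← g4, ← g6, ← g7, hx, hy]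
  ring

theorem sq_sim : Sim y (x ^ 2 * y * (x ^ 2)⁻¹) := by
  simp only [Sim, sq, mul_e, mul_a, mul_b, mul_c, mul_n, mul_l, mul_m, inv_e, inv_a, inv_b, inv_c,
    inv_n, inv_l, inv_m, hx, hy]
  refine ⟨?_, ?_, ?_, ?_, ?_, ?_, ?_⟩ <;> ring

theorem sq_z : (x ^ 2 * y * (x ^ 2)⁻¹).z - y.z =
    Ic x * y.c - Jc x * y.a - (Ic x * x.c - Jc x * x.a) := by
  simp only [Ic, Jc, sq, mul_e, mul_a, mul_b, mul_c, mul_l, mul_m, mul_z, inv_e, inv_c, inv_m,
    inv_z, hx, hy]
  ring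

end Conj

/-- The alternating sum. -/
def al (f : ℕ → ℚ) : ℕ → ℚ
  | 0 => 0
  | k + 1 => f k - al f k

/-- The invariant alternating form. -/
def bf (f h : ℕ → ℚ) : ℕ → ℚ
  | 0 => 0
  | k + 1 => bf f h k + (al f k * h k - f k * al h k)

/-- The move on tuples of reflections of the line. -/
def mv (i : ℕ) (f : ℕ → ℚ) (j : ℕ) : ℚ :=
  if j = i then 2 * f i - f (i + 1) else if j = i + 1 then f i else f j

theorem al_congr {f f' : ℕ → ℚ} {k : ℕ} (h : ∀ j, j < k → f j = f' j) : al f k = al f' k := by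
  induction k with
  | zero => rfl
  | succ k ih => rw [al, al, ih fun j hj => h j (by omega), h k (by omega)]

theorem bf_congr {f f' g g' : ℕ → ℚ} {k : ℕ} (h : ∀ j, j < k → f j = f' j)
    (h' : ∀ j, j < k → g j = g' j) : bf f g k = bf f' g' k := by
  induction k with
  | zero => rfl
  | succ k ih =>
    rw [bf, bf, ih (fun j hj => h j (by omega)) (fun j hj => h' j (by omega)), h k (by omega),
      h' k (by omega), al_congr fun j hj => h j (by omega), al_congr fun j hj => h' j (by omega)]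

theorem mv_lo {i j : ℕ} (h : j < i) (f : ℕ → ℚ) : mv i f j = f j := by
  rw [mv, if_neg (by omega), if_neg (by omega)]

theorem mv_hi {i j : ℕ} (h : i + 1 < j) (f : ℕ → ℚ) : mv i f j = f j := by
  rw [mv, if_neg (by omega), if_neg (by omega)]

theorem mv_self (i : ℕ) (f : ℕ → ℚ) : mv i f i = 2 * f i - f (i + 1) := by rw [mv, if_pos rfl]

theorem mv_succ (i : ℕ) (f : ℕ → ℚ) : mv i f (i + 1) = f i := by
  rw [mv, if_neg (by omega), if_pos rfl]

theorem al_mv {i k : ℕ} (h : i + 2 ≤ k) (f : ℕ → ℚ) : al (mv i f) k = al f k := by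
  induction k, h using Nat.le_induction with
  | base =>
    rw [al, al, al, al, al_congr (f' := f) fun j hj => mv_lo hj f, mv_self, mv_succ]; ring
  | succ k hk ih => rw [al, al, ih, mv_hi (by omega)]

theorem bf_mv {i k : ℕ} (h : i + 2 ≤ k) (f g : ℕ → ℚ) : bf (mv i f) (mv i g) k = bf f g k := by
  induction k, h using Nat.le_induction with
  | base =>
    simp only [bf, al]
    rw [al_congr (f' := f) fun j hj => mv_lo hj f, al_congr (f' := g) fun j hj => mv_lo hj g,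
      bf_congr (f' := f) (g' := g) (fun j hj => mv_lo hj f) fun j hj => mv_lo hj g,
      mv_self, mv_succ, mv_self, mv_succ]
    ring
  | succ k hk ih => rw [bf, bf, ih, mv_hi (by omega), mv_hi (by omega), al_mv hk, al_mv hk]

theorem al_lin (s t : ℚ) (f f' : ℕ → ℚ) (k : ℕ) :
    al (fun j => s * f j + t * f' j) k = s * al f k + t * al f' k := by
  induction k with
  | zero => simp [al]
  | succ k ih => rw [al, al, al, ih]; ring

theorem bf_lin (s t : ℚ) (f f' g : ℕ → ℚ) (k : ℕ) :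
    bf (fun j => s * f j + t * f' j) g k = s * bf f g k + t * bf f' g k := by
  induction k with
  | zero => simp [bf]
  | succ k ih => rw [bf, bf, bf, ih, al_lin]; ring

theorem bf_stop {f : ℕ → ℚ} (g : ℕ → ℚ) {k m : ℕ} (hk : k ≤ m) (h0 : al f k = 0)
    (h : ∀ j, k ≤ j → f j = 0) : al f m = 0 ∧ bf f g m = bf f g k := by
  induction m, hk using Nat.le_induction with
  | base => exact ⟨h0, rfl⟩
  | succ m hm ih => rw [al, bf, ih.1, ih.2, h m hm]; simp

theorem mv_diff (i j : ℕ) (f : ℕ → ℚ) : mv i f j - mv i f (j + 1) = f j - f (j + 1) +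
    (f i - f (i + 1)) * ((if j = i + 1 then 1 else 0) - if i = j + 1 then 1 else 0) := by
  rcases (by omega : j + 1 < i ∨ j + 1 = i ∨ j = i ∨ j = i + 1 ∨ i + 1 < j) with h | h | h | h | h
  · rw [mv_lo (by omega), mv_lo h, if_neg (by omega), if_neg (by omega)]; ring
  · subst h; rw [mv_lo (by omega), mv_self, if_neg (by omega), if_pos rfl]; ring
  · subst h; rw [mv_self, mv_succ, if_neg (by omega)]; ring
  · subst h; rw [mv_succ, mv_hi (by omega), if_pos rfl, if_neg (by omega)]; ring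
  · rw [mv_hi h, mv_hi (by omega), if_neg (by omega), if_neg (by omega)]; ring

/-- All entries are reflections. -/
def EE (y : ℕ → P) : Prop := ∀ j, (y j).e = -1

theorem hur_all (S : P → P → Prop)
    (hS : ∀ x x' y y', S x x' → (S y y' ↔ S (x * y * x⁻¹) (x' * y' * x'⁻¹))) (i : ℕ)
    (y y' : ℕ → P) :
    (∀ j, S (y j) (y' j)) ↔ ∀ j, S ((conjR P).hur i y j) ((conjR P).hur i y' j) := by
  refine ⟨fun h j => ?_, fun h j => ?_⟩
  · rw [Rk.hur_apply, Rk.hur_apply]
    split_ifs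
    · exact (hS _ _ _ _ (h i)).1 (h (i + 1))
    · exact h i
    · exact h j
  · have h1 := h (i + 1)
    rw [Rk.hur_succ, Rk.hur_succ] at h1
    by_cases a : j = i
    · rw [a]; exact h1
    · by_cases b : j = i + 1
      · have h2 := h i
        rw [Rk.hur_self, Rk.hur_self] at h2
        rw [b]; exact (hS _ _ _ _ h1).2 h2
      · have h2 := h j
        rwa [Rk.hur_apply, Rk.hur_apply, if_neg a, if_neg b, if_neg a, if_neg b] at h2

theorem EE_hur (i : ℕ) (y : ℕ → P) : EE y ↔ EE ((conjR P).hur i y) :=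
  hur_all (fun x _ => x.e = -1) (fun x _ y _ _ => by rw [conj_e]) i y y

theorem Sim_hur (i : ℕ) (y y' : ℕ → P) :
    (∀ j, Sim (y j) (y' j)) ↔ ∀ j, Sim ((conjR P).hur i y j) ((conjR P).hur i y' j) :=
  hur_all Sim (fun x x' y y' h => ⟨fun h' => (h.mul h').mul h.inv, fun h' => by
    have := (h.inv.mul h').mul h
    simpa [mul_assoc] using this⟩) i y y'

theorem hur_mv (f : P → ℚ) (hf : ∀ x y, x.e = -1 → y.e = -1 → f (x * y * x⁻¹) = 2 * f x - f y)
    {y : ℕ → P} (hy : EE y) (i : ℕ) :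
    (fun j => f ((conjR P).hur i y j)) = mv i fun j => f (y j) := by
  funext j
  rw [Rk.hur_apply, mv]
  split_ifs
  · exact hf _ _ (hy _) (hy _)
  · rfl
  · rfl

/-- The displacement relation. -/
def rr (N : ℕ) (y y' : ℕ → P) (t : ℚ) : Prop :=
  EE y ∧ (∀ j, Sim (y j) (y' j)) ∧
    t = bf (fun j => (y' j).z - (y j).z) (fun j => (y j).n) (N + 1)

theorem rr_hur {N i : ℕ} (hi : i < N) (y y' : ℕ → P) (t : ℚ) :
    rr N y y' t ↔ rr N ((conjR P).hur i y) ((conjR P).hur i y') t := by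
  rw [rr, rr, ← EE_hur, ← Sim_hur]
  refine and_congr_right fun hE => and_congr_right fun hS => ?_
  have h1 : (fun j => ((conjR P).hur i y' j).z - ((conjR P).hur i y j).z) =
      mv i fun j => (y' j).z - (y j).z := by
    funext j
    rw [Rk.hur_apply, Rk.hur_apply, mv]
    split_ifs
    · exact conj_z (hE _) (hE _) (hS _) (hS _)
    · rfl
    · rfl
  rw [h1, hur_mv P.n (fun _ _ => conj_n) hE, bf_mv (by omega)]

/-- The displacement caused by the squared full twist of the first `k` strands. -/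
def vv (k : ℕ) (y : ℕ → P) : ℚ :=
  bf (fun j => Ic (up y k) * (y j).c - Jc (up y k) * (y j).a -
    (Ic (up y k) * (up y k).c - Jc (up y k) * (up y k).a)) (fun j => (y j).n) k

theorem vv_sim (k : ℕ) {y y' : ℕ → P} (h : ∀ j, Sim (y j) (y' j)) : vv k y = vv k y' := by
  obtain ⟨-, h2, h3, h4, -, h6, h7⟩ := Sim.up h k
  unfold vv Ic Jc
  rw [h2, h3, h4, h6, h7]
  exact bf_congr (fun j _ => by rw [(h j).2.1, (h j).2.2.2.1]) fun j _ => (h j).2.2.2.2.1

theorem rr_gen {N k : ℕ} (hk : k = 2 ∨ k = 4) (hN : k ≤ N) {y y' : ℕ → P} (hy : EE y)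
    (h : ∀ j, y' j = if j ≤ k then ((conjR P).pa y (k + 1) ^ 2) (y j) else y j) :
    rr N y y' (vv (k + 1) y) := by
  have hw : (up y (k + 1)).e = -1 := by
    rcases hk with rfl | rfl <;> simp only [up, mul_e, one_e, hy _] <;> norm_num
  have hz : ∀ j, j < k + 1 → (y' j).z - (y j).z = Ic (up y (k + 1)) * (y j).c -
      Jc (up y (k + 1)) * (y j).a - (Ic (up y (k + 1)) * (up y (k + 1)).c -
        Jc (up y (k + 1)) * (up y (k + 1)).a) := fun j hj => by
    rw [h, if_pos (by omega), pa_conj_sq, sq_z hw (hy j)]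
  refine ⟨hy, fun j => ?_, ?_⟩
  · rw [h]
    split_ifs
    · rw [pa_conj_sq]; exact sq_sim hw (hy j)
    · exact Sim.refl _
  · rw [(bf_stop (k := k + 1) _ (by omega) ?_ fun j hj => by rw [h, if_neg (by omega), sub_self]).2]
    · exact (bf_congr hz fun _ _ => rfl).symm
    · rw [al_congr hz]
      generalize Ic (up y (k + 1)) = L
      generalize Jc (up y (k + 1)) = M
      rcases hk with rfl | rfl <;>
        simp only [al, up, mul_a, mul_c, one_a, one_c, hy _] <;> ring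

theorem vv_eq {k : ℕ} (hk : k = 3 ∨ k = 5) {y : ℕ → P} (hy : EE y) :
    vv k y = (∑ j ∈ Finset.range k, Ic (y j) + bf (fun j => (y j).a) (fun j => (y j).b) k) *
        bf (fun j => (y j).c) (fun j => (y j).n) k -
      (∑ j ∈ Finset.range k, Jc (y j) + bf (fun j => (y j).b) (fun j => (y j).c) k) *
        bf (fun j => (y j).a) (fun j => (y j).n) k := by
  have h1 : Ic (up y k) =
      ∑ j ∈ Finset.range k, Ic (y j) + bf (fun j => (y j).a) (fun j => (y j).b) k := by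
    rcases hk with rfl | rfl <;>
      simp only [Ic, bf, al, up, mul_e, mul_a, mul_b, mul_l, one_e, one_a, one_b, one_l, hy _,
        Finset.sum_range_succ, Finset.sum_range_zero] <;> ring
  have h2 : Jc (up y k) =
      ∑ j ∈ Finset.range k, Jc (y j) + bf (fun j => (y j).b) (fun j => (y j).c) k := by
    rcases hk with rfl | rfl <;>
      simp only [Jc, bf, al, up, mul_e, mul_c, mul_b, mul_m, one_e, one_c, one_b, one_m, hy _,
        Finset.sum_range_succ, Finset.sum_range_zero] <;> ring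
  rw [← h1, ← h2, vv]
  generalize Ic (up y k) * (up y k).c - Jc (up y k) * (up y k).a = Z
  generalize Ic (up y k) = L
  generalize Jc (up y k) = M
  rcases hk with rfl | rfl <;> simp only [bf, al] <;> ring

theorem T3_ne {N : ℕ} (hN : 4 ≤ N) : T5 (sg N) ≠ T3 (sg N) := by
  intro h
  have hb : IsBF (fun _ : ℕ => Multiplicative.ofAdd (1 : ℤ)) N :=
    ⟨fun _ _ => rfl, fun _ _ _ _ => rfl⟩
  have := congrArg (brLift _ hb) h
  simp only [T3, T5, map_pow, map_mul] at this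
  rw [brLift_sg _ _ (by omega), brLift_sg _ _ (by omega), brLift_sg _ _ (by omega),
    brLift_sg _ _ (by omega)] at this
  have h2 := congrArg Multiplicative.toAdd this
  simp at h2

section Link

variable {N : ℕ} {H : Type} [AddCommGroup H] (X : XSys (Br N) H) (hN : X.N = N)
  (hσ : X.σ = sg N)
include hN hσ

theorem link_d (f : P → ℚ) (hf : ∀ x y, x.e = -1 → y.e = -1 → f (x * y * x⁻¹) = 2 * f x - f y)
    {y : ℕ → P} (hy : EE y) (p : H)
    (h0 : ∀ j, j < N → f (y j) - f (y (j + 1)) = (X.ω p (X.c j) : ℤ)) (g : Br N) :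
    EE ((conjR P).br N g⁻¹ y) ∧ ∀ j, j < N → f ((conjR P).br N g⁻¹ y j) -
      f ((conjR P).br N g⁻¹ y (j + 1)) = (X.ω p (X.ρ g (X.c j)) : ℤ) := by
  have key := (br_rel ((conjR P).br N) (MulAction.toPermHom (Br N) (Br N))
    (fun y h => EE y ∧ ∀ j, j < N → f (y j) - f (y (j + 1)) = (X.ω (X.ρ h p) (X.c j) : ℤ))
    (fun i hi y h => ?_) g⁻¹ y 1).1 ⟨hy, by simpa using h0⟩
  · refine ⟨key.1, fun j hj => ?_⟩
    rw [key.2 j hj, ← X.toSys.ρ_ω (X.top g)]
    simp only [MulAction.toPermHom_apply, MulAction.toPerm_apply, smul_eq_mul, mul_one]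
    rw [X.toSys.lat_ρ_ρ_inv]
  · rw [Rk.br_sg _ hi, ← EE_hur]
    refine and_congr_right fun hE => ?_
    have e1 : ∀ j, f ((conjR P).hur i y j) = mv i (fun j => f (y j)) j :=
      congrFun (hur_mv f hf hE i)
    have e2 : ∀ j, j < N → ((X.ω (X.ρ (MulAction.toPermHom (Br N) (Br N) (sg N i) h) p)
        (X.c j) : ℤ) : ℚ) = (X.ω (X.ρ h p) (X.c j) : ℤ) + (X.ω (X.ρ h p) (X.c i) : ℤ) *
          ((if j = i + 1 then 1 else 0) - if i = j + 1 then 1 else 0) := fun j hj => by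
      simp only [MulAction.toPermHom_apply, MulAction.toPerm_apply, smul_eq_mul]
      rw [X.toSys.lat_ρ_mul, ← hσ, X.ρσ i (by omega), map_add, map_smul, LinearMap.add_apply,
        LinearMap.smul_apply, X.toSys.lat_ωcc (by omega) (by omega)]
      push_cast
      simp
    simp only [e1, mv_diff]
    refine ⟨fun h j hj => by rw [e2 j hj, h j hj, h i hi], fun h j hj => ?_⟩
    have a1 := h i hi
    have a2 := h j hj
    rw [e2 i hi, if_neg (by omega)] at a1
    rw [e2 j hj, show f (y i) - f (y (i + 1)) = _ by simpa using a1] at a2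
    linarith

theorem link_c (f : P → ℚ) (hf : ∀ x y, x.e = -1 → y.e = -1 → f (x * y * x⁻¹) = f y)
    {y₀ : ℕ → P} (hy : EE y₀) (g : Br N) (j : ℕ) :
    f ((conjR P).br N g⁻¹ y₀ j) = f (y₀ (X.perm g j)) := by
  have key := (br_rel ((conjR P).br N) (MulAction.toPermHom (Br N) (Br N))
    (fun y h => EE y ∧ ∀ j, f (y j) = f (y₀ (X.perm h⁻¹ j)))
    (fun i hi y h => ?_) g⁻¹ y₀ 1).1 ⟨hy, by simp⟩
  · simpa using key.2 j
  · rw [Rk.br_sg _ hi, ← EE_hur]
    refine and_congr_right fun hE => ?_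
    have e1 : ∀ j, f ((conjR P).hur i y j) = f (y (Equiv.swap i (i + 1) j)) := fun j => by
      rw [Rk.hur_apply]
      split_ifs with a b
      · rw [a, Equiv.swap_apply_left]; exact hf _ _ (hE _) (hE _)
      · rw [b, Equiv.swap_apply_right]
      · rw [Equiv.swap_apply_of_ne_of_ne a b]
    have e2 : ∀ j, X.perm (MulAction.toPermHom (Br N) (Br N) (sg N i) h)⁻¹ j =
        X.perm h⁻¹ (Equiv.swap i (i + 1) j) := fun j => by
      simp only [MulAction.toPermHom_apply, MulAction.toPerm_apply, smul_eq_mul]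
      rw [mul_inv_rev, map_mul, map_inv X.perm (sg N i), ← hσ, X.perm_σ i (by omega),
        Equiv.swap_inv, Equiv.Perm.mul_apply]
    simp only [e1, e2]
    exact ⟨fun h j => h _, fun h j => by simpa using h (Equiv.swap i (i + 1) j)⟩

omit hσ in
theorem bf_B {f h : ℕ → ℚ} {p q : H} {g : Br N}
    (hf : ∀ j, j < N → f j - f (j + 1) = (X.ω p (X.ρ g (X.c j)) : ℤ))
    (hh : ∀ j, j < N → h j - h (j + 1) = (X.ω q (X.ρ g (X.c j)) : ℤ)) :
    bf f h 3 = X.B3 g p q ∧ bf f h 5 = X.B5 g p q := by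
  have h6 := X.h6
  unfold XSys.B5 XSys.B3 XSys.pl
  simp only [map_add]
  push_cast
  rw [← hf 0 (by omega), ← hf 1 (by omega), ← hf 2 (by omega), ← hf 3 (by omega),
    ← hh 0 (by omega), ← hh 1 (by omega), ← hh 2 (by omega), ← hh 3 (by omega)]
  simp only [bf, al]
  constructor <;> ring

end Link

end H4A

open H4A in
theorem sH4 : SH4 := by
  classical
  intro N H _ X hN hσ p q r e I
  have h6 := X.h6
  let A : H → ℕ → ℚ := fun x j => -∑ i ∈ Finset.range j, ((X.ω x (X.c i) : ℤ) : ℚ)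
  have hA : ∀ x j, A x j - A x (j + 1) = (X.ω x (X.c j) : ℤ) := fun x j => by
    simp only [A, Finset.sum_range_succ]; ring
  let y₀ : ℕ → P := fun j =>
    ⟨-1, A p j, A q j, A r j, A e j, (I j - A p j * A q j) / 2, A q j * A r j / 2, 0, by norm_num⟩
  have hE : EE y₀ := fun _ => rfl
  have hI : ∀ j, Ic (y₀ j) = I j := fun j => by simp only [Ic, y₀]; ring
  have hJ : ∀ j, Jc (y₀ j) = 0 := fun j => by simp only [Jc, y₀]; ring
  have hne := T3_ne (N := N) (by omega)
  obtain ⟨φ, h1, h2⟩ := frame ((conjR P).br N) X.ρ.ker {T3 (sg N), T5 (sg N)}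
    (fun k hk => by
      obtain ⟨n, hn⟩ := X.hN
      refine Subgroup.closure_mono ?_ ((Sys.main n X.toSys (by omega)).2.2 k (X.top k) hk)
      rintro x ⟨g, -, ⟨-, rfl⟩ | ⟨-, rfl⟩⟩
      · exact ⟨g, _, Or.inl rfl, by rw [hσ]⟩
      · exact ⟨g, _, Or.inr rfl, by rw [hσ]⟩)
    (rr N)
    (fun y y' t ⟨a, b, c⟩ => ⟨fun j => (b j).1 ▸ a j, fun j => (b j).symm, by
      have := bf_lin (-1) 0 (fun j => (y' j).z - (y j).z) (fun _ => 0) (fun j => (y j).n) (N + 1)
      rw [c, bf_congr (f' := fun j => -1 * ((y' j).z - (y j).z) + 0 * 0) (g' := fun j => (y j).n)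
        (fun j _ => by ring) (fun j _ => (b j).2.2.2.2.1.symm), this]
      ring⟩)
    (fun y y' y'' t t' ⟨a, b, c⟩ ⟨a', b', c'⟩ => ⟨a, fun j => (b j).trans (b' j), by
      have := bf_lin 1 1 (fun j => (y' j).z - (y j).z) (fun j => (y'' j).z - (y' j).z)
        (fun j => (y j).n) (N + 1)
      rw [c, c', bf_congr (f := fun j => (y'' j).z - (y j).z)
        (f' := fun j => 1 * ((y' j).z - (y j).z) + 1 * ((y'' j).z - (y' j).z))
        (g' := fun j => (y j).n) (fun j _ => by ring) (fun j _ => rfl), this,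
        bf_congr (f := fun j => (y'' j).z - (y' j).z) (g := fun j => (y' j).n)
          (g' := fun j => (y j).n) (fun j _ => rfl) fun j _ => (b j).2.2.2.2.1.symm]
      ring⟩)
    (fun y t ⟨_, _, c⟩ => by
      rw [c, (bf_stop (k := 0) _ (Nat.zero_le _) rfl fun j _ => sub_self _).2]; rfl)
    (fun g y y' t h => (br_rel ((conjR P).br N) ((conjR P).br N) (fun y y' => rr N y y' t)
      (fun i hi y y' => by rw [Rk.br_sg _ hi]; exact rr_hur hi y y' t) g y y').1 h)
    (fun τ y => if τ = T3 (sg N) then vv 3 y else vv 5 y)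
    (by
      rintro τ (rfl | rfl) y hy
      · rw [if_pos rfl]
        exact rr_gen (Or.inl rfl) (by omega) hy.1 (Rk.br_T3 _ (by omega) y)
      · rw [if_neg hne]
        exact rr_gen (Or.inr rfl) (by omega) hy.1 (Rk.br_T5 _ (by omega) y))
    (fun τ _ y y' t h => by rw [vv_sim 3 h.2.1, vv_sim 5 h.2.1]) y₀
    ⟨hE, fun j => Sim.refl _, by
      rw [(bf_stop (k := 0) _ (Nat.zero_le _) rfl fun j _ => sub_self _).2]; rfl⟩
  refine ⟨φ, fun k k' h => h1 k k' (br_of_Art h y₀), funext fun g => ?_⟩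
  have la := link_d X hN hσ P.a (fun _ _ => conj_a) hE p (fun j _ => hA p j) g
  have lb := link_d X hN hσ P.b (fun _ _ => conj_b) hE q (fun j _ => hA q j) g
  have lc := link_d X hN hσ P.c (fun _ _ => conj_c) hE r (fun j _ => hA r j) g
  have ln := link_d X hN hσ P.n (fun _ _ => conj_n) hE e (fun j _ => hA e j) g
  have lI := link_c X hN hσ Ic (fun _ _ => conj_I) hE g
  have lJ := link_c X hN hσ Jc (fun _ _ => conj_J) hE g
  have m3 : g * T3 (sg N) * g⁻¹ ∈ X.ρ.ker := hσ ▸ X.T3_mem g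
  have m5 : g * T5 (sg N) * g⁻¹ ∈ X.ρ.ker := hσ ▸ X.T5_mem g
  have v3 := h2 _ (Or.inl rfl) g m3
  have v5 := h2 _ (Or.inr rfl) g m5
  rw [if_pos rfl, vv_eq (Or.inl rfl) la.1] at v3
  rw [if_neg hne, vv_eq (Or.inr rfl) la.1] at v5
  simp only [lI, lJ, hI, hJ, Finset.sum_const_zero, zero_add] at v3 v5
  rw [(bf_B X hN la.2 lb.2).1, (bf_B X hN lc.2 ln.2).1, (bf_B X hN lb.2 lc.2).1,
    (bf_B X hN la.2 ln.2).1] at v3
  rw [(bf_B X hN la.2 lb.2).2, (bf_B X hN lc.2 ln.2).2, (bf_B X hN lb.2 lc.2).2,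
    (bf_B X hN la.2 ln.2).2] at v5
  unfold XSys.val XSys.v4 XSys.sI
  rw [← v3, ← v5]
  simp only [hσ]

end Pool.Agent.MP_00906f_gt.H33E
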