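import Pool.Agent.MP_00906f_gt.H33E.Spec

/-! Row HL: the labelled classes, from the Hurwitz action on tuples of triangular matrices. -/

namespace Pool.Agent.MP_00906f_gt.H33E

open H46 H46.FinAux

namespace HLA

/-- The sign of a flag. -/
def sn (r : Bool) : ℚ := if r then -1 else 1

@[simp] theorem sn_true : sn true = -1 := rfl
@[simp] theorem sn_false : sn false = 1 := rfl

/-- Upper triangular three by three matrices with diagonal `1, ± 1, 1`. -/
@[ext] structure P where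
  r : Bool
  a : ℚ
  b : ℚ
  z : ℚ

instance : Mul P :=
  ⟨fun x y => ⟨xor x.r y.r, y.a + x.a * sn y.r, sn x.r * y.b + x.b, y.z + x.a * y.b + x.z⟩⟩
instance : One P := ⟨⟨false, 0, 0, 0⟩⟩
instance : Inv P :=
  ⟨fun x => ⟨x.r, -(x.a * sn x.r), -(sn x.r * x.b), -x.z + x.a * sn x.r * x.b⟩⟩

@[simp] theorem mul_r (x y : P) : (x * y).r = xor x.r y.r := rfl
@[simp] theorem mul_a (x y : P) : (x * y).a = y.a + x.a * sn y.r := rfl
@[simp] theorem mul_b (x y : P) : (x * y).b = sn x.r * y.b + x.b := rfl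
@[simp] theorem mul_z (x y : P) : (x * y).z = y.z + x.a * y.b + x.z := rfl
@[simp] theorem one_r : (1 : P).r = false := rfl
@[simp] theorem one_a : (1 : P).a = 0 := rfl
@[simp] theorem one_b : (1 : P).b = 0 := rfl
@[simp] theorem one_z : (1 : P).z = 0 := rfl
@[simp] theorem inv_r (x : P) : x⁻¹.r = x.r := rfl
@[simp] theorem inv_a (x : P) : x⁻¹.a = -(x.a * sn x.r) := rfl
@[simp] theorem inv_b (x : P) : x⁻¹.b = -(sn x.r * x.b) := rfl
@[simp] theorem inv_z (x : P) : x⁻¹.z = -x.z + x.a * sn x.r * x.b := rfl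

instance : Group P := Group.ofLeftAxioms
  (fun x y w => by
    obtain ⟨r, a, b, z⟩ := x
    obtain ⟨r', a', b', z'⟩ := y
    obtain ⟨r'', a'', b'', z''⟩ := w
    cases r <;> cases r' <;> cases r'' <;> ext <;> simp <;> ring)
  (fun x => by
    obtain ⟨r, a, b, z⟩ := x
    cases r <;> ext <;> simp)
  (fun x => by
    obtain ⟨r, a, b, z⟩ := x
    cases r <;> ext <;> simp <;> ring)

/-- The central elements. -/
def ze (s : ℚ) : P := ⟨false, 0, 0, s⟩

theorem ze_comm (s : ℚ) (x : P) : ze s * x = x * ze s := by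
  obtain ⟨r, a, b, z⟩ := x
  cases r <;> ext <;> simp [ze] <;> ring

theorem ze_add (s t : ℚ) : ze (s + t) = ze s * ze t := by
  ext <;> simp [ze]; ring

theorem ze_zero : ze 0 = 1 := rfl

theorem conj_ze (u : P) (s : ℚ) (x : P) : u * (ze s * x) * u⁻¹ = ze s * (u * x * u⁻¹) := by
  rw [← mul_assoc u, ← ze_comm]; simp only [mul_assoc]

theorem conj_r (x y : P) : (x * y * x⁻¹).r = y.r := by
  obtain ⟨r, a, b, z⟩ := x
  obtain ⟨r', a', b', z'⟩ := y
  cases r <;> cases r' <;> simp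

theorem conj_a (x : P) {y : P} (h : y.r = false) : (x * y * x⁻¹).a = sn x.r * y.a := by
  obtain ⟨r, a, b, z⟩ := x
  obtain ⟨r', a', b', z'⟩ := y
  obtain rfl : r' = false := h
  cases r <;> simp

theorem conj_b (x : P) {y : P} (h : y.r = false) : (x * y * x⁻¹).b = sn x.r * y.b := by
  obtain ⟨r, a, b, z⟩ := x
  obtain ⟨r', a', b', z'⟩ := y
  obtain rfl : r' = false := h
  cases r <;> simp

theorem conj_even {x y : P} (hx : x.r = false) (h : y.r = false) :
    x * y * x⁻¹ = ze (x.a * y.b - x.b * y.a) * y := by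
  obtain ⟨r, a, b, z⟩ := x
  obtain ⟨r', a', b', z'⟩ := y
  obtain rfl : r' = false := h
  obtain rfl : r = false := hx
  ext <;> simp [ze]; ring

theorem sq_odd {x : P} (hx : x.r = true) (y : P) : x ^ 2 * y * (x ^ 2)⁻¹ = y := by
  have : x ^ 2 = ze (2 * x.z + x.a * x.b) := by
    obtain ⟨r, a, b, z⟩ := x
    obtain rfl : r = true := hx
    rw [sq]
    ext <;> simp [ze]; ring
  rw [this, ze_comm, mul_inv_cancel_right]

theorem sq_r (x : P) : (x ^ 2).r = false := by rw [sq]; simp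

theorem sq_a {x : P} (hx : x.r = false) : (x ^ 2).a = 2 * x.a := by
  rw [sq, mul_a, hx, sn_false]; ring

/-- The label of an even element with the given entries. -/
def lb0 (a b : ℚ) : Lab :=
  if a = 1 ∧ b = 0 then .C true else if a = -1 ∧ b = 0 then .C false
  else if a = 0 ∧ b = 1 then .D true else if a = 0 ∧ b = -1 then .D false else .O

theorem lb0_ne (a b : ℚ) : lb0 a b ≠ .R := by
  unfold lb0; split_ifs <;> simp

theorem lb0_neg (a b : ℚ) : lb0 (-a) (-b) = (lb0 a b).flip := by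
  unfold lb0
  by_cases h1 : a = 1 ∧ b = 0
  · obtain ⟨rfl, rfl⟩ := h1; norm_num [Lab.flip]
  by_cases h2 : a = -1 ∧ b = 0
  · obtain ⟨rfl, rfl⟩ := h2; norm_num [Lab.flip]
  by_cases h3 : a = 0 ∧ b = 1
  · obtain ⟨rfl, rfl⟩ := h3; norm_num [Lab.flip]
  by_cases h4 : a = 0 ∧ b = -1
  · obtain ⟨rfl, rfl⟩ := h4; norm_num [Lab.flip]
  rw [if_neg h1, if_neg h2, if_neg h3, if_neg h4, if_neg, if_neg, if_neg, if_neg]
  · rfl
  · exact fun h => h3 ⟨by linarith [h.1], by linarith [h.2]⟩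
  · exact fun h => h4 ⟨by linarith [h.1], by linarith [h.2]⟩
  · exact fun h => h1 ⟨by linarith [h.1], by linarith [h.2]⟩
  · exact fun h => h2 ⟨by linarith [h.1], by linarith [h.2]⟩

/-- The label of a matrix. -/
def lb (x : P) : Lab := if x.r then .R else lb0 x.a x.b

theorem lb_odd {x : P} (h : x.r = true) : lb x = .R := by rw [lb, if_pos h]

theorem lb_even {x : P} (h : x.r = false) : lb x = lb0 x.a x.b := by simp [lb, h]

theorem lb_R {x : P} : lb x = .R ↔ x.r = true := by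
  cases h : x.r
  · simp [lb_even h, lb0_ne]
  · simp [lb_odd h]

theorem lb_conj (x y : P) : lb (x * y * x⁻¹) = labR.act (lb x) (lb y) := by
  cases hy : y.r
  · rw [lb_even ((conj_r x y).trans hy), conj_a x hy, conj_b x hy, lb_even hy]
    cases hx : x.r
    · simp [labR, lb_even hx, lb0_ne]
    · simp [labR, lb_odd hx, lb0_neg, Lab.flipE]
  · rw [lb_odd ((conj_r x y).trans hy), lb_odd hy]
    by_cases hx : lb x = .R <;> simp [labR, hx, Lab.flipE, Lab.flip]

theorem lb_ze (s : ℚ) (x : P) : lb (ze s * x) = lb x := by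
  obtain ⟨r, a, b, z⟩ := x
  cases r <;> simp [lb, ze]

theorem lb_move (s : ℚ) {u : P} (hu : u.r = false) (x : P) :
    lb (ze s * (u * x * u⁻¹)) = lb x := by
  rw [lb_ze, lb_conj, lb_even hu]
  simp [labR, lb0_ne]

theorem flip_al (l : Lab) : l.flip.al = -l.al := by
  rcases l with _ | _ | s | s <;> try cases s
  all_goals simp [Lab.flip, Lab.al]

theorem flip_be (l : Lab) : l.flip.be = -l.be := by
  rcases l with _ | _ | s | s <;> try cases s
  all_goals simp [Lab.flip, Lab.be]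

theorem be_cube (l : Lab) : l.be ^ 2 * l.be = l.be := by
  rcases l with _ | _ | s | s <;> try cases s
  all_goals simp [Lab.be]

theorem be_al (l : Lab) : l.be ^ 2 * l.al = 0 := by
  rcases l with _ | _ | s | s <;> try cases s
  all_goals simp [Lab.be, Lab.al]

/-- The weight. -/
def w (x : P) : ℚ := (lb x).be ^ 2

theorem w_conj (x y : P) : w (x * y * x⁻¹) = w y := by
  rw [w, w, lb_conj]
  by_cases hx : lb x = .R <;> simp [labR, hx, Lab.flipE, flip_be]

/-- The matrix is of one of the four kinds. -/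
def K (x : P) : Prop := x.r = false → x.a = (lb x).al ∧ x.b = (lb x).be

theorem K_conj' (x : P) {y : P} (h : K y) : K (x * y * x⁻¹) := by
  intro hr
  rw [conj_r] at hr
  obtain ⟨h1, h2⟩ := h hr
  rw [lb_conj, conj_a x hr, conj_b x hr]
  cases hx : x.r
  · simp [labR, lb_even hx, lb0_ne, ← h1, ← h2]
  · simp [labR, lb_odd hx, Lab.flipE, flip_al, flip_be, ← h1, ← h2]

theorem K_conj (x y : P) : K (x * y * x⁻¹) = K y := by
  refine propext ⟨fun h => ?_, K_conj' x⟩
  have := K_conj' x⁻¹ h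
  rwa [show x⁻¹ * (x * y * x⁻¹) * x⁻¹⁻¹ = y by group] at this

theorem w_comm {x : P} (h : K x) (hr : x.r = false) (p q : ℚ) :
    w x * (p * x.b - q * x.a) = p * (lb x).be := by
  obtain ⟨h1, h2⟩ := h hr
  rw [w, h1, h2, ← h1, ← h2]
  have e1 := be_cube (lb x)
  have e2 := be_al (lb x)
  rw [← h1] at e2
  rw [← h2] at e1 e2
  linear_combination p * e1 - q * e2

section inv

variable {Q : Type} [Group Q] {N : ℕ}

theorem br_inv {T : Type} (I : (ℕ → Q) → T) (h : ∀ i, i < N → ∀ y, I ((conjR Q).hur i y) = I y)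
    (g : Br N) (y : ℕ → Q) : I ((conjR Q).br N g y) = I y :=
  (br_rel ((conjR Q).br N) (1 : Br N →* Equiv.Perm T) (fun y t => I y = t)
    (fun i hi y t => by rw [Rk.br_sg _ hi, h i hi]; rfl) g y _).1 rfl

theorem cl_hur {T : Type} (F : Q → T) (hF : ∀ x y, F (x * y * x⁻¹) = F y) (i : ℕ) (y : ℕ → Q)
    (j : ℕ) : F ((conjR Q).hur i y j) = F (y (Equiv.swap i (i + 1) j)) := by
  rw [Rk.hur_apply, Equiv.swap_apply_def]
  split_ifs
  · exact hF _ _
  · rfl
  · rfl

theorem sum_br {M : Type} [AddCommMonoid M] (F : Q → M) (hF : ∀ x y, F (x * y * x⁻¹) = F y)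
    (g : Br N) (y : ℕ → Q) : ∑ j ∈ Finset.range (N + 1), F ((conjR Q).br N g y j) =
      ∑ j ∈ Finset.range (N + 1), F (y j) := by
  refine br_inv (fun y => ∑ j ∈ Finset.range (N + 1), F (y j)) (fun i hi y => ?_) g y
  simp only [cl_hur F hF]
  refine Finset.sum_equiv (Equiv.swap i (i + 1)) (fun j => ?_) fun _ _ => rfl
  simp only [Finset.mem_range, Equiv.swap_apply_def]
  split_ifs <;> omega

theorem all_br (F : Q → Prop) (hF : ∀ x y, F (x * y * x⁻¹) = F y) (g : Br N) (y : ℕ → Q) :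
    (∀ j, F ((conjR Q).br N g y j)) = ∀ j, F (y j) := by
  refine br_inv (fun y => ∀ j, F (y j)) (fun i _ y => ?_) g y
  simp only [cl_hur F hF]
  exact propext ((Equiv.swap i (i + 1)).forall_congr_left (p := fun j => F (y j)) |>.trans
    (by rw [Equiv.symm_swap])).symm

theorem hi_br (g : Br N) (y : ℕ → Q) {j : ℕ} (hj : N < j) : (conjR Q).br N g y j = y j :=
  br_inv (fun y => y j) (fun _ _ y => Rk.hur_hi _ (by omega) y) g y

theorem up_congr {y y' : ℕ → Q} {k : ℕ} (h : ∀ j, j < k → y j = y' j) : up y k = up y' k := by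
  induction k with
  | zero => rfl
  | succ k ih => rw [up, up, ih fun j hj => h j (by omega), h k (by omega)]

theorem up_hur {i k : ℕ} (h : i + 2 ≤ k) (y : ℕ → Q) : up ((conjR Q).hur i y) k = up y k := by
  induction k, h using Nat.le_induction with
  | base =>
    rw [up, up, up, up, up_congr (y' := y) fun j hj => Rk.hur_lo _ hj y, Rk.hur_self,
      Rk.hur_succ, conjR_act]
    group
  | succ k hk ih => rw [up, up, ih, Rk.hur_hi _ (by omega)]

theorem up_br (g : Br N) (y : ℕ → Q) : up ((conjR Q).br N g y) (N + 1) = up y (N + 1) :=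
  br_inv (fun y => up y (N + 1)) (fun _ _ y => up_hur (by omega) y) g y

theorem hom_br {Q' : Type} [Group Q'] (f : Q →* Q') (g : Br N) (y : ℕ → Q) :
    (conjR Q').br N g (f ∘ y) = f ∘ (conjR Q).br N g y :=
  br_nat _ _ f (fun a b => by simp [conjR_act]) g y

end inv

theorem nR_sum (k : ℕ) (y : ℕ → P) :
    nR k (lb ∘ y) = ∑ j ∈ Finset.range k, if (y j).r = true then 1 else 0 := by
  rw [nR, Finset.card_filter]
  exact Finset.sum_congr rfl fun j _ => if_congr lb_R rfl rfl

theorem nR_succ (k : ℕ) (y : ℕ → P) :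
    nR (k + 1) (lb ∘ y) = nR k (lb ∘ y) + if (y k).r = true then 1 else 0 := by
  rw [nR_sum, nR_sum, Finset.sum_range_succ]

theorem nR_mono {k m : ℕ} (h : k ≤ m) (y : ℕ → P) : nR k (lb ∘ y) ≤ nR m (lb ∘ y) := by
  induction m, h using Nat.le_induction with
  | base => exact le_rfl
  | succ m _ ih => rw [nR_succ]; omega

theorem even_of_nR {k m j : ℕ} {y : ℕ → P} (h : nR m (lb ∘ y) ≤ nR k (lb ∘ y)) (h1 : k ≤ j)
    (h2 : j < m) : (y j).r = false := by
  have a1 := nR_mono h1 y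
  have a2 := nR_mono (show j + 1 ≤ m from h2) y
  rw [nR_succ] at a2
  cases hr : (y j).r
  · rfl
  · rw [if_pos hr] at a2; omega

theorem up_r (k : ℕ) (y : ℕ → P) : (up y k).r = true ↔ nR k (lb ∘ y) % 2 = 1 := by
  induction k with
  | zero => simp [up, nR]
  | succ k ih =>
    rw [up, mul_r, nR_succ]
    cases h1 : (up y k).r <;> cases h2 : (y k).r <;> simp [h1] at ih ⊢ <;> omega

theorem up_a {k m : ℕ} (h : k ≤ m) {y : ℕ → P} (hK : ∀ j, K (y j))
    (hr : ∀ j, k ≤ j → j < m → (y j).r = false) :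
    (up y m).a = (up y k).a + ∑ j ∈ Finset.Ico k m, (lb (y j)).al := by
  induction m, h using Nat.le_induction with
  | base => simp
  | succ m hm ih =>
    have h0 := hr m hm (by omega)
    rw [up, mul_a, ih fun j h1 h2 => hr j h1 (by omega), Finset.sum_Ico_succ_top hm, h0,
      ← (hK m h0).1, sn_false]
    ring

/-- The family of tuples. -/
def Fm (N : ℕ) (y : ℕ → P) : Prop :=
  (∀ j, K (y j)) ∧ (∀ j, N < j → (y j).r = false) ∧ nR (N + 1) (lb ∘ y) ≤ 2 ∧
    (nR (N + 1) (lb ∘ y) = 2 → (up y (N + 1)).a = 0)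

theorem nR_br {N : ℕ} (g : Br N) (y : ℕ → P) :
    nR (N + 1) (lb ∘ (conjR P).br N g y) = nR (N + 1) (lb ∘ y) := by
  rw [nR_sum, nR_sum]
  exact sum_br (fun x : P => if x.r = true then 1 else 0) (fun x y => by rw [conj_r]) g y

theorem Fm_br {N : ℕ} (g : Br N) {y : ℕ → P} (h : Fm N y) : Fm N ((conjR P).br N g y) := by
  obtain ⟨h1, h2, h3, h4⟩ := h
  refine ⟨(all_br K K_conj g y).mpr h1, fun j hj => ?_, ?_, ?_⟩
  · rw [hi_br g y hj]; exact h2 j hj
  · rwa [nR_br]
  · rwa [nR_br, up_br]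

/-- The displacement relation. -/
def rel (N : ℕ) (y y' : ℕ → P) (t : ℚ) : Prop :=
  Fm N y ∧ Fm N y' ∧ ∃ (u : P) (z : ℕ → ℚ), u.r = false ∧ (nR (N + 1) (lb ∘ y) = 0 → u = 1) ∧
    (∀ j, y' j = ze (z j) * (u * y j * u⁻¹)) ∧ t = ∑ j ∈ Finset.range (N + 1), w (y j) * z j

variable {N : ℕ}

theorem rel_lb {y y' : ℕ → P} {t : ℚ} (h : rel N y y' t) : lb ∘ y' = lb ∘ y := by
  obtain ⟨-, -, u, z, hu, -, hy, -⟩ := h
  funext j
  simp only [Function.comp, hy, lb_move _ hu]

theorem rel_w {y y' : ℕ → P} {t : ℚ} (h : rel N y y' t) (j : ℕ) : w (y' j) = w (y j) :=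
  congrArg (fun l : Lab => l.be ^ 2) (congrFun (rel_lb h) j)

theorem rel_symm (y y' : ℕ → P) (t : ℚ) (h : rel N y y' t) : rel N y' y (-t) := by
  have hl := rel_lb h
  have hw := rel_w h
  obtain ⟨h1, h2, u, z, hu, h0, hy, ht⟩ := h
  refine ⟨h2, h1, u⁻¹, fun j => -z j, hu, fun h => ?_, fun j => ?_, ?_⟩
  · rw [h0 (hl ▸ h), inv_one]
  · rw [hy, conj_ze, ← mul_assoc, ← ze_add, neg_add_cancel, ze_zero]; group
  · rw [ht, ← Finset.sum_neg_distrib]
    exact Finset.sum_congr rfl fun j _ => by rw [hw]; ring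

theorem rel_trans (y y' y'' : ℕ → P) (t t' : ℚ) (h : rel N y y' t) (h' : rel N y' y'' t') :
    rel N y y'' (t + t') := by
  have hl := rel_lb h
  have hw := rel_w h
  obtain ⟨h1, -, u, z, hu, h0, hy, ht⟩ := h
  obtain ⟨-, h2, u', z', hu', h0', hy', ht'⟩ := h'
  refine ⟨h1, h2, u' * u, fun j => z' j + z j, by simp [hu, hu'], fun h => ?_, fun j => ?_, ?_⟩
  · rw [h0 h, h0' (hl ▸ h), one_mul]
  · rw [hy', hy, conj_ze, ze_add]; group
  · rw [ht, ht', ← Finset.sum_add_distrib]
    exact Finset.sum_congr rfl fun j _ => by rw [hw]; ring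

theorem ze_fix {s : ℚ} {x : P} (h : x = ze s * x) : s = 0 := by
  have := congrArg P.z h
  simpa [ze] using this

theorem rel_uniq (y : ℕ → P) (t : ℚ) (h : rel N y y t) : t = 0 := by
  obtain ⟨-, -, u, z, hu, h0, hy, ht⟩ := h
  have hc : ∀ x, u * x * u⁻¹ = x := by
    by_cases hn : nR (N + 1) (lb ∘ y) = 0
    · intro x; rw [h0 hn]; group
    · obtain ⟨j, hj⟩ := Finset.card_ne_zero.1 hn
      have hr : (y j).r = true := lb_R.1 (Finset.mem_filter.1 hj).2
      have ea := congrArg P.a (hy j)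
      have eb := congrArg P.b (hy j)
      simp [ze, hu, hr] at ea eb
      have : u = ze u.z := by
        ext
        · exact hu
        · change u.a = 0; linarith
        · change u.b = 0; linarith
        · rfl
      intro x
      rw [this, ze_comm, mul_inv_cancel_right]
  rw [ht]
  refine Finset.sum_eq_zero fun j _ => ?_
  have := hy j
  rw [hc] at this
  rw [ze_fix this, mul_zero]

/-- The twisted projection. -/
def pr (u : P) : P × Multiplicative ℚ →* P :=
  MonoidHom.mk' (fun x => ze x.2.toAdd * (u * x.1 * u⁻¹)) fun x y => by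
    simp only [Prod.fst_mul, Prod.snd_mul, toAdd_mul, ze_add]
    rw [mul_assoc (ze _) (u * x.1 * u⁻¹), ← mul_assoc (u * x.1 * u⁻¹),
      ← ze_comm _ (u * x.1 * u⁻¹)]
    group

theorem rel_equi (g : Br N) (y y' : ℕ → P) (t : ℚ) (h : rel N y y' t) :
    rel N ((conjR P).br N g y) ((conjR P).br N g y') t := by
  obtain ⟨h1, h2, u, z, hu, h0, hy, ht⟩ := h
  let Y : ℕ → P × Multiplicative ℚ := fun j => (y j, Multiplicative.ofAdd (z j))
  have e1 := hom_br (MonoidHom.fst P (Multiplicative ℚ)) g Y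
  have e2 := hom_br (pr u) g Y
  rw [show (MonoidHom.fst P (Multiplicative ℚ)) ∘ Y = y from rfl] at e1
  rw [show pr u ∘ Y = y' from funext fun j => (hy j).symm] at e2
  refine ⟨Fm_br g h1, Fm_br g h2, u, fun j => ((conjR _).br N g Y j).2.toAdd, hu,
    fun h => h0 (by rwa [nR_br] at h), fun j => ?_, ?_⟩
  · rw [e1, e2]; rfl
  · rw [ht, e1]
    exact (sum_br (fun x : P × Multiplicative ℚ => w x.1 * x.2.toAdd)
      (fun a b => by simp [w_conj]) g Y).symm

theorem rel_gen {k : ℕ} (hk : k ≤ N + 1) {y y' : ℕ → P} (h : Fm N y) (h' : Fm N y')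
    (hy : ∀ j, y' j = if j < k then up y k ^ 2 * y j * (up y k ^ 2)⁻¹ else y j) :
    rel N y y' (lval N k (lb ∘ y)) := by
  refine ⟨h, h', ?_⟩
  obtain ⟨h1, h2, h3, h4⟩ := h
  have hm := nR_mono hk y
  have hp := up_r k y
  set d := up y k ^ 2 with hd
  have hdr : d.r = false := sq_r _
  by_cases c0 : nR k (lb ∘ y) = 0
  · have hr : ∀ j, 0 ≤ j → j < k → (y j).r = false := fun j a b => even_of_nR (by omega) a b
    have hw : (up y k).r = false := by simpa [c0] using hp
    have ha := up_a (Nat.zero_le k) h1 hr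
    refine ⟨1, fun j => if j < k then d.a * (y j).b - d.b * (y j).a else 0, rfl, fun _ => rfl,
      fun j => ?_, ?_⟩
    · rw [hy]
      beta_reduce
      split_ifs with hj
      · rw [conj_even hdr (hr j (Nat.zero_le _) hj)]; group
      · rw [ze_zero]; group
    · beta_reduce
      rw [lval, if_pos c0, ← Finset.sum_range_add_sum_Ico _ hk,
        Finset.sum_eq_zero (s := Finset.Ico k (N + 1)) fun j hj => by
          rw [if_neg (by have := Finset.mem_Ico.1 hj; omega), mul_zero], add_zero, Finset.mul_sum]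
      refine Finset.sum_congr rfl fun j hj => ?_
      have hj := Finset.mem_range.1 hj
      rw [if_pos hj, w_comm (h1 j) (hr j (Nat.zero_le _) hj), hd, sq_a hw, ha, Finset.range_eq_Ico]
      simp [up]
  by_cases c2 : nR k (lb ∘ y) = 2
  · have hr : ∀ j, k ≤ j → j < N + 1 → (y j).r = false := fun j a b => even_of_nR (by omega) a b
    have hr' : ∀ j, k ≤ j → (y j).r = false := fun j a => by
      by_cases b : j < N + 1
      · exact hr j a b
      · exact h2 j (by omega)
    have hw : (up y k).r = false := by simpa [c2] using hp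
    have ha := up_a hk h1 hr
    rw [h4 (by omega)] at ha
    refine ⟨d, fun j => if j < k then 0 else -d.a * (y j).b - -d.b * (y j).a, hdr,
      fun h => by omega, fun j => ?_, ?_⟩
    · rw [hy]
      beta_reduce
      split_ifs with hj
      · rw [ze_zero, one_mul]
      · rw [conj_even hdr (hr' j (by omega)), ← mul_assoc, ← ze_add,
          show -d.a * (y j).b - -d.b * (y j).a + (d.a * (y j).b - d.b * (y j).a) = 0 by ring,
          ze_zero, one_mul]
    · beta_reduce
      rw [lval, if_neg c0, if_pos c2, ← Finset.sum_range_add_sum_Ico _ hk,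
        Finset.sum_eq_zero (s := Finset.range k) fun j hj => by
          rw [if_pos (Finset.mem_range.1 hj), mul_zero], zero_add, Finset.mul_sum]
      refine Finset.sum_congr rfl fun j hj => ?_
      have hj := Finset.mem_Ico.1 hj
      rw [if_neg (by omega), w_comm (h1 j) (hr j hj.1 hj.2), hd, sq_a hw,
        show (up y k).a = -∑ j ∈ Finset.Ico k (N + 1), (lb (y j)).al by linarith]
      simp
  · have hw : (up y k).r = true := hp.2 (by omega)
    refine ⟨1, fun _ => 0, rfl, fun _ => rfl, fun j => ?_, ?_⟩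
    · rw [hy, hd, sq_odd hw, ze_zero, ite_self]; group
    · rw [lval, if_neg c0, if_neg c2]; simp

/-- The start tuple. -/
def st (A : Finset ℕ) (c d a₀ : ℕ) (t : ℚ) (j : ℕ) : P :=
  if j = c then ⟨false, 1, 0, 0⟩ else if j = d then ⟨false, 0, 1, 0⟩
  else if j ∈ A then ⟨true, if j = a₀ then t else 0, 0, 0⟩ else 1

theorem st_lb (A : Finset ℕ) (c d a₀ : ℕ) (t : ℚ) : lb ∘ st A c d a₀ t = mkL A c d := by
  funext j
  simp only [Function.comp, st, mkL]
  split_ifs <;> simp [lb, lb0]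

theorem st_K (A : Finset ℕ) (c d a₀ : ℕ) (t : ℚ) (j : ℕ) : K (st A c d a₀ t j) := by
  unfold st
  split_ifs <;> simp [K, lb, lb0, Lab.al, Lab.be]

theorem st_aff {A : Finset ℕ} {c d a₀ : ℕ} (h : a₀ ∈ A) (hc : c ∉ A) (hd : d ∉ A) {k : ℕ}
    (hk : a₀ + 1 ≤ k) : ∃ s e : ℚ, s ≠ 0 ∧ ∀ t, (up (st A c d a₀ t) k).a = s * t + e := by
  have hne : ∀ t j, j ≠ a₀ → st A c d a₀ t j = st A c d a₀ 0 j := fun t j hj => by
    simp [st, hj]
  induction k, hk using Nat.le_induction with
  | base =>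
    refine ⟨1, -(up (st A c d a₀ 0) a₀).a, one_ne_zero, fun t => ?_⟩
    have : st A c d a₀ t a₀ = ⟨true, t, 0, 0⟩ := by
      rw [st, if_neg (fun e : a₀ = c => hc (e ▸ h)), if_neg (fun e : a₀ = d => hd (e ▸ h)),
        if_pos h, if_pos rfl]
    rw [up, mul_a, this, up_congr fun j hj => hne t j (by omega)]
    simp
  | succ k hk ih =>
    obtain ⟨s, e, hs, ih⟩ := ih
    refine ⟨s * sn (st A c d a₀ 0 k).r, (st A c d a₀ 0 k).a + e * sn (st A c d a₀ 0 k).r,
      mul_ne_zero hs (by cases (st A c d a₀ 0 k).r <;> simp), fun t => ?_⟩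
    rw [up, mul_a, ih, hne t k (by omega)]
    ring

theorem exists_start {A : Finset ℕ} {c d : ℕ} (h : LabIdx N A c d) :
    ∃ y, Fm N y ∧ lb ∘ y = mkL A c d := by
  obtain ⟨hA, h2, -, -, -, hc, hd, h3⟩ := h
  have hn : nR (N + 1) (mkL A c d) = A.card := by
    rw [nR]
    congr 1
    ext j
    rw [Finset.mem_filter]
    constructor
    · rintro ⟨-, hj⟩
      unfold mkL at hj
      split_ifs at hj with a b e
      exact e
    · intro hj
      refine ⟨hA hj, ?_⟩
      rw [mkL, if_neg (fun e : j = c => hc (e ▸ hj)), if_neg (fun e : j = d => hd (e ▸ hj)),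
        if_pos hj]
  have key : ∀ a₀ t, (A.card = 2 → (up (st A c d a₀ t) (N + 1)).a = 0) →
      Fm N (st A c d a₀ t) := fun a₀ t ht => by
    refine ⟨st_K A c d a₀ t, fun j hj => ?_, by rwa [st_lb, hn], by rwa [st_lb, hn]⟩
    have : j ∉ A := fun e => by have := Finset.mem_range.1 (hA e); omega
    unfold st
    split_ifs <;> rfl
  by_cases e : A.card = 2
  · obtain ⟨a₀, ha, -⟩ := h3 e
    obtain ⟨s, f, hs, hf⟩ := st_aff ha hc hd (Finset.mem_range.1 (hA ha))
    exact ⟨_, key a₀ (-f / s) fun _ => by rw [hf]; field_simp; ring, st_lb A c d _ _⟩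
  · exact ⟨_, key 0 0 fun e' => absurd e' e, st_lb A c d _ _⟩

theorem T3_ne (h : 4 ≤ N) : T5 (sg N) ≠ T3 (sg N) := by
  intro e
  have hb : IsBF (fun _ : ℕ => Multiplicative.ofAdd (1 : ℤ)) N := ⟨fun _ _ => rfl, fun _ _ _ _ => rfl⟩
  have := congrArg (fun x => Multiplicative.toAdd (brLift _ hb x)) e
  simp only [T3, T5, map_pow, map_mul, brLift_sg _ hb (show 0 < N by omega),
    brLift_sg _ hb (show 1 < N by omega), brLift_sg _ hb (show 2 < N by omega),
    brLift_sg _ hb (show 3 < N by omega), toAdd_pow, toAdd_mul, toAdd_ofAdd] at this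
  norm_num at this

end HLA

open HLA in
theorem sHL : SLab → SHL := by
  classical
  intro _ N H _ X hN hσ A c d hA
  have h6 : 6 ≤ N := hN ▸ X.h6
  obtain ⟨y₀, hy₀, hl⟩ := exists_start hA
  have hlab : X.lab = labR.br N := by
    refine MonoidHom.eq_of_eqOn_dense (s := sg N '' {i | i < N})
      (eq_top_iff.2 fun x _ => br_top x) ?_
    rintro _ ⟨i, hi, rfl⟩
    rw [Rk.br_sg _ hi, ← X.lab_σ i (hi.trans_eq hN.symm), hσ]
  obtain ⟨m, hm⟩ := X.hN
  obtain ⟨φ, h1, h2⟩ := frame ((conjR P).br N) X.ρ.ker {T3 X.σ, T5 X.σ}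
    (fun k hk => by
      refine Subgroup.closure_mono ?_ ((Sys.main m X.toSys (by omega)).2.2 k (X.top k) hk)
      rintro x ⟨g, -, ⟨-, rfl⟩ | ⟨-, rfl⟩⟩
      · exact ⟨g, _, Or.inl rfl, rfl⟩
      · exact ⟨g, _, Or.inr rfl, rfl⟩)
    (rel N) rel_symm rel_trans rel_uniq rel_equi
    (fun τ y => if τ = T3 X.σ then lval N 3 (lb ∘ y) else lval N 5 (lb ∘ y))
    (fun τ hτ y hy => by
      rw [hσ] at hτ ⊢
      rcases hτ with rfl | rfl
      · rw [if_pos rfl]
        refine rel_gen (by omega) hy.1 (Fm_br _ hy.1) fun j => ?_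
        rw [Rk.br_T3 _ (by omega), pa_conj_sq]
        exact if_congr (by omega) rfl rfl
      · rw [if_neg (T3_ne (by omega))]
        refine rel_gen (by omega) hy.1 (Fm_br _ hy.1) fun j => ?_
        rw [Rk.br_T5 _ (by omega), pa_conj_sq]
        exact if_congr (by omega) rfl rfl)
    (fun τ _ y y' t h => by rw [rel_lb h]) y₀
    ⟨hy₀, hy₀, 1, fun _ => 0, rfl, fun _ => rfl, fun j => by rw [ze_zero]; group, by simp⟩
  refine ⟨φ, fun k k' e => h1 k k' (br_of_Art e y₀), funext fun g => ?_⟩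
  have e : lb ∘ (conjR P).br N g⁻¹ y₀ = X.lab g⁻¹ (mkL A c d) := by
    rw [hlab, ← hl]
    exact (br_nat _ _ lb lb_conj g⁻¹ y₀).symm
  have e5 : T5 X.σ ≠ T3 X.σ := by rw [hσ]; exact T3_ne (by omega)
  refine Prod.ext ?_ ?_
  · refine (h2 _ (Or.inl rfl) g _).trans ?_
    rw [if_pos rfl, e, XSys.vL, hN]
  · refine (h2 _ (Or.inr rfl) g _).trans ?_
    rw [if_neg e5, e, XSys.vL, hN]

end Pool.Agent.MP_00906f_gt.H33E
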