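import Pool.Agent.MP_00906f_gt.H33E.Spec

/-! Linear independence of the basis classes. -/

namespace Pool.Agent.MP_00906f_gt.H33E

open H46 H46.FinAux

namespace IndepA

variable {G H : Type} [Group G] [AddCommGroup H] (X : XSys G H)

/-- The Pluecker coordinate as a biadditive form. -/
def PL (p q : H) : H →+ H →+ ℚ :=
  AddMonoidHom.mk' (fun x => AddMonoidHom.mk' (fun y => X.pl x y p q) fun y y' => by
      simp only [XSys.pl, map_add]; push_cast; ring) fun x x' => by
    ext y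
    simp only [XSys.pl, map_add, AddMonoidHom.mk'_apply, AddMonoidHom.add_apply]; push_cast; ring

theorem PL_apply (p q x y : H) : PL X p q x y = X.pl x y p q := rfl

theorem PL_self (p q x : H) : PL X p q x x = 0 := by
  simp [PL_apply, XSys.pl]

/-- The intersection form with rational values. -/
def W : H →+ H →+ ℚ :=
  AddMonoidHom.mk' (fun x => AddMonoidHom.mk' (fun y => (X.ω x y : ℚ)) fun y y' => by
      simp only [map_add]; push_cast; ring) fun x x' => by
    ext y
    simp only [map_add, AddMonoidHom.mk'_apply, AddMonoidHom.add_apply, LinearMap.add_apply]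
    push_cast; ring

theorem W_apply (x y : H) : W X x y = (X.ω x y : ℚ) := rfl

theorem W_self (x : H) : W X x x = 0 := by simp [W_apply, X.alt]

theorem W_rho (g : G) (x y : H) : W X (X.ρ g x) (X.ρ g y) = W X x y := by
  rw [W_apply, W_apply, X.ρ_ω (X.top g)]

theorem W_c {i j : ℕ} (hi : i < 6) (hj : j < 6) :
    W X (X.c i) (X.c j) = (if j = i + 1 then 1 else 0) - (if i = j + 1 then 1 else 0) := by
  have := X.h6
  rw [W_apply, X.lat_ωcc (by omega) (by omega)]
  split_ifs <;> simp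

/-- The product of two biadditive forms. -/
def pr (P Q : H →+ H →+ ℚ) : H →+ H →+ H →+ H →+ ℚ :=
  AddMonoidHom.mk' (fun x => AddMonoidHom.mk' (fun x' => AddMonoidHom.mk' (fun y => P x y • Q x')
    fun y y' => by rw [map_add, add_smul]) fun x' x'' => by
      ext y y'; simp) fun x x' => by
    ext x'' y y'; simp [add_mul]

theorem pr_apply (P Q : H →+ H →+ ℚ) (x x' y y' : H) : pr P Q x x' y y' = P x y * Q x' y' := rfl

theorem zar (hZ : SZar) (hK : LabKit X) {ι : Type} [Fintype ι] (P Q : ι → H →+ H →+ ℚ)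
    (hP : ∀ i x, P i x x = 0) (hQ : ∀ i x, Q i x x = 0) (g : G)
    (h : ∀ β, X.perm β = 1 → X.lab β = 1 →
      ∑ i, P i (X.ρ (β * g) (X.c 0)) (X.ρ (β * g) (X.c 1)) *
        Q i (X.ρ (β * g) (X.c 0)) (X.ρ (β * g) (X.c 1)) = 0) (x y : H) :
    ∑ i, P i x y * Q i x y = 0 := by
  have e : ∀ x x' y y', (∑ i, pr (P i) (Q i)) x x' y y' = ∑ i, P i x y * Q i x' y' := by
    intro x x' y y'
    simp only [AddMonoidHom.finsetSum_apply, pr_apply]
  rw [← e]
  refine hZ G H X hK _ g (fun x y k => ?_) (fun x y k => ?_) (fun β h1 h2 => ?_) x y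
  · rw [e, e]
    simp only [map_add, map_zsmul, hP, hQ, smul_zero, add_zero]
  · rw [e, e]
    simp only [map_add, map_zsmul, AddMonoidHom.add_apply, AddMonoidHom.zsmul_apply, hP, hQ,
      smul_zero, add_zero]
  · rw [e]; exact h β h1 h2

/-- A form whose product with the intersection form vanishes is zero. -/
theorem div_W (D : H →+ H →+ ℚ) (h : ∀ x y, D x y * W X x y = 0) (x y : H) : D x y = 0 := by
  have h1 : W X (X.c 0) (X.c 1) = 1 := by rw [W_c X (by omega) (by omega)]; simp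
  have h0 : D (X.c 0) (X.c 1) = 0 := by simpa [h1] using h (X.c 0) (X.c 1)
  have a0 := h x y
  have a1 := h (x + X.c 0) (y + X.c 1)
  have a2 := h (x - X.c 0) (y - X.c 1)
  have a3 := h (x + X.c 0 + X.c 0) (y + X.c 1 + X.c 1)
  simp only [map_add, map_sub, AddMonoidHom.add_apply, AddMonoidHom.sub_apply, h0, h1] at a1 a2 a3
  have he : D x (X.c 1) + D (X.c 0) y = 0 := by
    linear_combination (a3 - 3 * a1 + 3 * a0 - a2) / 6
  linear_combination (a1 + a2 - 2 * a0) / 2 - (W X x (X.c 1) + W X (X.c 0) y) * he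

theorem three_more (i j : ℕ) : ∃ k l m : ℕ, k ≤ 4 ∧ l ≤ 4 ∧ m ≤ 4 ∧ k ≠ l ∧ k ≠ m ∧ l ≠ m ∧
    k ≠ i ∧ k ≠ j ∧ l ≠ i ∧ l ≠ j ∧ m ≠ i ∧ m ≠ j := by
  have h1 : 2 < (Finset.range 5 \ {i, j}).card := by
    have h2 := Finset.le_card_sdiff ({i, j} : Finset ℕ) (Finset.range 5)
    have h3 : ({i, j} : Finset ℕ).card ≤ 2 := Finset.card_le_two
    rw [Finset.card_range] at h2
    omega
  obtain ⟨k, hk, l, hl, m, hm, h4, h5, h6⟩ := Finset.two_lt_card.1 h1
  simp only [Finset.mem_sdiff, Finset.mem_range, Finset.mem_insert, Finset.mem_singleton,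
    not_or] at hk hl hm
  exact ⟨k, l, m, by omega, by omega, by omega, h4, h5, h6, hk.2.1, hk.2.2, hl.2.1, hl.2.2,
    hm.2.1, hm.2.2⟩

theorem const_of_triples {N : ℕ} (hN : 4 ≤ N) (α : ℕ → ℕ → ℚ) (C : ℚ)
    (h : ∀ i j k, i ≤ N → j ≤ N → k ≤ N → i ≠ j → i ≠ k → j ≠ k → α i j + α i k + α j k = C)
    {i j : ℕ} (hi : i ≤ N) (hj : j ≤ N) (hij : i ≠ j) : 3 * α i j = C := by
  obtain ⟨k, l, m, hk, hl, hm, a1, a2, a3, a4, a5, a6, a7, a8, a9⟩ := three_more i j
  have hk' : k ≤ N := by omega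
  have hl' : l ≤ N := by omega
  have hm' : m ≤ N := by omega
  linarith [h i j k hi hj hk' hij a4.symm a5.symm, h i j l hi hj hl' hij a6.symm a7.symm,
    h i j m hi hj hm' hij a8.symm a9.symm, h i k l hi hk' hl' a4.symm a6.symm a1,
    h i k m hi hk' hm' a4.symm a8.symm a2, h i l m hi hl' hm' a6.symm a8.symm a3,
    h j k l hj hk' hl' a5.symm a7.symm a1, h j k m hj hk' hm' a5.symm a9.symm a2,
    h j l m hj hl' hm' a7.symm a9.symm a3, h k l m hk' hl' hm' a1 a2 a3]

theorem dl_comm (i j : ℕ) : dl i j = dl j i := by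
  simp only [dl, eq_comm]

/-- The bilinear part at the place `i`. -/
def B (f : J1 X.N → ℚ) (i : ℕ) : H →+ H →+ ℚ :=
  ∑ t : J1 X.N, (f t * dl i t.1.1) • PL X (X.c t.1.2.1) (X.c t.1.2.2)

theorem B_apply (f : J1 X.N → ℚ) (i : ℕ) (x y : H) :
    B X f i x y = ∑ t : J1 X.N, f t * (dl i t.1.1 * X.pl x y (X.c t.1.2.1) (X.c t.1.2.2)) := by
  simp only [B, AddMonoidHom.finsetSum_apply, AddMonoidHom.smul_apply, PL_apply, smul_eq_mul,
    mul_assoc]

theorem B_self (f : J1 X.N → ℚ) (i : ℕ) (x : H) : B X f i x x = 0 := by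
  simp [B_apply, ← PL_apply, PL_self]

theorem B_zero (f : J1 X.N → ℚ) (x y : H) : B X f 0 x y = 0 := by
  rw [B_apply]
  refine Finset.sum_eq_zero fun t _ => ?_
  have h := (Finset.mem_filter.1 t.2).2.1
  rw [dl, if_neg (by omega), zero_mul, mul_zero]

theorem sum_sI (f : J1 X.N → ℚ) (k : ℕ) (g : G) (x y : H) :
    ∑ t : J1 X.N, f t * (X.sI k (dl t.1.1) g * X.pl x y (X.c t.1.2.1) (X.c t.1.2.2)) =
      ∑ j ∈ Finset.range k, B X f (X.perm g j) x y := by
  simp only [B_apply, XSys.sI, Finset.sum_mul, Finset.mul_sum]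
  rw [Finset.sum_comm]
  exact Finset.sum_congr rfl fun j _ => Finset.sum_congr rfl fun t _ => by rw [dl_comm]

/-- The biquadratic part. -/
def K (f : J2 X.N → ℚ) (x y : H) : ℚ :=
  ∑ t : J2 X.N, f t * (X.pl x y (X.c t.1.1) (X.c t.1.2.1) *
    X.pl x y (X.c t.1.2.2.1) (X.c t.1.2.2.2))

/-- The labelled part. -/
def L (f : JL X.N → ℚ) (g : G) : ℚ × ℚ :=
  ∑ t : JL X.N, f t • X.vL (mkL t.1.1 t.1.2.1 t.1.2.2) g

theorem L_orbit (f : JL X.N → ℚ) {β : G} (h : X.lab β = 1) (g : G) : L X f (β * g) = L X f g := by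
  have h1 : X.lab β⁻¹ = 1 := by rw [map_inv, h, inv_one]
  simp only [L, XSys.vL, mul_inv_rev, map_mul, h1, mul_one]

/-- The polarised value of a biquadratic function on the sum of two planes. -/
def two (k : H → H → ℚ) (x y z w : H) : ℚ :=
  k x y + k z w + (k (x + z) (y + w) - k (x + z) (y - w) - k (x - z) (y + w) + k (x - z) (y - w) -
    (k (x + w) (y + z) - k (x + w) (y - z) - k (x - w) (y + z) + k (x - w) (y - z))) / 12

theorem xi_fst (p q r e : H) (g : G) : (X.xi p q r e g).1 =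
    X.pl (X.ρ g (X.c 0)) (X.ρ g (X.c 1)) p q * X.pl (X.ρ g (X.c 0)) (X.ρ g (X.c 1)) r e := by
  simp only [XSys.xi, XSys.v4, XSys.sI, XSys.B3, XSys.pl, Pi.smul_apply, Pi.add_apply,
    Pi.zero_apply, Finset.sum_const_zero, Prod.smul_fst, Prod.fst_add, smul_eq_mul]
  push_cast
  ring

theorem xi_snd (p q r e : H) (g : G) : (X.xi p q r e g).2 =
    two (fun x y => X.pl x y p q * X.pl x y r e) (X.ρ g (X.c 0)) (X.ρ g (X.c 1))
      (X.ρ g (X.c 0 + X.c 2)) (X.ρ g (X.c 3)) := by
  simp only [XSys.xi, XSys.v4, XSys.sI, XSys.B5, XSys.B3, Pi.smul_apply, Pi.add_apply,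
    Pi.zero_apply, Finset.sum_const_zero, Prod.smul_snd, Prod.snd_add, smul_eq_mul, two]
  generalize X.ρ g (X.c 0 + X.c 2) = z
  simp only [XSys.pl, map_add, map_sub]
  push_cast
  ring

theorem two_sum {ι : Type} [Fintype ι] (f : ι → ℚ) (k : ι → H → H → ℚ) (x y z w : H) :
    ∑ t, f t * two (k t) x y z w = two (fun x y => ∑ t, f t * k t x y) x y z w := by
  simp only [two, Finset.sum_div, ← Finset.sum_add_distrib, ← Finset.sum_sub_distrib]
  exact Finset.sum_congr rfl fun t _ => by ring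

theorem two_W (κ : ℚ) (g : G) :
    two (fun x y => κ * W X x y ^ 2) (X.ρ g (X.c 0)) (X.ρ g (X.c 1))
      (X.ρ g (X.c 0 + X.c 2)) (X.ρ g (X.c 3)) = 10 * κ / 3 := by
  simp only [two, map_add, map_sub, AddMonoidHom.add_apply, AddMonoidHom.sub_apply, W_rho]
  simp only [W_c X (i := 0) (j := 0) (by omega) (by omega),
    W_c X (i := 0) (j := 1) (by omega) (by omega), W_c X (i := 0) (j := 2) (by omega) (by omega),
    W_c X (i := 0) (j := 3) (by omega) (by omega), W_c X (i := 2) (j := 1) (by omega) (by omega),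
    W_c X (i := 2) (j := 3) (by omega) (by omega), W_c X (i := 3) (j := 1) (by omega) (by omega),
    W_c X (i := 3) (j := 0) (by omega) (by omega), W_c X (i := 3) (j := 2) (by omega) (by omega)]
  norm_num
  ring

variable {X} {a b : ℚ} {f : Ix X.N → ℚ}

theorem split (h : ∑ i, f i • X.bas a b i = 0) (g : G) :
    f (.inl ()) • (a, b) + (L X (fun t => f (.inr (.inl t))) g +
      (∑ t : J1 X.N, f (.inr (.inr (.inl t))) •
          X.v4 0 0 (X.c t.1.2.1) (X.c t.1.2.2) (dl t.1.1) g +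
        ∑ t : J2 X.N, f (.inr (.inr (.inr t))) •
          X.xi (X.c t.1.1) (X.c t.1.2.1) (X.c t.1.2.2.1) (X.c t.1.2.2.2) g)) = 0 := by
  have := congrFun h g
  simpa only [Fintype.sum_sum_type, Finset.sum_apply, Pi.add_apply, Pi.smul_apply, XSys.bas,
    Finset.univ_unique, Finset.sum_singleton, Pi.zero_apply, L] using this

theorem pl_zero (x y q : H) : X.pl x y 0 q = 0 := by simp [XSys.pl]

theorem e1 (h : ∑ i, f i • X.bas a b i = 0) (g : G) :
    f (.inl ()) * a + (L X (fun t => f (.inr (.inl t))) g).1 +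
      ∑ j ∈ Finset.range 3, B X (fun t => f (.inr (.inr (.inl t)))) (X.perm g j)
        (X.ρ g (X.c 0)) (X.ρ g (X.c 1)) +
      K X (fun t => f (.inr (.inr (.inr t)))) (X.ρ g (X.c 0)) (X.ρ g (X.c 1)) = 0 := by
  have := congrArg Prod.fst (split h g)
  simp only [Prod.fst_add, Prod.fst_sum, Prod.smul_fst, smul_eq_mul, Prod.fst_zero, xi_fst,
    XSys.v4, XSys.B3, pl_zero, add_zero, zero_mul, sub_zero, sum_sI] at this
  rw [← this, K]
  ring

theorem e2 (h : ∑ i, f i • X.bas a b i = 0) (g : G) :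
    f (.inl ()) * b + (L X (fun t => f (.inr (.inl t))) g).2 +
      (∑ j ∈ Finset.range 5, B X (fun t => f (.inr (.inr (.inl t)))) (X.perm g j)
        (X.ρ g (X.c 0)) (X.ρ g (X.c 1)) +
      ∑ j ∈ Finset.range 5, B X (fun t => f (.inr (.inr (.inl t)))) (X.perm g j)
        (X.ρ g (X.c 0 + X.c 2)) (X.ρ g (X.c 3))) +
      two (K X fun t => f (.inr (.inr (.inr t)))) (X.ρ g (X.c 0)) (X.ρ g (X.c 1))
        (X.ρ g (X.c 0 + X.c 2)) (X.ρ g (X.c 3)) = 0 := by
  have := congrArg Prod.snd (split h g)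
  simp only [Prod.snd_add, Prod.snd_sum, Prod.smul_snd, smul_eq_mul, Prod.snd_zero, xi_snd,
    XSys.v4, XSys.B5, XSys.B3, pl_zero, add_zero, zero_mul, sub_zero, two_sum, mul_add,
    Finset.sum_add_distrib, sum_sI] at this
  rw [← this]
  unfold K
  ring

/-- The weight of an ordered pair. -/
def psi (f : JL X.N → ℚ) (c d : ℕ) : ℚ := ∑ t : JL X.N, f t * (dl t.1.2.1 c * dl t.1.2.2 d)

theorem JL_lt (t : JL X.N) : t.1.2.1 < t.1.2.2 := (Finset.mem_filter.1 t.2).2.2.1

theorem psi_ge (f : JL X.N → ℚ) {c d : ℕ} (h : d ≤ c) : psi f c d = 0 := by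
  refine Finset.sum_eq_zero fun t _ => ?_
  have := JL_lt t
  simp only [dl]
  split_ifs <;> first | omega | simp

theorem psi_drop {f : JL X.N → ℚ} (hf : ∀ t, t.1.1 ≠ ∅ → f t = 0) {c d : ℕ}
    (h : c = 0 ∨ (c = 1 ∧ d = 2)) : psi f c d = 0 := by
  refine Finset.sum_eq_zero fun t _ => ?_
  by_cases h0 : t.1.1 = ∅
  · have := (Finset.mem_filter.1 t.2).2.2.2 h0
    simp only [dl]
    split_ifs <;> first | omega | simp
  · rw [hf t h0, zero_mul]

theorem psi_self {f : JL X.N → ℚ} (hf : ∀ t, t.1.1 ≠ ∅ → f t = 0) (t : JL X.N) (h0 : t.1.1 = ∅) :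
    psi f t.1.2.1 t.1.2.2 = f t := by
  rw [psi, Finset.sum_eq_single t]
  · simp [dl]
  · intro s _ hs
    by_cases h1 : s.1.1 = ∅
    · simp only [dl]
      split_ifs with h2 h3
      · exact absurd (Subtype.ext (Prod.ext (h1.trans h0.symm) (Prod.ext h2.symm h3.symm))) hs
      all_goals simp
    · rw [hf s h1, zero_mul]
  · simp

theorem L_eq (hK : LabKit X) {f : JL X.N → ℚ} (hf : ∀ t, t.1.1 ≠ ∅ → f t = 0) (g : G) :
    L X f g =
      (2 * ∑ j ∈ Finset.range 3, ∑ k ∈ Finset.range 3, psi f (X.perm g j) (X.perm g k),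
       2 * ∑ j ∈ Finset.range 5, ∑ k ∈ Finset.range 5, psi f (X.perm g j) (X.perm g k)) := by
  have h1 : ∀ t : JL X.N, f t • X.vL (mkL t.1.1 t.1.2.1 t.1.2.2) g =
      (f t * (2 * X.sI 3 (dl t.1.2.1) g * X.sI 3 (dl t.1.2.2) g),
       f t * (2 * X.sI 5 (dl t.1.2.1) g * X.sI 5 (dl t.1.2.2) g)) := by
    intro t
    by_cases h0 : t.1.1 = ∅
    · rw [h0, hK.pair _ _ (JL_lt t).ne]; rfl
    · simp [hf t h0, Prod.ext_iff]
  have h2 : ∀ n, ∑ t : JL X.N, f t * (2 * X.sI n (dl t.1.2.1) g * X.sI n (dl t.1.2.2) g) =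
      2 * ∑ j ∈ Finset.range n, ∑ k ∈ Finset.range n, psi f (X.perm g j) (X.perm g k) := by
    intro n
    simp only [psi]
    rw [Finset.sum_congr rfl fun j _ => Finset.sum_comm, Finset.sum_comm, Finset.mul_sum]
    refine Finset.sum_congr rfl fun t _ => ?_
    simp only [XSys.sI, ← Finset.mul_sum, ← Finset.sum_mul]
    ring
  simp only [L, h1]
  exact Prod.ext (by rw [Prod.fst_sum, h2]) (by rw [Prod.snd_sum, h2])

end IndepA

open IndepA in
theorem sIndep : SZar → SSsyt → SChi → SIndep := by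
  intro hZ hS hC G H _ _ X hK a b hab
  rw [Fintype.linearIndependent_iff]
  intro f h
  have h6 := X.h6
  set fs := f (.inl ()) with hfs
  set fL : JL X.N → ℚ := fun t => f (.inr (.inl t)) with hfL
  set f1 : J1 X.N → ℚ := fun t => f (.inr (.inr (.inl t))) with hf1
  set f2 : J2 X.N → ℚ := fun t => f (.inr (.inr (.inr t))) with hf2
  have w01 : W X (X.c 0) (X.c 1) = 1 := by rw [W_c X (by omega) (by omega)]; simp
  have w23 : W X (X.c 0 + X.c 2) (X.c 3) = 1 := by
    rw [map_add, AddMonoidHom.add_apply, W_c X (by omega) (by omega), W_c X (by omega) (by omega)]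
    simp
  have hz : ∀ g x y, K X f2 x y + (B X f1 (X.perm g 0) x y + B X f1 (X.perm g 1) x y +
      B X f1 (X.perm g 2) x y + (fs * a + (L X fL g).1) * W X x y) * W X x y = 0 := by
    intro g x y
    have := zar X hZ hK (ι := J2 X.N ⊕ Unit)
      (Sum.elim (fun t => f2 t • PL X (X.c t.1.1) (X.c t.1.2.1)) fun _ =>
        B X f1 (X.perm g 0) + B X f1 (X.perm g 1) + B X f1 (X.perm g 2) +
          (fs * a + (L X fL g).1) • W X)
      (Sum.elim (fun t => PL X (X.c t.1.2.2.1) (X.c t.1.2.2.2)) fun _ => W X)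
      (by rintro (t | t) x <;> simp [PL_self, B_self, W_self])
      (by rintro (t | t) x <;> simp [PL_self, W_self]) g (fun β h1 h2 => ?_) x y
    · simpa only [Fintype.sum_sum_type, Sum.elim_inl, Sum.elim_inr, Finset.univ_unique,
        Finset.sum_singleton, AddMonoidHom.add_apply, AddMonoidHom.smul_apply, smul_eq_mul,
        PL_apply, K, mul_assoc] using this
    · have h3 := e1 h (β * g)
      rw [L_orbit X _ h2, map_mul X.perm, h1, one_mul] at h3
      simp only [Fintype.sum_sum_type, Sum.elim_inl, Sum.elim_inr, Finset.univ_unique,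
        Finset.sum_singleton, AddMonoidHom.add_apply, AddMonoidHom.smul_apply, smul_eq_mul,
        PL_apply, mul_assoc, W_rho, w01]
      simp only [Finset.sum_range_succ, Finset.sum_range_zero, K] at h3
      linarith
  set μ : ℕ → ℚ := fun i => B X f1 i (X.c 0) (X.c 1) with hμ
  have hB : ∀ i ≤ X.N, ∀ x y, B X f1 i x y = μ i * W X x y := by
    intro i hi x y
    by_cases h0 : i = 0
    · simp only [hμ, h0, B_zero, zero_mul]
    obtain ⟨k, l, -, hk, hl, -, a1, -, -, a4, a5, a6, a7, -, -⟩ := three_more 0 i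
    obtain ⟨g, p0, p1, p2⟩ := hK.three 0 k l (by omega) (by omega) (by omega) a4.symm a6.symm a1
    obtain ⟨g', q0, q1, q2⟩ := hK.three i k l hi (by omega) (by omega) a5.symm a7.symm a1
    have h1 := div_W X (B X f1 i + ((L X fL g').1 - (L X fL g).1) • W X) fun x y => by
      have b1 := hz g x y
      have b2 := hz g' x y
      rw [p0, p1, p2, B_zero] at b1
      rw [q0, q1, q2] at b2
      simp only [AddMonoidHom.add_apply, AddMonoidHom.smul_apply, smul_eq_mul]
      linear_combination b2 - b1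
    have h2 := h1 x y
    have h3 := h1 (X.c 0) (X.c 1)
    simp only [AddMonoidHom.add_apply, AddMonoidHom.smul_apply, smul_eq_mul, w01] at h2 h3
    simp only [hμ]
    linear_combination h2 - W X x y * h3
  set κ : ℚ := K X f2 (X.c 0) (X.c 1) with hκ
  have hKq : K X f2 = fun x y => κ * W X x y ^ 2 := by
    funext x y
    have b1 := hz 1 x y
    have b2 := hz 1 (X.c 0) (X.c 1)
    simp only [hB _ (hK.le 1 0 (by omega)), hB _ (hK.le 1 1 (by omega)),
      hB _ (hK.le 1 2 (by omega)), w01] at b1 b2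
    linear_combination b1 - W X x y ^ 2 * b2
  have E1 : ∀ g, (L X fL g).1 = -(fs * a) - ∑ j ∈ Finset.range 3, μ (X.perm g j) - κ := by
    intro g
    have h3 := e1 h g
    rw [Finset.sum_congr rfl fun j hj => hB _ (hK.le g j (by
      have := Finset.mem_range.1 hj; omega)) _ _, hKq] at h3
    simp only [W_rho, w01, mul_one, one_pow] at h3
    linarith
  have E2 : ∀ g, (L X fL g).2 =
      -(fs * b) - 2 * ∑ j ∈ Finset.range 5, μ (X.perm g j) - 10 * κ / 3 := by
    intro g
    have h3 := e2 h g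
    rw [Finset.sum_congr rfl fun j hj => hB _ (hK.le g j (by
      have := Finset.mem_range.1 hj; omega)) _ _, Finset.sum_congr rfl fun j hj => hB _ (hK.le g j
      (by have := Finset.mem_range.1 hj; omega)) (X.ρ g (X.c 0 + X.c 2)) _, hKq, two_W] at h3
    simp only [W_rho, w01, w23, mul_one] at h3
    linarith
  have hL := hC G H X hK fL (fun s => (-(fs * a) - ∑ j ∈ Finset.range 3, μ (s j) - κ,
    -(fs * b) - 2 * ∑ j ∈ Finset.range 5, μ (s j) - 10 * κ / 3)) fun g => Prod.ext (E1 g) (E2 g)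
  have hα := fun i j hi hj hij => const_of_triples (N := X.N) (by omega)
    (fun c d => 2 * (psi fL c d + psi fL d c) + (μ c + μ d) / 2 + κ / 3) (-(fs * a))
    (fun i j k hi hj hk a1 a2 a3 => by
      obtain ⟨g, p0, p1, p2⟩ := hK.three i j k hi hj hk a1 a2 a3
      have h3 := E1 g
      rw [L_eq hK hL] at h3
      simp only [Finset.sum_range_succ, Finset.sum_range_zero, p0, p1, p2,
        psi_ge fL le_rfl] at h3
      linarith) (i := i) (j := j) hi hj hij
  have hs : fs = 0 := by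
    have h3 := E2 1
    rw [L_eq hK hL] at h3
    simp only [Finset.sum_range_succ, Finset.sum_range_zero, map_one, Equiv.Perm.one_apply,
      psi_ge fL le_rfl] at h3
    have h4 : fs * (10 * a - 3 * b) = 0 := by
      linarith [hα 0 1 (by omega) (by omega) (by omega), hα 0 2 (by omega) (by omega) (by omega),
        hα 0 3 (by omega) (by omega) (by omega), hα 0 4 (by omega) (by omega) (by omega),
        hα 1 2 (by omega) (by omega) (by omega), hα 1 3 (by omega) (by omega) (by omega),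
        hα 1 4 (by omega) (by omega) (by omega), hα 2 3 (by omega) (by omega) (by omega),
        hα 2 4 (by omega) (by omega) (by omega), hα 3 4 (by omega) (by omega) (by omega)]
    exact (mul_eq_zero.1 h4).resolve_right (sub_ne_zero.2 hab)
  have hμ0 : μ 0 = 0 := B_zero X _ _ _
  have hμd : ∀ d, 1 ≤ d → d ≤ X.N → μ d = -(2 * κ / 3) := by
    intro d h1 h2
    have h3 := hα 0 d (by omega) h2 (by omega)
    rw [psi_drop hL (.inl rfl), psi_ge fL (Nat.zero_le d), hμ0, hs] at h3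
    linarith
  have hκ0 : κ = 0 := by
    have h3 := hα 1 2 (by omega) (by omega) (by omega)
    rw [psi_drop hL (.inr ⟨rfl, rfl⟩), psi_ge fL (by omega), hμd 1 le_rfl (by omega),
      hμd 2 (by omega) (by omega), hs] at h3
    linarith
  have hμa : ∀ d ≤ X.N, μ d = 0 := by
    intro d hd
    rcases Nat.eq_zero_or_pos d with rfl | h1
    · exact hμ0
    · rw [hμd d h1 hd, hκ0]; norm_num
  rintro (t | t | t | t)
  · exact hs
  · by_cases h0 : t.1.1 = ∅
    · have h1 := (Finset.mem_filter.1 t.2).2.1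
      have h3 := hα _ _ h1.2.2.1 h1.2.2.2.1 (JL_lt t).ne
      rw [psi_self hL t h0, psi_ge fL (JL_lt t).le, hμa _ h1.2.2.1, hμa _ h1.2.2.2.1, hκ0, hs] at h3
      have : fL t = 0 := by linarith
      exact this
    · exact hL t h0
  · have h1 : t.1.1 ≤ X.N := Nat.lt_succ_iff.1 (Finset.mem_range.1
      (Finset.mem_product.1 (Finset.mem_filter.1 t.2).1).1)
    exact (hS G H X).1 f1 t.1.1 (fun x y => by
      rw [← B_apply, hB _ h1, hμa _ h1, zero_mul]) t rfl
  · exact congrFun ((hS G H X).2 f2 fun x y => by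
      have := congrFun (congrFun hKq x) y
      rwa [hκ0, zero_mul] at this) t

end Pool.Agent.MP_00906f_gt.H33E
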