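import Pool.Agent.MP_00906f_gt.H33E.Spec

/-! The facts on places and labels. -/

namespace Pool.Agent.MP_00906f_gt.H33E

open H46 H46.FinAux

namespace LabA

/-- conditional change of sign -/
def cf (b : Bool) (x : Lab) : Lab := if b then x.flip else x

theorem cf_cf (b b' : Bool) (x : Lab) : cf b (cf b' x) = cf (xor b b') x := by
  cases b <;> cases b' <;> simp [cf, Lab.flip_flip]

theorem cf_R (b : Bool) (x : Lab) : cf b x = .R ↔ x = .R := by
  cases b <;> cases x <;> simp [cf, Lab.flip]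

theorem cf_ty (b : Bool) (x : Lab) : (cf b x).ty = x.ty := by
  cases b <;> cases x <;> simp [cf, Lab.flip, Lab.ty]

theorem act_eq (x y : Lab) : labR.act x y = cf (decide (x = .R)) y := by
  by_cases h : x = .R <;> simp [labR, cf, h, Lab.flipE]

theorem act_inv (x y : Lab) : (labR.act x)⁻¹ y = cf (decide (x = .R)) y := by
  rw [Equiv.Perm.inv_eq_iff_eq, act_eq, cf_cf]
  simp [cf]

variable {G H : Type} [Group G] [AddCommGroup H] (X : XSys G H)

/-- the structure of the action on labels -/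
def Str (g : G) : Prop := ∃ e : (ℕ → Lab) → ℕ → Bool,
  (∀ l l' : ℕ → Lab, (∀ j, l j = .R ↔ l' j = .R) → e l = e l') ∧
  (∀ l : ℕ → Lab, (∀ j, l j ≠ .R) → ∀ j, e l j = false) ∧
  ∀ l j, X.lab g⁻¹ l j = cf (e l j) (l (X.perm g j))

theorem str (g : G) : Str X g := by
  have hg := X.top g
  unfold Sys.B BB at hg
  induction hg using Subgroup.closure_induction'' with
  | mem x hx =>
    obtain ⟨i, hi, rfl⟩ := hx
    refine ⟨fun l j => decide (j = i + 1 ∧ l (i + 1) = .R), fun l l' h => ?_, fun l h j => ?_,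
      fun l j => ?_⟩
    · funext j; simp [h]
    · simp [h]
    · rw [map_inv, X.lab_σ i hi, X.perm_σ i hi, Rk.hur_inv_apply, act_inv, Equiv.swap_apply_def]
      by_cases h0 : j = i
      · simp [h0, cf]
      · by_cases h1 : j = i + 1 <;> simp [h0, h1, cf]
  | inv_mem x hx =>
    obtain ⟨i, hi, rfl⟩ := hx
    refine ⟨fun l j => decide (j = i ∧ l i = .R), fun l l' h => ?_, fun l h j => ?_,
      fun l j => ?_⟩
    · funext j; simp [h]
    · simp [h]
    · rw [inv_inv, map_inv, X.lab_σ i hi, X.perm_σ i hi, Rk.hur_apply, act_eq, Equiv.swap_inv,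
        Equiv.swap_apply_def]
      by_cases h0 : j = i
      · simp [h0, cf]
      · by_cases h1 : j = i + 1 <;> simp [h0, h1, cf]
  | one => exact ⟨fun _ _ => false, fun _ _ _ => rfl, fun _ _ _ => rfl, fun l j => by simp [cf]⟩
  | mul x y _ _ hx hy =>
    obtain ⟨e, e1, e2, e3⟩ := hx
    obtain ⟨f, f1, f2, f3⟩ := hy
    refine ⟨fun l j => xor (f (X.lab x⁻¹ l) j) (e l (X.perm y j)), fun l l' h => ?_,
      fun l h j => ?_, fun l j => ?_⟩
    · funext j
      simp only []
      rw [e1 l l' h, f1 (X.lab x⁻¹ l) (X.lab x⁻¹ l') fun j => by rw [e3, e3, cf_R, cf_R, h]]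
    · simp only []
      rw [e2 l h, f2 _ fun j => by rw [e3, Ne, cf_R]; exact h _]
      rfl
    · rw [mul_inv_rev, map_mul, Equiv.Perm.mul_apply, f3, e3, cf_cf, map_mul,
        Equiv.Perm.mul_apply]

theorem ty (g : G) (l : ℕ → Lab) (j : ℕ) : (X.lab g⁻¹ l j).ty = (l (X.perm g j)).ty := by
  obtain ⟨e, -, -, e3⟩ := str X g
  rw [e3, cf_ty]

theorem isR (g : G) (l : ℕ → Lab) (j : ℕ) : X.lab g⁻¹ l j = .R ↔ l (X.perm g j) = .R := by
  obtain ⟨e, -, -, e3⟩ := str X g
  rw [e3, cf_R]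

theorem flip (g : G) (ε : ℕ → Bool) (l : ℕ → Lab) :
    X.lab g⁻¹ (fl ε l) = fl (fun j => ε (X.perm g j)) (X.lab g⁻¹ l) := by
  obtain ⟨e, e1, -, e3⟩ := str X g
  funext j
  show _ = cf _ _
  rw [e3, e3, e1 (fl ε l) l fun j => cf_R _ _]
  show cf _ (cf _ _) = _
  rw [cf_cf, cf_cf, Bool.xor_comm]

theorem noR (g : G) (l : ℕ → Lab) (h : ∀ j, l j ≠ Lab.R) :
    X.lab g⁻¹ l = fun j => l (X.perm g j) := by
  obtain ⟨e, -, e2, e3⟩ := str X g
  funext j
  rw [e3, e2 l h]
  rfl

theorem nat (f : Lab → Lab) (h1 : ∀ x, f x.flip = (f x).flip) (h2 : ∀ x, f x = .R ↔ x = .R)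
    (g : G) (l : ℕ → Lab) : X.lab g⁻¹ (fun j => f (l j)) = fun j => f (X.lab g⁻¹ l j) := by
  obtain ⟨e, e1, -, e3⟩ := str X g
  funext j
  rw [e3, e3, e1 (fun j => f (l j)) l fun j => h2 _]
  cases e l j <;> simp [cf, h1]

theorem sq' (β : G) (h : X.perm β = 1) : X.lab (β ^ 2) = 1 := by
  obtain ⟨e, e1, -, e3⟩ := str X β
  have : X.lab (β ^ 2)⁻¹ = 1 := by
    ext l j
    rw [sq, mul_inv_rev, map_mul, Equiv.Perm.mul_apply, e3, e3, cf_cf,
      e1 (X.lab β⁻¹ l) l fun j => by rw [e3, cf_R, h]; rfl, h]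
    simp [cf]
  rwa [map_inv, inv_eq_one] at this

theorem perm_of_lab (k : G) (h : X.lab k = 1) : X.perm k = 1 := by
  ext j
  have := congrFun (noR X k (fun i => if i = j then .C true else .O) fun i => by
    split_ifs <;> simp) j
  rw [map_inv, h] at this
  by_contra h1
  simp only [Equiv.Perm.coe_one, id] at h1
  simp [h1] at this

theorem pa_sq (y : ℕ → Lab) (k : ℕ) : labR.pa y k ^ 2 = 1 := by
  have : ∃ b, ∀ x, labR.pa y k x = cf b x := by
    induction k with
    | zero => exact ⟨false, fun x => rfl⟩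
    | succ k ih =>
      obtain ⟨b, hb⟩ := ih
      exact ⟨_, fun x => by rw [Rk.pa_succ, Equiv.Perm.mul_apply, hb, act_eq, cf_cf]⟩
  obtain ⟨b, hb⟩ := this
  ext x
  rw [sq, Equiv.Perm.mul_apply, hb, hb, cf_cf]
  simp [cf]

theorem lab_up {k : ℕ} (hk : k ≤ X.N) : X.lab (up X.σ k) = up labR.hur k := by
  induction k with
  | zero => exact map_one _
  | succ k ih => rw [up, up, map_mul, ih (by omega), X.lab_σ k (by omega)]

theorem lab_tw {k : ℕ} (hk : k ≤ X.N) : X.lab (up X.σ k ^ (2 * (k + 1))) = 1 := by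
  ext l j
  rw [map_pow, lab_up X hk, Rk.twist2, pa_sq]
  simp

theorem ker (k : G) (hk : k ∈ X.ρ.ker) : X.lab k = 1 := by
  obtain ⟨m, hm⟩ := X.hN
  have h := (Sys.main m X.toSys (by omega)).2.2 k (X.top k) hk
  refine (Subgroup.closure_le X.lab.ker).2 ?_ h
  rintro _ ⟨g, -, ⟨h2, rfl⟩ | ⟨h4, rfl⟩⟩
  · have e : T3 X.σ = up X.σ 2 ^ (2 * (2 + 1)) := by simp [T3, up]
    refine (MonoidHom.normal_ker X.lab).conj_mem _ ?_ g
    rw [MonoidHom.mem_ker, e, lab_tw X h2]
  · have e : T5 X.σ = up X.σ 4 ^ (2 * (4 + 1)) := by simp [T5, up]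
    refine (MonoidHom.normal_ker X.lab).conj_mem _ ?_ g
    rw [MonoidHom.mem_ker, e, lab_tw X h4]

theorem gt (g : G) (j : ℕ) (hj : X.N < j) : X.perm g j = j := by
  have hg := X.top g
  unfold Sys.B BB at hg
  induction hg using Subgroup.closure_induction with
  | mem x hx =>
    obtain ⟨i, hi, rfl⟩ := hx
    have hi' : i < X.N := hi
    rw [X.perm_σ i hi, Equiv.swap_apply_of_ne_of_ne (by omega) (by omega)]
  | one => simp
  | mul x y _ _ hx hy => rw [map_mul, Equiv.Perm.mul_apply, hy, hx]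
  | inv x _ hx => rw [map_inv, Equiv.Perm.inv_eq_iff_eq, hx]

theorem le_of_fix {N : ℕ} (s : Equiv.Perm ℕ) (hs : ∀ j, N ≤ j → s j = j) (j : ℕ) (hj : j < N) :
    s j < N := by
  by_contra h
  have := s.injective (hs (s j) (by omega))
  omega

theorem pt (g : G) (k : ℕ) (x : H) : X.pt (X.perm g k) (X.ρ g x) = X.pt k x := by
  have hg := X.top g
  unfold Sys.B BB at hg
  induction hg using Subgroup.closure_induction generalizing k x with
  | mem y hy =>
    obtain ⟨i, hi, rfl⟩ := hy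
    rw [X.perm_σ i hi, X.ρσ i hi, X.toSys.lat_pt_swap (X.Ltop _) (X.Ltop _) (Nat.ne_add_one i)
      (X.toSys.pair_c hi) rfl, Equiv.swap_apply_self]
  | one => simp
  | mul y z _ _ hy hz => rw [map_mul, Equiv.Perm.mul_apply, X.toSys.lat_ρ_mul, hy, hz]
  | inv y _ hy =>
    rw [← hy, X.toSys.lat_ρ_ρ_inv, map_inv]
    simp

theorem swap_mem (a b : ℕ) (hab : a ≤ b) (hb : b ≤ X.N) : Equiv.swap a b ∈ X.perm.range := by
  induction b, hab using Nat.le_induction with
  | base => rw [Equiv.swap_self]; exact one_mem _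
  | succ b hab ih =>
    have h1 : Equiv.swap b (b + 1) ∈ X.perm.range := ⟨_, X.perm_σ b (by omega)⟩
    rcases hab.eq_or_lt with rfl | h
    · exact h1
    · have e := Equiv.swap_mul_swap_mul_swap (x := a) (y := b) (z := b + 1) (by omega) (by omega)
      rw [Equiv.swap_comm (b + 1) a] at e
      rw [← e]
      exact mul_mem (mul_mem h1 (ih (by omega))) h1

theorem surj_aux (M : ℕ) (hM : M ≤ X.N + 1) (s : Equiv.Perm ℕ) (hs : ∀ j, M ≤ j → s j = j) :
    s ∈ X.perm.range := by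
  induction M generalizing s with
  | zero =>
    have : s = 1 := Equiv.ext fun j => hs j (Nat.zero_le j)
    rw [this]; exact one_mem _
  | succ M ih =>
    have h1 := le_of_fix s hs M (by omega)
    have h2 := swap_mem X (s M) M (by omega) (by omega)
    have h3 := ih (by omega) (Equiv.swap (s M) M * s) fun j hj => by
      rcases hj.eq_or_lt with rfl | h
      · simp
      · rw [Equiv.Perm.mul_apply, hs j h, Equiv.swap_apply_of_ne_of_ne (by omega) (by omega)]
    have := mul_mem h2 h3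
    rwa [Equiv.swap_mul_self_mul] at this

theorem surj (s : Equiv.Perm ℕ) (hs : ∀ j, X.N < j → s j = j) : ∃ g, X.perm g = s :=
  surj_aux X (X.N + 1) le_rfl s hs

theorem three (i j k : ℕ) (hi : i ≤ X.N) (hj : j ≤ X.N) (hk : k ≤ X.N) (hij : i ≠ j)
    (hik : i ≠ k) (hjk : j ≠ k) : ∃ g, X.perm g 0 = i ∧ X.perm g 1 = j ∧ X.perm g 2 = k := by
  have h6 := X.h6
  have step : ∀ (s : Equiv.Perm ℕ) (a b : ℕ), (∀ x, X.N < x → s x = x) → a ≤ X.N → b ≤ X.N →
      ∃ t : Equiv.Perm ℕ, (∀ x, X.N < x → t x = x) ∧ t a = b ∧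
        ∀ x, x ≠ a → s x ≠ b → t x = s x := by
    intro s a b hs ha hb
    refine ⟨s * Equiv.swap a (s⁻¹ b), fun x hx => ?_, by simp, fun x h1 h2 => ?_⟩
    · rw [Equiv.Perm.mul_apply, Equiv.swap_apply_of_ne_of_ne (by omega), hs x hx]
      intro h
      have := hs x hx
      rw [h] at this
      simp only [Equiv.Perm.coe_inv, Equiv.apply_symm_apply] at this
      simp only [Equiv.Perm.coe_inv] at h
      omega
    · rw [Equiv.Perm.mul_apply, Equiv.swap_apply_of_ne_of_ne h1]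
      rintro rfl
      exact h2 (by simp)
  obtain ⟨s, s1, s2, -⟩ := step 1 0 i (fun _ _ => rfl) (by omega) hi
  obtain ⟨t, t1, t2, t3⟩ := step s 1 j s1 (by omega) hj
  have t0 : t 0 = i := by rw [t3 0 (by omega) (by rwa [s2]), s2]
  obtain ⟨u, u1, u2, u3⟩ := step t 2 k t1 (by omega) hk
  obtain ⟨g, rfl⟩ := surj X u u1
  exact ⟨g, by rw [u3 0 (by omega) (by rwa [t0]), t0], by rw [u3 1 (by omega) (by rwa [t2]), t2],
    u2⟩

/-- change of sign of the first marker -/
def fC : Lab → Lab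
  | .C s => .C (!s)
  | x => x

/-- change of sign of the second marker -/
def fD : Lab → Lab
  | .D s => .D (!s)
  | x => x

/-- exchange of the markers -/
def sw : Lab → Lab
  | .C s => .D s
  | .D s => .C s
  | x => x

theorem nR_map (f : Lab → Lab) (h2 : ∀ x, f x = .R ↔ x = .R) (k : ℕ) (l : ℕ → Lab) :
    nR k (fun j => f (l j)) = nR k l := by
  simp only [nR, h2]

theorem lval_map (f : Lab → Lab) (h2 : ∀ x, f x = .R ↔ x = .R) (u v : ℚ)
    (ha : ∀ x, (f x).al = u * x.al) (hb : ∀ x, (f x).be = v * x.be) (N k : ℕ) (l : ℕ → Lab) :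
    lval N k (fun j => f (l j)) = u * v * lval N k l := by
  simp only [lval, nR_map f h2, ha, hb, ← Finset.mul_sum]
  split_ifs <;> ring

theorem vL_map (f : Lab → Lab) (h1 : ∀ x, f x.flip = (f x).flip) (h2 : ∀ x, f x = .R ↔ x = .R)
    (u v : ℚ) (ha : ∀ x, (f x).al = u * x.al) (hb : ∀ x, (f x).be = v * x.be) (l : ℕ → Lab)
    (g : G) : X.vL (fun j => f (l j)) g = (u * v) • X.vL l g := by
  simp only [XSys.vL, nat X f h1 h2, lval_map f h2 u v ha hb, Prod.smul_mk, smul_eq_mul]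

theorem vL_C (l : ℕ → Lab) (g : G) : X.vL (fun j => fC (l j)) g = (-1 : ℚ) • X.vL l g := by
  rw [vL_map X fC (fun x => by cases x <;> rfl) (fun x => by cases x <;> simp [fC]) (-1) 1
    (fun x => by rcases x with _ | _ | s | s <;> (try cases s) <;> simp [fC, Lab.al])
    (fun x => by cases x <;> simp [fC, Lab.be]), mul_one]

theorem vL_D (l : ℕ → Lab) (g : G) : X.vL (fun j => fD (l j)) g = (-1 : ℚ) • X.vL l g := by
  rw [vL_map X fD (fun x => by cases x <;> rfl) (fun x => by cases x <;> simp [fD]) 1 (-1)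
    (fun x => by cases x <;> simp [fD, Lab.al])
    (fun x => by rcases x with _ | _ | s | s <;> (try cases s) <;> simp [fD, Lab.be]), one_mul]

theorem symm (A : Finset ℕ) (c d : ℕ) (h : c ≠ d) : X.vL (mkL A c d) = X.vL (mkL A d c) := by
  have e : mkL A d c = fun j => sw (mkL A c d j) := by
    funext j
    simp only [mkL]
    split_ifs with h1 h2 <;> first | rfl | omega
  have h2 : ∀ x, sw x = .R ↔ x = .R := fun x => by cases x <;> simp [sw]
  have ha : ∀ x, (sw x).al = x.be := fun x => by cases x <;> rfl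
  have hb : ∀ x, (sw x).be = x.al := fun x => by cases x <;> rfl
  funext g
  simp only [XSys.vL, e, nat X sw (fun x => by cases x <;> rfl) h2, lval, nR_map sw h2, ha, hb]
  refine Prod.ext ?_ ?_ <;> simp only [] <;> split_ifs <;> ring

theorem lab_sq (l : ℕ → Lab) : X.lab (X.σ 0 ^ 2)⁻¹ l =
    fl (fun j => decide ((j = 0 ∧ l 1 = .R) ∨ (j = 1 ∧ l 0 = .R))) l := by
  have h6 := X.h6
  funext j
  rw [sq, mul_inv_rev, map_mul, Equiv.Perm.mul_apply, map_inv, X.lab_σ 0 (by omega)]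
  show _ = cf _ _
  simp only [Rk.hur_inv_apply, act_inv]
  by_cases h0 : j = 0
  · simp [h0]
  · by_cases h1 : j = 1
    · simp [h1, cf_R]
    · simp [h0, h1, cf]

theorem mkL_R {A : Finset ℕ} {c d : ℕ} (hc : c ∉ A) (hd : d ∉ A) (p : ℕ) :
    mkL A c d p = .R ↔ p ∈ A := by
  simp only [mkL]
  split_ifs with h1 h2 h3
  · simp [h1, hc]
  · simp [h2, hd]
  · simp [h3]
  · simp [h3]

theorem eig (γ : G) (A : Finset ℕ) (c d : ℕ) (h : LabIdx X.N A c d) (g : G) :
    X.vL (mkL A c d) (γ * X.σ 0 ^ 2 * γ⁻¹ * g) =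
      chi A c d (X.perm γ 0) (X.perm γ 1) • X.vL (mkL A c d) g := by
  obtain ⟨-, -, -, -, hcd, hc, hd, -⟩ := h
  set p := X.perm γ 0 with hp
  set q := X.perm γ 1 with hq
  have e : X.lab (γ * X.σ 0 ^ 2 * γ⁻¹)⁻¹ (mkL A c d) =
      fl (fun j => decide ((j = p ∧ q ∈ A) ∨ (j = q ∧ p ∈ A))) (mkL A c d) := by
    rw [mul_inv_rev, mul_inv_rev, map_mul, map_mul, Equiv.Perm.mul_apply, Equiv.Perm.mul_apply,
      lab_sq, flip, ← Equiv.Perm.mul_apply, ← map_mul, inv_mul_cancel, map_one]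
    simp only [isR, mkL_R hc hd]
    simp only [map_inv, Equiv.Perm.inv_eq_iff_eq]
    rfl
  have e2 : X.vL (mkL A c d) (γ * X.σ 0 ^ 2 * γ⁻¹ * g) =
      X.vL (fl (fun j => decide ((j = p ∧ q ∈ A) ∨ (j = q ∧ p ∈ A))) (mkL A c d)) g := by
    simp only [XSys.vL]
    rw [mul_inv_rev (γ * X.σ 0 ^ 2 * γ⁻¹) g, map_mul, Equiv.Perm.mul_apply, e]
  rw [e2]
  by_cases h1 : (c = p ∧ q ∈ A) ∨ (c = q ∧ p ∈ A)
  · have h2 : ¬((d = p ∧ q ∈ A) ∨ (d = q ∧ p ∈ A)) := by
      rcases h1 with ⟨rfl, h1⟩ | ⟨rfl, h1⟩ <;> rintro (⟨rfl, h3⟩ | ⟨rfl, h3⟩) <;> contradiction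
    rw [chi, if_pos (by tauto), ← vL_C]
    congr 1
    funext j
    simp only [fl, mkL]
    by_cases a1 : j = c
    · simp [a1, h1, fC, Lab.flip]
    · by_cases a2 : j = d
      · subst a2
        simp only [h2, a1]
        simp [fC]
      · simp only [a1, a2, if_false]
        split_ifs <;> rfl
  · by_cases h2 : (d = p ∧ q ∈ A) ∨ (d = q ∧ p ∈ A)
    · rw [chi, if_pos (by tauto), ← vL_D]
      congr 1
      funext j
      simp only [fl, mkL]
      by_cases a1 : j = c
      · subst a1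
        simp only [h1]
        simp [fD]
      · by_cases a2 : j = d
        · subst a2
          simp [a1, h2, fD, Lab.flip]
        · simp only [a1, a2, if_false]
          split_ifs <;> rfl
    · rw [chi, if_neg (by tauto), one_smul]
      congr 1
      funext j
      simp only [fl, mkL]
      by_cases a1 : j = c
      · subst a1
        simp [h1]
      · by_cases a2 : j = d
        · subst a2
          simp [h2]
        · simp only [a1, a2, if_false]
          split_ifs <;> rfl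

theorem ne (A : Finset ℕ) (c d : ℕ) (h : LabIdx X.N A c d) :
    ∃ g, (X.vL (mkL A c d) g).1 ≠ 0 := by
  obtain ⟨-, h2, hc, hd, hcd, -, -, -⟩ := h
  have h6 := X.h6
  obtain ⟨e, he, he'⟩ : ∃ e, e ∈ Finset.range (X.N + 1) ∧ e ∉ insert c (insert d A) := by
    refine Finset.exists_mem_notMem_of_card_lt_card ?_
    have a1 := Finset.card_insert_le c (insert d A)
    have a2 := Finset.card_insert_le d A
    rw [Finset.card_range]
    omega
  simp only [Finset.mem_insert, not_or, Finset.mem_range] at he he'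
  obtain ⟨g, g0, g1, g2⟩ := three X c d e hc hd (by omega) hcd (Ne.symm he'.1) (Ne.symm he'.2.1)
  refine ⟨g, ?_⟩
  have t0 := ty X g (mkL A c d) 0
  have t1 := ty X g (mkL A c d) 1
  have t2 := ty X g (mkL A c d) 2
  rw [g0] at t0
  rw [g1] at t1
  rw [g2] at t2
  simp only [mkL, if_true, if_neg hcd.symm, if_neg he'.1, if_neg he'.2.1, if_neg he'.2.2] at t0 t1 t2
  simp only [XSys.vL]
  generalize X.lab g⁻¹ (mkL A c d) = l at *
  obtain ⟨s, hs⟩ : ∃ s, l 0 = .C s := by
    rcases h : l 0 with _ | _ | s | s <;> simp [h, Lab.ty] at t0 ⊢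
  obtain ⟨t, ht⟩ : ∃ s, l 1 = .D s := by
    rcases h : l 1 with _ | _ | s | s <;> simp [h, Lab.ty] at t1 ⊢
  have hu : l 2 = .O := by
    rcases h : l 2 with _ | _ | s | s <;> simp [h, Lab.ty] at t2 ⊢
  have hn : nR 3 l = 0 := by
    simp [nR, Finset.range_add_one, Finset.filter_insert, hs, ht, hu]
  cases s <;> cases t <;> simp [lval, hn, Finset.sum_range_succ, hs, ht, hu, Lab.al, Lab.be]

theorem pair (c d : ℕ) (h : c ≠ d) (g : G) : X.vL (mkL ∅ c d) g =
    (2 * X.sI 3 (dl c) g * X.sI 3 (dl d) g, 2 * X.sI 5 (dl c) g * X.sI 5 (dl d) g) := by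
  have hR : ∀ j, mkL ∅ c d j ≠ .R := fun j => by
    rw [Ne, mkL_R (Finset.notMem_empty c) (Finset.notMem_empty d)]
    exact Finset.notMem_empty j
  have ha : ∀ j, (mkL ∅ c d j).al = dl c j := fun j => by
    simp only [mkL, dl]
    split_ifs <;> simp [Lab.al]
  have hb : ∀ j, (mkL ∅ c d j).be = dl d j := fun j => by
    simp only [mkL, dl]
    split_ifs <;> first | omega | simp [Lab.be]
  simp only [XSys.vL, noR X g _ hR]
  simp [lval, nR, hR, ha, hb, XSys.sI]

end LabA

open LabA in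
theorem sLab : SLab := fun _ _ _ _ X =>
  { le := fun g j hj => Nat.lt_succ_iff.1 (le_of_fix (X.perm g) (gt X g) j (Nat.lt_succ_of_le hj))
    gt := gt X
    pt := pt X
    surj := surj X
    three := three X
    ty := ty X
    flip := flip X
    sq := sq' X
    ker := fun k hk => ⟨perm_of_lab X k (ker X k hk), ker X k hk⟩
    noR := noR X
    eig := eig X
    ne := ne X
    symm := symm X
    pair := pair X }

end Pool.Agent.MP_00906f_gt.H33E
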