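import Pool.Agent.MP_00906f_gt.H33E.Spec

/-! Row MeyA: the angle cocycle of the symplectic group along transvections. -/

namespace Pool.Agent.MP_00906f_gt.H33E

open H46 H46.FinAux

namespace MeyAA

open Complex Matrix

variable {g : ℕ}

/-- A state: a real structure on the lattice. -/
abbrev St (g : ℕ) : Type := Hom1 g →+ (Fin g → ℂ)

/-- The state after a real multiple of a transvection. -/
noncomputable def up (φ : St g) (v : Hom1 g) (s : ℝ) : St g where
  toFun x := φ x + (s * (om g x v : ℤ)) • φ v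
  map_zero' := by simp
  map_add' x y := by
    simp only [map_add, LinearMap.add_apply, Int.cast_add]
    module

theorem up_apply (φ : St g) (v : Hom1 g) (s : ℝ) (x : Hom1 g) :
    up φ v s x = φ x + (s * (om g x v : ℤ)) • φ v := rfl

def ee (k : Fin g) : Hom1 g := (Pi.single k 1, 0)

def ff (k : Fin g) : Hom1 g := (0, Pi.single k 1)

theorem om_ee (k : Fin g) (v : Hom1 g) : om g (ee k) v = v.2 k := by
  show form _ _ = _
  simp [form, ee, Pi.single_apply]

theorem om_ff (k : Fin g) (v : Hom1 g) : om g (ff k) v = -v.1 k := by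
  show form _ _ = _
  simp [form, ff, Pi.single_apply]

noncomputable def Mx (φ : St g) : Matrix (Fin g) (Fin g) ℂ :=
  Matrix.of fun a k => φ (ee k) a - I * φ (ff k) a

noncomputable def dt (φ : St g) : ℂ := (Mx φ).det

/-- The standard symplectic form. -/
noncomputable def Om (g : ℕ) : (Fin g → ℂ) →ₗ[ℝ] (Fin g → ℂ) →ₗ[ℝ] ℝ :=
  LinearMap.mk₂ ℝ (fun z w => ∑ a, ((z a).re * (w a).im - (z a).im * (w a).re))
    (fun x y z => by
      simp only [← Finset.sum_add_distrib]
      exact Finset.sum_congr rfl fun i _ => by simp; ring)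
    (fun c x y => by
      simp only [smul_eq_mul, Finset.mul_sum]
      exact Finset.sum_congr rfl fun i _ => by simp; ring)
    (fun x y z => by
      simp only [← Finset.sum_add_distrib]
      exact Finset.sum_congr rfl fun i _ => by simp; ring)
    (fun c x y => by
      simp only [smul_eq_mul, Finset.mul_sum]
      exact Finset.sum_congr rfl fun i _ => by simp; ring)

theorem Om_apply (z w : Fin g → ℂ) :
    Om g z w = ∑ a, ((z a).re * (w a).im - (z a).im * (w a).re) := rfl

/-- Symplectic states. -/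
def Sy (φ : St g) : Prop := ∀ x y, Om g (φ x) (φ y) = (om g x y : ℤ)

theorem Sy.up {φ : St g} (h : Sy φ) (v : Hom1 g) (s : ℝ) : Sy (up φ v s) := by
  intro x y
  simp only [up_apply, map_add, map_smul, LinearMap.add_apply, LinearMap.smul_apply, h x y, h x v,
    h v y, h v v, om_self, om_skew v y, smul_eq_mul]
  push_cast
  ring

theorem Sy.dt_ne {φ : St g} (h : Sy φ) : dt φ ≠ 0 := by
  intro h0
  obtain ⟨c, hc, hM⟩ := Matrix.exists_mulVec_eq_zero_iff.2 h0
  set A : Fin g → ℂ := ∑ k, ((c k).re • φ (ee k) + (c k).im • φ (ff k)) with hA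
  set B : Fin g → ℂ := ∑ k, (-(c k).im • φ (ee k) + (c k).re • φ (ff k)) with hB
  have hAB : ∀ a, A a = I * B a := by
    intro a
    have h1 := congrFun hM a
    simp only [Matrix.mulVec, dotProduct, Mx, Matrix.of_apply, Pi.zero_apply] at h1
    rw [← sub_eq_zero, ← h1, hA, hB, Finset.sum_apply, Finset.sum_apply, Finset.mul_sum,
      ← Finset.sum_sub_distrib]
    refine Finset.sum_congr rfl fun k _ => ?_
    simp only [Pi.add_apply, Pi.smul_apply, Complex.real_smul]
    conv_rhs => rw [← Complex.re_add_im (c k)]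
    push_cast
    linear_combination ((c k).im * φ (ff k) a) * Complex.I_mul_I
  have h1 : Om g A B = ∑ k, ((c k).re ^ 2 + (c k).im ^ 2) := by
    simp only [hA, hB, map_sum, LinearMap.sum_apply, map_add, map_smul, LinearMap.add_apply,
      LinearMap.smul_apply, h _ _, om_ee, om_ff, smul_eq_mul]
    refine Finset.sum_congr rfl fun k _ => ?_
    simp [ee, ff, Pi.single_apply]
    ring
  have h2 : Om g A B ≤ 0 := by
    rw [Om_apply]
    refine Finset.sum_nonpos fun a _ => ?_
    rw [hAB a]
    simp only [Complex.mul_re, Complex.mul_im, Complex.I_re, Complex.I_im]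
    nlinarith [sq_nonneg (B a).re, sq_nonneg (B a).im]
  have h3 := (Finset.sum_eq_zero_iff_of_nonneg (s := Finset.univ)
    (f := fun k => (c k).re ^ 2 + (c k).im ^ 2) fun k _ => by positivity).1
    (le_antisymm (h1 ▸ h2) (Finset.sum_nonneg fun k _ => by positivity))
  refine hc (funext fun k => ?_)
  have h4 := h3 k (Finset.mem_univ k)
  apply Complex.ext
  · simpa using (by nlinarith [sq_nonneg (c k).re, sq_nonneg (c k).im] : (c k).re ^ 2 = 0)
  · simpa using (by nlinarith [sq_nonneg (c k).re, sq_nonneg (c k).im] : (c k).im ^ 2 = 0)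

theorem dt_up {φ : St g} (h : Sy φ) (v : Hom1 g) :
    ∃ z : ℂ, ∀ s : ℝ, dt (up φ v s) = dt φ * (1 + s * z) := by
  set r : Fin g → ℂ := fun k => (v.2 k : ℂ) + I * (v.1 k : ℂ) with hr
  refine ⟨(replicateRow Unit r * (Mx φ)⁻¹ * replicateCol Unit (φ v)) () (), fun s => ?_⟩
  have h1 : Mx (up φ v s) = Mx φ + replicateCol Unit ((s : ℂ) • φ v) * replicateRow Unit r := by
    ext a k
    simp [Mx, up_apply, om_ee, om_ff, Matrix.mul_apply, hr]
    ring
  rw [dt, h1, det_add_replicateCol_mul_replicateRow (isUnit_iff_ne_zero.2 h.dt_ne), dt,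
    replicateCol_smul, Matrix.mul_smul, det_unique (n := Unit)]
  simp

theorem slit {φ : St g} (h : Sy φ) (v : Hom1 g) (s : ℝ) : dt (up φ v s) / dt φ ∈ slitPlane := by
  obtain ⟨z, hz⟩ := dt_up h v
  rw [hz, mul_div_cancel_left₀ _ h.dt_ne, mem_slitPlane_iff]
  by_contra hn
  push Not at hn
  obtain ⟨h1, h2⟩ := hn
  simp only [add_re, one_re, mul_re, ofReal_re, ofReal_im, zero_mul, sub_zero, add_im, one_im,
    mul_im, add_zero, zero_add, mul_eq_zero] at h1 h2
  rcases h2 with h2 | h2
  · rw [h2] at h1; norm_num at h1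
  · have h3 : z.re ≠ 0 := fun e => by rw [e] at h1; norm_num at h1
    refine (h.up v (-1 / z.re)).dt_ne ?_
    rw [hz]
    apply mul_eq_zero_of_right
    apply Complex.ext
    · simp only [add_re, one_re, mul_re, ofReal_re, ofReal_im, zero_mul, sub_zero, zero_re]
      field_simp
      ring
    · simp [h2]

theorem cont {φ : St g} (h : Sy φ) (v : Hom1 g) : Continuous fun s => dt (up φ v s) := by
  obtain ⟨z, hz⟩ := dt_up h v
  simp only [hz]
  fun_prop

theorem up_zero (φ : St g) (v : Hom1 g) : up φ v 0 = φ := by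
  ext x a
  simp [up_apply]

theorem up_neg (φ : St g) (v : Hom1 g) (s : ℝ) : up φ (-v) s = up φ v s := by
  ext x a
  simp [up_apply]

theorem up_tv (φ : St g) (v x : Hom1 g) : φ (tv v x) = up φ v 1 x := by
  rw [tv_apply, up_apply, map_add, map_zsmul, one_mul, Int.cast_smul_eq_zsmul]

theorem up_up (φ : St g) (u v : Hom1 g) (s : ℝ) :
    up (up φ u 1) v s = up (up φ (tv u v) s) u 1 := by
  refine AddMonoidHom.ext fun x => ?_
  simp only [up_apply, up_tv]
  simp only [tv_apply, map_add, map_smul, om_self, om_skew v u, smul_eq_mul]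
  push_cast
  module

theorem zero_of_int (F : ℝ → ℝ) (hc : Continuous F) (h : ∀ s, ∃ n : ℤ, F s = 2 * Real.pi * n)
    (h0 : F 0 = 0) : F 1 = 0 := by
  obtain ⟨n, hn⟩ := h 1
  have hp := Real.pi_pos
  have key : ∀ t : ℝ, (t = 1 ∨ t = -1) → ∀ s, F s ≠ t * Real.pi := by
    intro t ht s e
    obtain ⟨m, hm⟩ := h s
    have h1 : t = 2 * m := mul_right_cancel₀ hp.ne' (by rw [← e, hm]; ring)
    rcases ht with rfl | rfl
    · have : (1 : ℤ) = 2 * m := by exact_mod_cast h1
      omega
    · have : (-1 : ℤ) = 2 * m := by exact_mod_cast h1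
      omega
  rcases lt_trichotomy n 0 with hn0 | rfl | hn0
  · have h1 : (n : ℝ) ≤ -1 := by exact_mod_cast (by omega : n ≤ -1)
    obtain ⟨s, hs⟩ := intermediate_value_univ 1 0 hc
      (show -1 * Real.pi ∈ Set.Icc (F 1) (F 0) from ⟨by nlinarith, by nlinarith⟩)
    exact absurd hs (key _ (Or.inr rfl) s)
  · simpa using hn
  · have h1 : (1 : ℝ) ≤ n := by exact_mod_cast (by omega : 1 ≤ n)
    obtain ⟨s, hs⟩ := intermediate_value_univ 0 1 hc
      (show 1 * Real.pi ∈ Set.Icc (F 0) (F 1) from ⟨by nlinarith, by nlinarith⟩)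
    exact absurd hs (key _ (Or.inl rfl) s)

/-- The angle of one step. -/
noncomputable def an (φ : St g) (v : Hom1 g) : ℝ := arg (dt (up φ v 1) / dt φ)

theorem cocycle {φ : St g} (h : Sy φ) (u v : Hom1 g) :
    an φ u + an (up φ u 1) v = an φ (tv u v) + an (up φ (tv u v) 1) u := by
  have hψ := h.up u 1
  have c1 : Continuous fun s => arg (dt (up (up φ u 1) v s) / dt (up φ u 1)) :=
    continuous_iff_continuousAt.2 fun s => ContinuousAt.comp (f := fun s => dt (up (up φ u 1) v s) /
      dt (up φ u 1)) (continuousAt_arg (slit hψ v s)) ((cont hψ v).div_const _).continuousAt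
  have c2 : Continuous fun s => arg (dt (up φ (tv u v) s) / dt φ) :=
    continuous_iff_continuousAt.2 fun s => ContinuousAt.comp (f := fun s => dt (up φ (tv u v) s) /
      dt φ) (continuousAt_arg (slit h _ s)) ((cont h _).div_const _).continuousAt
  have c3 : Continuous fun s => arg (dt (up (up φ u 1) v s) / dt (up φ (tv u v) s)) :=
    continuous_iff_continuousAt.2 fun s => ContinuousAt.comp (f := fun s => dt (up (up φ u 1) v s) /
      dt (up φ (tv u v) s)) (continuousAt_arg (by
        simp only [up_up]; exact slit (h.up _ s) u 1))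
      ((cont hψ v).div (cont h _) fun s => (h.up _ s).dt_ne).continuousAt
  have := zero_of_int (fun s => an φ u + arg (dt (up (up φ u 1) v s) / dt (up φ u 1)) -
    (arg (dt (up φ (tv u v) s) / dt φ) + arg (dt (up (up φ u 1) v s) / dt (up φ (tv u v) s))))
    ((continuous_const.add c1).sub (c2.add c3)) (fun s => by
      rw [← Real.Angle.angle_eq_iff_two_pi_dvd_sub, an, Real.Angle.coe_add, Real.Angle.coe_add,
        arg_div_coe_angle hψ.dt_ne h.dt_ne, arg_div_coe_angle (hψ.up v s).dt_ne hψ.dt_ne,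
        arg_div_coe_angle (h.up _ s).dt_ne h.dt_ne,
        arg_div_coe_angle (hψ.up v s).dt_ne (h.up _ s).dt_ne]
      abel) (by
      simp only [up_zero, an, div_self hψ.dt_ne, div_self h.dt_ne, arg_one]
      ring)
  simp only [an] at this ⊢
  rw [← up_up]
  linarith

/-- The state of an automorphism. -/
noncomputable def st (h : Hom1 g ≃ₗ[ℤ] Hom1 g) : St g where
  toFun x := fun a => ((h x).1 a : ℂ) + ((h x).2 a : ℂ) * I
  map_zero' := by ext a; simp
  map_add' x y := by ext a; simp; ring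

theorem st_mul (h : Hom1 g ≃ₗ[ℤ] Hom1 g) (v : Hom1 g) : st (h * tv v) = up (st h) v 1 :=
  AddMonoidHom.ext fun x => by rw [← up_tv]; rfl

theorem st_sy {h : Hom1 g ≃ₗ[ℤ] Hom1 g} (hh : ∀ x y, om g (h x) (h y) = om g x y) : Sy (st h) := by
  intro x y
  rw [← hh x y, Om_apply]
  show _ = ((form _ _ : ℤ) : ℝ)
  simp [form, st]

/-- The total angle on states. -/
noncomputable def tos : St g → List (Hom1 g) → ℝ
  | _, [] => 0
  | φ, v :: l => an φ v + tos (up φ v 1) l

theorem tot_eq (l : List (Hom1 g)) : ∀ h : Hom1 g ≃ₗ[ℤ] Hom1 g,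
    tot (fun h v => an (st h) v) h l = tos (st h) l := by
  induction l with
  | nil => intro h; rfl
  | cons v l ih => intro h; rw [tot, tos, ih, st_mul]

theorem tos_angle (l : List (Hom1 g)) : ∀ h : Hom1 g ≃ₗ[ℤ] Hom1 g, Sy (st h) →
    (tos (st h) l : Real.Angle) = arg (dt (st (h * (l.map tv).prod))) - arg (dt (st h)) := by
  induction l with
  | nil => intro h _; simp [tos]
  | cons v l ih =>
    intro h hs
    have h1 := ih (h * tv v) (by rw [st_mul]; exact hs.up v 1)
    rw [tos, Real.Angle.coe_add, ← st_mul, h1, an, arg_div_coe_angle (hs.up v 1).dt_ne hs.dt_ne,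
      List.map_cons, List.prod_cons, mul_assoc, st_mul]
    abel

/-- States that are standard away from the place `o`. -/
def Dg (o : Fin g) (φ : St g) (A B : ℂ) : Prop :=
  ∀ k, φ (ee k) = Pi.single k (if k = o then A else 1) ∧
    φ (ff k) = Pi.single k (if k = o then B else I)

theorem Dg.dt {o : Fin g} {φ : St g} {A B : ℂ} (h : Dg o φ A B) :
    dt φ = (A - I * B) * ∏ _k ∈ Finset.univ.erase o, (2 : ℂ) := by
  have h1 : Mx φ = diagonal fun k => if k = o then A - I * B else 2 := by
    ext a k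
    simp only [Mx, of_apply, (h k).1, (h k).2, Pi.single_apply, diagonal_apply]
    by_cases e : a = k
    · subst e
      by_cases e' : a = o
      · simp [e']
      · simp [e']; norm_num
    · simp [e]
  rw [MeyAA.dt, h1, det_diagonal, ← Finset.mul_prod_erase _ _ (Finset.mem_univ o), if_pos rfl]
  congr 1
  exact Finset.prod_congr rfl fun k hk => if_neg (Finset.ne_of_mem_erase hk)

theorem Dg.up_e {o : Fin g} {φ : St g} {A B : ℂ} (h : Dg o φ A B) :
    Dg o (up φ (ee o) 1) A (B - A) := by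
  intro k
  simp only [up_apply, om_ee, om_ff, (h _).1, (h _).2]
  by_cases e : k = o
  · subst e
    refine ⟨by simp [ee], ?_⟩
    ext a
    by_cases e' : a = k
    · subst e'; simp [ee]; ring
    · simp [ee, e']
  · simp [ee, e]

theorem Dg.up_f {o : Fin g} {φ : St g} {A B : ℂ} (h : Dg o φ A B) :
    Dg o (up φ (ff o) 1) (A + B) B := by
  intro k
  simp only [up_apply, om_ee, om_ff, (h _).1, (h _).2]
  by_cases e : k = o
  · subst e
    refine ⟨?_, by simp [ff]⟩
    ext a
    by_cases e' : a = k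
    · subst e'; simp [ff]
    · simp [ff, e']
  · simp [ff, e]

theorem an_eq {o : Fin g} {φ : St g} {A B A' B' r : ℂ} {v : Hom1 g} (h : Dg o φ A B)
    (h' : Dg o (up φ v 1) A' B') (h0 : A - I * B ≠ 0) (hr : A' - I * B' = r * (A - I * B)) :
    an φ v = arg r := by
  have : (∏ _k ∈ Finset.univ.erase o, (2 : ℂ)) ≠ 0 := Finset.prod_ne_zero_iff.2 fun _ _ => two_ne_zero
  rw [an, h.dt, h'.dt, hr, mul_assoc, mul_div_cancel_right₀ _ (mul_ne_zero h0 this)]

theorem arg_add {x y : ℂ} (hx : 0 < x.re) (hx' : 0 ≤ x.im) (hy : 0 < y.re) (hy' : 0 ≤ y.im) :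
    arg x + arg y = arg (x * y) := by
  have h1 := arg_nonneg_iff.2 hx'
  have h2 := arg_nonneg_iff.2 hy'
  have h3 := arg_lt_pi_div_two_iff.2 (Or.inl hx)
  have h4 := arg_lt_pi_div_two_iff.2 (Or.inl hy)
  have hp := Real.pi_pos
  refine ((arg_mul_eq_add_arg_iff (fun e => by simp [e] at hx) fun e => by simp [e] at hy).2
    ⟨by linarith, by linarith⟩).symm

theorem arg_sum : arg (1 + I / 2) + arg ((4 + 3 * I) / 5) + arg ((4 + 2 * I) / 5) = Real.pi / 2 := by
  have h1 : (1 + I / 2) * ((4 + 2 * I) / 5) = (3 + 4 * I) / 5 := by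
    linear_combination (1 / 5 : ℂ) * I_mul_I
  have h2 : (3 + 4 * I) / 5 * ((4 + 3 * I) / 5) = I := by
    linear_combination (12 / 25 : ℂ) * I_mul_I
  rw [add_right_comm, arg_add (by simp) (by simp) (by simp) (by simp; norm_num), h1,
    arg_add (by simp) (by simp; norm_num) (by simp) (by simp; norm_num), h2, arg_I]

theorem six {o : Fin g} {φ : St g} {c : ℂ} (hc : c ≠ 0) (h : Dg o φ c (c * I))
    (l : List (Hom1 g)) : ∃ ψ, Dg o ψ (-c) (-c * I) ∧
      tos φ (ee o :: ff o :: ee o :: ff o :: ee o :: ff o :: l) = Real.pi + tos ψ l := by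
  have h1 := h.up_e
  have h2 := h1.up_f
  have h3 := h2.up_e
  have h4 := h3.up_f
  have h5 := h4.up_e
  have h6 := h5.up_f
  have nz : ∀ {x : ℂ} (a b : ℝ), a ≠ 0 ∨ b ≠ 0 → x = c * (a + b * I) → x ≠ 0 := by
    intro x a b hab e
    rw [e]
    refine mul_ne_zero hc fun e' => ?_
    have e1 := congrArg re e'
    have e2 := congrArg im e'
    simp at e1 e2
    tauto
  refine ⟨_, by convert h6 using 1 <;> ring, ?_⟩
  simp only [tos]
  rw [an_eq (r := 1 + I / 2) h h1 (nz 2 0 (by simp) (by
      push_cast; linear_combination (-c) * I_mul_I)) (by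
      linear_combination (c * I / 2) * I_mul_I),
    an_eq (r := (4 + 3 * I) / 5) h1 h2 (nz 2 1 (by simp) (by
      push_cast; linear_combination (-c) * I_mul_I)) (by
      linear_combination (c * (3 * I - 4) / 5) * I_mul_I),
    an_eq (r := (4 + 2 * I) / 5) h2 h3 (nz 1 2 (by simp) (by
      push_cast; linear_combination (-c) * I_mul_I)) (by
      linear_combination (2 * c * I / 5) * I_mul_I),
    an_eq (r := 1 + I / 2) h3 h4 (nz 0 2 (by simp) (by
      push_cast; ring)) (by
      linear_combination (-c) * I_mul_I),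
    an_eq (r := (4 + 3 * I) / 5) h4 h5 (nz (-1) 2 (by simp) (by
      push_cast; ring)) (by
      linear_combination (-c / 5) * I_mul_I),
    an_eq (r := (4 + 2 * I) / 5) h5 h6 (nz (-2) 1 (by simp) (by
      push_cast; linear_combination c * I_mul_I)) (by
      linear_combination (-c * (2 * I + 1) / 5) * I_mul_I)]
  linarith [arg_sum]

end MeyAA

open MeyAA in
theorem sMeyA : SMeyA := by
  intro g hg
  have s1 : Sy (st (1 : Hom1 g ≃ₗ[ℤ] Hom1 g)) := st_sy fun _ _ => rfl
  refine ⟨fun h v => an (st h) v, fun h v => by simp only [an, up_neg], fun h hh u v => ?_,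
    fun l hl => ?_, ?_⟩
  · simp only [st_mul]
    exact cocycle (st_sy hh) u v
  · have h1 := tos_angle l 1 s1
    rw [hl, mul_one, sub_self, ← Real.Angle.coe_zero, Real.Angle.angle_eq_iff_two_pi_dvd_sub,
      sub_zero] at h1
    rwa [tot_eq]
  · have e0 : chain g 0 = ee ⟨0, hg⟩ := by
      ext k <;> simp [chain, ee, Pi.single_apply, Fin.ext_iff, eq_comm]
    have e1 : chain g 1 = ff ⟨0, hg⟩ := by
      ext k
      · simp [chain, ff]; omega
      · simp [chain, ff, Pi.single_apply, Fin.ext_iff]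
    have d0 : Dg ⟨0, hg⟩ (st (1 : Hom1 g ≃ₗ[ℤ] Hom1 g)) 1 (1 * Complex.I) := by
      intro k
      constructor <;> ext a <;> simp [st, ee, ff, Pi.single_apply]
    obtain ⟨ψ, d1, t1⟩ := six one_ne_zero d0
      [ee ⟨0, hg⟩, ff ⟨0, hg⟩, ee ⟨0, hg⟩, ff ⟨0, hg⟩, ee ⟨0, hg⟩, ff ⟨0, hg⟩]
    obtain ⟨χ, -, t2⟩ := six (neg_ne_zero.2 one_ne_zero) d1 []
    rw [tot_eq, e0, e1]
    simp only [List.replicate, List.flatten_cons, List.flatten_nil, List.cons_append,
      List.nil_append]
    rw [t1, t2, tos, abs_of_nonneg (by positivity)]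
    ring

end Pool.Agent.MP_00906f_gt.H33E
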