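import Pool.Agent.MP_00906f_gt.H33E.Spec

/-! Row MeyB: the invariant class from the angle cocycle. -/

namespace Pool.Agent.MP_00906f_gt.H33E

open H46 H46.FinAux

namespace MeyBA

section grp

variable {G : Type*} [Group G]

theorem aa_comm' {τ : ℕ → G} {x : G} {j : ℕ} (h : ∀ i, i < j → x * τ i = τ i * x) :
    x * aa τ j = aa τ j * x := by
  induction j with
  | zero => simp [aa]
  | succ j ih =>
    rw [aa, ← mul_assoc, h j (by omega), mul_assoc, ih fun i hi => h i (by omega), mul_assoc]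

theorem aa_conj_up {τ : ℕ → G} {n : ℕ} (h : IsBF τ n) {m : ℕ} (hm : m ≤ n) (y : G)
    (hy : ∀ i, i + 1 < m → y * τ i = τ i * y) : IsConj (aa τ m * y) (up τ m * y) := by
  induction m generalizing y with
  | zero => exact IsConj.refl _
  | succ m ih =>
    have h1 := ih (by omega) (τ m * y) fun i hi => by
      rw [mul_assoc, hy i (by omega), ← mul_assoc, ← h.comm i m (by omega) (by omega), mul_assoc]
    have h2 := aa_comm' (j := m) fun i hi => hy i (by omega)
    rw [up, mul_assoc]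
    refine IsConj.trans (isConj_iff.2 ⟨aa τ m, ?_⟩) h1
    rw [aa, mul_assoc (τ m), ← h2]
    group

theorem prod_rep {α : Type} (F : α → G) (l : List α) (m : ℕ) :
    ((List.replicate m l).flatten.map F).prod = (l.map F).prod ^ m := by
  induction m with
  | zero => simp
  | succ m ih =>
    rw [List.replicate_succ, List.flatten_cons, List.map_append, List.prod_append, ih, pow_succ']

theorem up_list {α : Type} (F : α → G) (c : ℕ → α) (n : ℕ) :
    (((List.range n).map c).map F).prod = up (fun i => F (c i)) n := by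
  induction n with
  | zero => rfl
  | succ n ih =>
    rw [List.range_succ, List.map_append, List.map_append, List.prod_append, ih]
    simp [up]

theorem map_up {G' : Type*} [Group G'] (π : G →* G') (τ : ℕ → G) (n : ℕ) :
    π (up τ n) = up (fun i => π (τ i)) n := by
  induction n with
  | zero => exact map_one π
  | succ n ih => rw [up, up, map_mul, ih]

theorem map_aa {G' : Type*} [Group G'] (π : G →* G') (τ : ℕ → G) (n : ℕ) :
    π (aa τ n) = aa (fun i => π (τ i)) n := by
  induction n with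
  | zero => exact map_one π
  | succ n ih => rw [aa, aa, map_mul, ih]

end grp

/-- The wreath type extension of a group by real functions. -/
@[ext] structure Ex (Γ : Type) where
  h : Γ
  f : Γ → ℝ

section ex

variable {Γ : Type} [Group Γ]

instance : Mul (Ex Γ) := ⟨fun a b => ⟨a.h * b.h, fun x => a.f x + b.f (x * a.h)⟩⟩
instance : One (Ex Γ) := ⟨⟨1, fun _ => 0⟩⟩
instance : Inv (Ex Γ) := ⟨fun a => ⟨a.h⁻¹, fun x => -a.f (x * a.h⁻¹)⟩⟩

theorem mul_h (a b : Ex Γ) : (a * b).h = a.h * b.h := rfl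
theorem mul_f (a b : Ex Γ) (x : Γ) : (a * b).f x = a.f x + b.f (x * a.h) := rfl

instance : Group (Ex Γ) := Group.ofLeftAxioms
  (fun a b c => Ex.ext (mul_assoc _ _ _) (funext fun x => by
    simp only [mul_f, mul_h, mul_assoc, add_assoc]))
  (fun a => Ex.ext (one_mul _) (funext fun x => by
    show 0 + a.f (x * 1) = _
    rw [zero_add, mul_one]))
  (fun a => Ex.ext (inv_mul_cancel _) (funext fun x => neg_add_cancel _))

/-- The central elements. -/
def zz (c : ℝ) : Ex Γ := ⟨1, fun _ => c⟩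

theorem zz_comm (c : ℝ) (a : Ex Γ) : a * zz c = zz c * a :=
  Ex.ext ((mul_one _).trans (one_mul _).symm) (funext fun x => by
    show a.f x + c = c + a.f (x * 1)
    rw [mul_one, add_comm])

theorem zz_pow (c : ℝ) (m : ℕ) : (zz c : Ex Γ) ^ m = zz (m * c) := by
  induction m with
  | zero => exact Ex.ext rfl (funext fun x => by show (0 : ℝ) = _; simp [zz])
  | succ m ih =>
    rw [pow_succ, ih]
    exact Ex.ext (mul_one _) (funext fun x => by
      show m * c + c = (m + 1 : ℕ) * c
      push_cast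
      ring)

theorem conj_zz {w x : Ex Γ} {c : ℝ} (h : w * x * w⁻¹ = zz c) : x = zz c := by
  rw [mul_inv_eq_iff_eq_mul, ← zz_comm] at h
  exact mul_left_cancel h

end ex

variable {g : ℕ}

/-- The group generated by the transvections. -/
def Gam (g : ℕ) : Subgroup (Hom1 g ≃ₗ[ℤ] Hom1 g) := Subgroup.closure (Set.range tv)

theorem tv_mem (v : Hom1 g) : tv v ∈ Gam g := Subgroup.subset_closure ⟨v, rfl⟩

theorem tv_om (v x y : Hom1 g) : om g (tv v x) (tv v y) = om g x y := by
  simp only [tv_apply, map_add, map_smul, LinearMap.add_apply, LinearMap.smul_apply, om_self,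
    smul_eq_mul, om_skew v y]
  ring

theorem gam_om {h : Hom1 g ≃ₗ[ℤ] Hom1 g} (hh : h ∈ Gam g) (x y : Hom1 g) :
    om g (h x) (h y) = om g x y := by
  induction hh using Subgroup.closure_induction generalizing x y with
  | mem h hh => obtain ⟨v, rfl⟩ := hh; exact tv_om v x y
  | one => rfl
  | mul a b _ _ ha hb => rw [LinearEquiv.mul_apply, LinearEquiv.mul_apply, ha, hb]
  | inv a _ ha =>
    rw [← ha, ← LinearEquiv.mul_apply, ← LinearEquiv.mul_apply, mul_inv_cancel]
    rfl

theorem tv_tv (u v : Hom1 g) : tv u * tv v = tv (tv u v) * tv u := LinearEquiv.ext fun x => by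
  rw [LinearEquiv.mul_apply, LinearEquiv.mul_apply, tv_apply (tv u v), tv_om, tv_apply v, map_add,
    map_smul]

theorem tv_neg (v : Hom1 g) : tv (-v) = tv v := LinearEquiv.ext fun x => by
  simp [tv_apply]

/-- The projection. -/
def pj (g : ℕ) : Ex (Gam g) →* (Hom1 g ≃ₗ[ℤ] Hom1 g) where
  toFun a := a.h
  map_one' := rfl
  map_mul' _ _ := rfl

variable (θ : (Hom1 g ≃ₗ[ℤ] Hom1 g) → Hom1 g → ℝ) (κ : ℝ)

/-- The lift of a transvection. -/
def LL (v : Hom1 g) : Ex (Gam g) := ⟨⟨tv v, tv_mem v⟩, fun x => θ x v - κ⟩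

theorem pj_LL (v : Hom1 g) : pj g (LL θ κ v) = tv v := rfl

theorem prod_f (l : List (Hom1 g)) (x : Gam g) :
    (l.map (LL θ κ)).prod.f x = tot θ x l - κ * l.length := by
  induction l generalizing x with
  | nil => show (0 : ℝ) = _; simp [tot]
  | cons v l ih =>
    rw [List.map_cons, List.prod_cons, mul_f, ih, tot, List.length_cons]
    show θ x v - κ + (tot θ (x * tv v) l - _) = _
    push_cast
    ring

theorem pj_prod (l : List (Hom1 g)) : pj g (l.map (LL θ κ)).prod = (l.map tv).prod := by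
  rw [map_list_prod, List.map_map]
  rfl

/-- The elements that permute the lifts. -/
def DD : Subgroup (Ex (Gam g)) where
  carrier := {b | ∀ v, b * LL θ κ v = LL θ κ (pj g b v) * b}
  one_mem' v := by rw [one_mul, mul_one]; rfl
  mul_mem' {a b} ha hb v := by
    rw [mul_assoc, hb v, ← mul_assoc, ha, mul_assoc, map_mul, LinearEquiv.mul_apply]
  inv_mem' {a} ha v := by
    have := ha (pj g a⁻¹ v)
    rw [← LinearEquiv.mul_apply, ← map_mul, mul_inv_cancel, map_one] at this
    rw [inv_mul_eq_iff_eq_mul, ← mul_assoc, this, mul_inv_cancel_right]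
    rfl

variable {θ κ}

theorem eq_zz {b : Ex (Gam g)} (hb : b ∈ DD θ κ) (h1 : pj g b = 1) : b = zz (b.f 1) := by
  have h2 : b.h = 1 := Subtype.ext h1
  have key : ∀ y (hy : y ∈ Gam g) (x : Gam g), b.f (x * ⟨y, hy⟩) = b.f x := by
    intro y hy
    induction hy using Subgroup.closure_induction with
    | mem y hy =>
      obtain ⟨v, rfl⟩ := hy
      intro x
      have := congrFun (congrArg Ex.f (hb v)) x
      rw [h1, mul_f, mul_f, h2, mul_one] at this
      exact (add_left_cancel ((add_comm _ _).trans this)).symm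
    | one => exact fun x => congrArg b.f (mul_one x)
    | mul y y' hy hy' e e' =>
      exact fun x => (congrArg b.f (mul_assoc x ⟨y, hy⟩ ⟨y', hy'⟩).symm).trans
        ((e' _).trans (e x))
    | inv y hy e =>
      exact fun x => (e _).symm.trans (congrArg b.f (inv_mul_cancel_right x ⟨y, hy⟩))
  refine Ex.ext h2 (funext fun x => ?_)
  have := key x x.2 1
  rwa [one_mul] at this

theorem tt_iota : up (TT g) (2 * g + 1) * aa (TT g) (2 * g + 1) = LinearEquiv.neg ℤ :=
  ext_chain fun i hi => by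
    rw [LinearEquiv.mul_apply, aa_c hi (by omega), map_neg, up_c hi (by omega)]; rfl

theorem tt_tt {i : ℕ} (hi : i < 2 * g) : TT g i (TT g (i + 1) (chain g i)) = chain g (i + 1) := by
  have h1 := om_ch1 hi
  have h2 := om_skew (chain g (i + 1)) (chain g i)
  rw [h1] at h2
  simp only [TT, tv_apply, map_add, map_smul, h1, h2, om_self]
  module

theorem LL_mem (hrel : ∀ h : Hom1 g ≃ₗ[ℤ] Hom1 g, (∀ x y, om g (h x) (h y) = om g x y) → ∀ u v,
    θ h u + θ (h * tv u) v = θ h (tv u v) + θ (h * tv (tv u v)) u) (u : Hom1 g) :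
    LL θ κ u ∈ DD θ κ := fun v =>
  Ex.ext (Subtype.ext (tv_tv u v)) (funext fun x => by
    have := hrel x (gam_om x.2) u v
    show θ x u - κ + (θ (x * tv u) v - κ) =
      θ x (tv u v) - κ + (θ (x * tv (tv u v)) u - κ)
    linarith)

theorem bh (hneg : ∀ h v, θ h (-v) = θ h v) (hL : ∀ u, LL θ κ u ∈ DD θ κ)
    (hκ : (up (fun i => LL θ κ (chain g i)) (2 * g + 1) ^ (2 * g + 1 + 1)).f 1 = 0) :
    BH (fun i => LL θ κ (chain g i)) (2 * g + 1) := by
  set τ : ℕ → Ex (Gam g) := fun i => LL θ κ (chain g i) with hτ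
  have hn : ∀ v, LL θ κ (-v) = LL θ κ v := fun v =>
    Ex.ext (Subtype.ext (tv_neg v)) (funext fun x => congrArg (· - κ) (hneg x v))
  have hB : BB τ (2 * g + 1) ≤ DD θ κ := by
    rw [BB, Subgroup.closure_le]
    rintro _ ⟨i, -, rfl⟩
    exact hL _
  have hup : pj g (up τ (2 * g + 1)) = up (TT g) (2 * g + 1) := map_up _ _ _
  have haa : pj g (aa τ (2 * g + 1)) = aa (TT g) (2 * g + 1) := map_aa _ _ _
  have bf : IsBF τ (2 * g + 1) := by
    refine ⟨fun i hi => ?_, fun i j hij hj => ?_⟩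
    · have := mul_mem (hL (chain g i)) (hL (chain g (i + 1))) (chain g i)
      rw [map_mul, LinearEquiv.mul_apply] at this
      rw [mul_assoc (τ (i + 1))]
      exact this.trans (congrArg (fun v => LL θ κ v * _) (tt_tt (by omega)))
    · exact (hL (chain g i) (chain g j)).trans (congrArg (fun v => LL θ κ v * _) (TT_lo hij))
  have pw : up τ (2 * g + 1) ^ (2 * g + 1 + 1) = 1 := by
    rw [eq_zz (pow_mem (hB (up_mem le_rfl)) _) (by rw [map_pow, hup, TT_BH.pw]), hκ]
    rfl
  have hi : up τ (2 * g + 1) * aa τ (2 * g + 1) ∈ DD θ κ :=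
    hB (mul_mem (up_mem le_rfl) (aa_mem le_rfl))
  have ce : ∀ i, i < 2 * g + 1 → up τ (2 * g + 1) * aa τ (2 * g + 1) * τ i =
      τ i * (up τ (2 * g + 1) * aa τ (2 * g + 1)) := fun i _ => by
    have := hi (chain g i)
    rwa [map_mul, hup, haa, tt_iota, LinearEquiv.neg_apply, hn] at this
  refine ⟨bf, pw, ?_, ce⟩
  have h1 := eq_zz (pow_mem hi 2) (by rw [map_pow, map_mul, hup, haa, TT_BH.sq])
  have h2 : Commute (up τ (2 * g + 1)) (aa τ (2 * g + 1)) := by
    have := up_comm ce
    rw [mul_assoc, mul_left_cancel_iff] at this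
    exact this.symm
  have h3 : aa τ (2 * g + 1) ^ (2 * g + 1 + 1) = 1 := by
    have := (aa_conj_up bf le_rfl 1 fun i _ => by rw [one_mul, mul_one]).pow (2 * g + 1 + 1)
    rwa [mul_one, mul_one, pw, isConj_one_left] at this
  have h4 : ((up τ (2 * g + 1) * aa τ (2 * g + 1)) ^ 2) ^ (g + 1) = 1 := by
    rw [← pow_mul, show 2 * (g + 1) = 2 * g + 1 + 1 by ring, h2.mul_pow, pw, h3, one_mul]
  rw [h1, zz_pow] at h4
  have h5 : ((g + 1 : ℕ) : ℝ) * ((up τ (2 * g + 1) * aa τ (2 * g + 1)) ^ 2).f 1 = 0 :=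
    congrFun (congrArg Ex.f h4) 1
  rw [h1, (mul_eq_zero.1 h5).resolve_left (by positivity)]
  rfl

end MeyBA

open MeyBA in
theorem sMey : SMeyA → SMey := by
  intro hA g hg ρ hρ
  obtain ⟨θ, hneg, hrel, hint, hval⟩ := hA g (by omega)
  set l₀ := (List.replicate (2 * g + 1 + 1) ((List.range (2 * g + 1)).map (chain g))).flatten
    with hl₀
  have hlen : (l₀.length : ℝ) ≠ 0 := by
    have : l₀.length = (2 * g + 1 + 1) * (2 * g + 1) := by simp [hl₀]
    rw [this]
    positivity
  set κ := tot θ 1 l₀ / l₀.length with hκ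
  have hL : ∀ u, LL θ κ u ∈ DD θ κ := LL_mem hrel
  have hB := bh hneg hL (by
    rw [← up_list, ← prod_rep, prod_f, ← hl₀, hκ, div_mul_cancel₀ _ hlen]
    exact sub_self _)
  set τ : ℕ → Ex (Gam g) := fun i => LL θ κ (chain g i) with hτ
  let Ψ : HypMCG g →* Ex (Gam g) := PresentedGroup.toGroup
    ((rels_iff g (FreeGroup.lift fun i : Fin (2 * g + 1) => τ i) τ
      fun i => FreeGroup.lift_apply_of).2 hB)
  have hΨ : ∀ i : Fin (2 * g + 1), Ψ (PresentedGroup.of i) = τ i := fun i =>
    PresentedGroup.toGroup.of _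
  have hΨt : ∀ i, i < 2 * g + 1 → Ψ (tt g i) = τ i := fun i hi => by
    rw [tt_of ⟨i, hi⟩, hΨ]
  have hπ : (pj g).comp Ψ = ρ := PresentedGroup.ext fun i => by
    rw [MonoidHom.comp_apply, hΨ]
    exact LinearEquiv.ext fun x => (hρ i x).symm
  have hD : ∀ x, Ψ x ∈ DD θ κ := fun x =>
    PresentedGroup.generated_by _ ((DD θ κ).comap Ψ)
      (fun i => by rw [Subgroup.mem_comap, hΨ]; exact hL _) x
  have hz : ∀ x ∈ ρ.ker, Ψ x = zz ((Ψ x).f 1) := fun x hx =>
    eq_zz (hD x) (by rw [← MonoidHom.comp_apply, hπ]; exact hx)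
  let s₀ : Additive ρ.ker →+ ℝ := AddMonoidHom.mk' (fun k => (Ψ (Additive.toMul k).1).f 1)
    fun k k' => by
      rw [toMul_add, Subgroup.coe_mul, map_mul, mul_f, hz _ (Additive.toMul k').2]
      rfl
  set l₅ := (List.replicate 10 [chain g 1, chain g 2, chain g 3, chain g 4]).flatten with hl₅
  set l₃ := (List.replicate 6 [chain g 0, chain g 1]).flatten with hl₃
  obtain ⟨n, hn⟩ : ∃ n : ℤ, (l₅.map tv).prod = 1 → tot θ 1 l₅ = 2 * Real.pi * n := by
    by_cases h : (l₅.map tv).prod = 1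
    · exact (hint l₅ h).imp fun n hn _ => hn
    · exact ⟨0, fun h' => absurd h' h⟩
  have hne : 10 * (tot θ 1 l₃ - κ * 12) - 3 * (2 * Real.pi * n - κ * 40) ≠ 0 := by
    intro h
    have hp : 2 * Real.pi ≠ 0 := by positivity
    rcases (abs_eq (by positivity)).1 hval with e | e
    · have : ((10 : ℤ) : ℝ) = (3 * n : ℤ) := mul_left_cancel₀ hp (by push_cast; linarith)
      have := Int.cast_injective this
      omega
    · have : ((-10 : ℤ) : ℝ) = (3 * n : ℤ) := mul_left_cancel₀ hp (by push_cast; linarith)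
      have := Int.cast_injective this
      omega
  obtain ⟨φ, hφ⟩ := not_forall.1 (mt (Module.forall_dual_apply_eq_zero_iff ℚ _).1 hne)
  refine ⟨φ.toAddMonoidHom.comp s₀, φ (tot θ 1 l₃ - κ * 12), φ (2 * Real.pi * n - κ * 40),
    fun h => hφ ?_, fun γ h => congrArg φ ?_, fun γ h => congrArg φ ?_⟩
  · have e : ∀ (q : ℚ) (x : ℝ), φ (q * x) = q * φ x := fun q x => by
      rw [← Rat.smul_def, map_smul, smul_eq_mul]
    have e1 := e 10 (tot θ 1 l₃ - κ * 12)
    have e2 := e 3 (2 * Real.pi * n - κ * 40)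
    push_cast at e1 e2
    rw [map_sub, e1, e2, h, sub_self]
  · have h1 := hz _ h
    have h2 : ∀ i, i + 2 ≤ 2 * g + 1 →
        τ (i + 1) = up τ (2 * g + 1) * τ i * (up τ (2 * g + 1))⁻¹ := fun i hi => by
      rw [up_conj hB.bf hi le_rfl, mul_inv_cancel_right]
    have h3 : Ψ (γ * T3 (fun i => tt g (i + 1)) * γ⁻¹) = Ψ γ * up τ (2 * g + 1) *
        (l₃.map (LL θ κ)).prod * (Ψ γ * up τ (2 * g + 1))⁻¹ := by
      rw [hl₃, prod_rep, map_mul, map_mul, map_inv, T3, map_pow, map_mul, hΨt _ (by omega),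
        hΨt _ (by omega), h2 0 (by omega), h2 1 (by omega), conj_mul, conj_pow]
      simp only [List.map_cons, List.map_nil, List.prod_cons, List.prod_nil, mul_one, hτ,
        mul_inv_rev, mul_assoc]
    have h4 := congrFun (congrArg Ex.f (conj_zz (h3.symm.trans h1))) 1
    rw [prod_f] at h4
    refine h4.symm.trans ?_
    simp [hl₃]
  · have h1 := hz _ h
    have h3 : Ψ (γ * T5 (fun i => tt g (i + 1)) * γ⁻¹) =
        Ψ γ * (l₅.map (LL θ κ)).prod * (Ψ γ)⁻¹ := by
      rw [hl₅, prod_rep, map_mul, map_mul, map_inv, T5, map_pow, map_mul, map_mul, map_mul,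
        hΨt _ (by omega), hΨt _ (by omega), hΨt _ (by omega), hΨt _ (by omega)]
      simp only [List.map_cons, List.map_nil, List.prod_cons, List.prod_nil, mul_one, hτ,
        mul_assoc]
    have h5 := conj_zz (h3.symm.trans h1)
    have h6 : (l₅.map tv).prod = 1 := by
      rw [← pj_prod θ κ, h5]
      rfl
    have h4 := congrFun (congrArg Ex.f h5) 1
    rw [prod_f, Subgroup.coe_one, hn h6] at h4
    refine h4.symm.trans ?_
    simp [hl₅]

end Pool.Agent.MP_00906f_gt.H33E
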