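import Pool.Agent.MP_00906f_gt.H33E.Spec

/-! Row Span: the basis classes span all the value functions. -/

namespace Pool.Agent.MP_00906f_gt.H33E

open H46 H46.FinAux Finset

namespace SpanA

variable {G H : Type} [Group G] [AddCommGroup H] (X : XSys G H)

/-- The two forms. -/
def bb (p q : H) : G → ℚ × ℚ := fun g => (X.B3 g p q, X.B5 g p q)

/-- The two weights. -/
def ss (I : ℕ → ℚ) : G → ℚ × ℚ := fun g => (X.sI 3 I g, X.sI 5 I g)

/-- The two ranks. -/
def rk : G → ℚ × ℚ := fun _ => (2, 4)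

/-- Three times `xi`. -/
def x3 (p q r e : H) : G → ℚ × ℚ :=
  2 * (bb X p q * bb X r e) - bb X p e * bb X q r + bb X p r * bb X q e

theorem v4_eq (p q r e : H) (I : ℕ → ℚ) :
    X.v4 p q r e I = (ss X I + bb X p q) * bb X r e - bb X q r * bb X p e := rfl

theorem bb_add (p p' q : H) : bb X (p + p') q = bb X p q + bb X p' q := by
  funext g
  simp only [bb, XSys.B5, XSys.B3, XSys.pl, map_add, LinearMap.add_apply, Pi.add_apply,
    Prod.mk_add_mk, Prod.mk.injEq]
  push_cast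
  constructor <;> ring

theorem bb_swap (p q : H) : bb X q p = -bb X p q := by
  funext g
  simp only [bb, XSys.B5, XSys.B3, XSys.pl, Pi.neg_apply, Prod.neg_mk, Prod.mk.injEq]
  push_cast
  constructor <;> ring

theorem bb_self (p : H) : bb X p p = 0 := by
  funext g
  simp only [bb, XSys.B5, XSys.B3, XSys.pl, Pi.zero_apply, Prod.mk_eq_zero]
  push_cast
  constructor <;> ring

theorem bb_zero (q : H) : bb X 0 q = 0 := by
  have := bb_add X 0 0 q
  rwa [add_zero, left_eq_add] at this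

theorem bb_add' (p q q' : H) : bb X p (q + q') = bb X p q + bb X p q' := by
  rw [bb_swap, bb_add, bb_swap X p q, bb_swap X p q']
  ring

theorem ss_zero : ss X 0 = 0 := by
  funext g
  simp [ss, XSys.sI]

theorem x3_eq (p q r e : H) : x3 X p q r e = (3 : ℚ) • X.xi p q r e := by
  rw [XSys.xi, smul_smul, v4_eq, v4_eq, ss_zero, bb_swap X q r, two_smul, x3]
  norm_num
  ring

theorem ss_idem (i : ℕ) : ss X (dl i) * ss X (dl i) = ss X (dl i) := by
  have h : ∀ k g, X.sI k (dl i) g * X.sI k (dl i) g = X.sI k (dl i) g := fun k g => by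
    simp only [XSys.sI, dl, ← Equiv.eq_symm_apply, sum_ite_eq']
    split_ifs <;> norm_num
  funext g
  exact Prod.ext (h 3 g) (h 5 g)

variable {X}

theorem ss_sum (K : LabKit X) (I : ℕ → ℚ) :
    ss X I = ∑ i ∈ range (X.N + 1), I i • ss X (dl i) := by
  have h : ∀ k ≤ 5, ∀ g, X.sI k I g = ∑ i ∈ range (X.N + 1), I i * X.sI k (dl i) g :=
    fun k hk g => by
      simp only [XSys.sI, mul_sum]
      rw [sum_comm]
      refine sum_congr rfl fun j hj => ?_
      have := K.le g j (by have := X.h6; have := mem_range.1 hj; omega)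
      simp [dl, Nat.lt_succ_of_le this]
  funext g
  simp only [Finset.sum_apply, Pi.smul_apply, ss, Prod.smul_mk, smul_eq_mul, Prod.ext_iff,
    Prod.fst_sum, Prod.snd_sum]
  exact ⟨h 3 (by omega) g, h 5 le_rfl g⟩

theorem ss_tot (K : LabKit X) : ∑ i ∈ range (X.N + 1), ss X (dl i) = rk + 1 := by
  have := ss_sum K fun _ => 1
  simp only [one_smul] at this
  rw [← this]
  funext g
  simp only [ss, XSys.sI, rk, Pi.add_apply, Pi.one_apply, Prod.ext_iff, Prod.fst_add, Prod.snd_add,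
    Prod.fst_one, Prod.snd_one, sum_const, card_range]
  norm_num

theorem dual (X : XSys G H) : ∃ d : ℕ → H, ∀ u v,
    ∑ j ∈ range X.N, X.ω (X.c j) u * X.ω (d j) v = X.ω u v := by
  choose! d _ hd using fun i (hi : i < X.N) => X.lat_dual X.hN hi
  refine ⟨d, fun u v => ?_⟩
  obtain ⟨a, rfl⟩ := X.lat_coord (X.Ltop v)
  rw [X.skew u, map_sum X.ω, LinearMap.sum_apply, ← sum_neg_distrib]
  refine sum_congr rfl fun j hj => ?_
  rw [X.skew (d j), X.lat_ω_dual a (mem_range.1 hj) (hd j (mem_range.1 hj)), map_smul,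
    LinearMap.smul_apply, smul_eq_mul]
  ring

theorem sums (X : XSys G H) : ∃ d : ℕ → H, ∑ j ∈ range X.N, bb X (X.c j) (d j) = rk ∧
    ∀ r e, ∑ j ∈ range X.N, bb X (X.c j) r * bb X (d j) e = bb X r e := by
  obtain ⟨d, hd⟩ := dual X
  have h6 := X.h6
  have hq : ∀ u v, ∑ j ∈ range X.N, (X.ω (X.c j) u : ℚ) * X.ω (d j) v = X.ω u v := fun u v => by
    exact_mod_cast hd u v
  have c01 := X.ch1 0 (by omega)
  have c12 := X.ch1 1 (by omega)
  have c23 := X.ch1 2 (by omega)
  have c02 := X.ch2 0 2 le_rfl (by omega)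
  have c03 := X.ch2 0 3 (by omega) (by omega)
  have c13 := X.ch2 1 3 le_rfl (by omega)
  have e1 : ∀ x y, ∑ j ∈ range X.N, X.pl x y (X.c j) (d j) = 2 * X.ω x y := fun x y => by
    simp only [XSys.pl]
    push_cast
    rw [sum_sub_distrib, hq, hq, X.skew y x]
    push_cast
    ring
  have e2 : ∀ x y x' y' r e, ∑ j ∈ range X.N, X.pl x y (X.c j) r * X.pl x' y' (d j) e =
      X.ω x x' * (X.ω r y * X.ω e y') - X.ω x y' * (X.ω r y * X.ω e x') -
        X.ω y x' * (X.ω r x * X.ω e y') + X.ω y y' * (X.ω r x * X.ω e x') :=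
    fun x y x' y' r e => by
      simp only [← hq x x', ← hq x y', ← hq y x', ← hq y y', sum_mul, ← sum_sub_distrib,
        ← sum_add_distrib, XSys.pl]
      refine sum_congr rfl fun j _ => ?_
      push_cast
      ring
  refine ⟨d, funext fun g => ?_, fun r e => funext fun g => ?_⟩
  · simp only [Finset.sum_apply, bb, rk, Prod.ext_iff, Prod.fst_sum, Prod.snd_sum, XSys.B5, XSys.B3,
      sum_add_distrib, e1, X.ρ_ω (X.top g)]
    simp only [map_add, LinearMap.add_apply, c01, c03, c23]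
    norm_num
  · simp only [Finset.sum_apply, Pi.mul_apply, bb, Prod.ext_iff, Prod.fst_sum, Prod.snd_sum,
      Prod.fst_mul, Prod.snd_mul, XSys.B5, XSys.B3, add_mul, mul_add, sum_add_distrib, e2,
      X.ρ_ω (X.top g)]
    simp only [map_add X.ω (X.c 0), map_add (X.ω (X.c _)), LinearMap.add_apply, X.alt, c01, c12,
      c23, c02, c03, c13, X.skew (X.c 1) (X.c 0), X.skew (X.c 2) (X.c 0), X.skew (X.c 3) (X.c 0),
      X.skew (X.c 2) (X.c 1), X.skew (X.c 3) (X.c 1), X.skew (X.c 3) (X.c 2), XSys.pl]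
    push_cast
    constructor <;> ring

variable {W : Submodule ℚ (G → ℚ × ℚ)}

theorem red (f : H → G → ℚ × ℚ) (hf : ∀ x y, f (x + y) = f x + f y)
    (h : ∀ i, i < X.N → f (X.c i) ∈ W) (x : H) : f x ∈ W := by
  obtain ⟨a, rfl⟩ := X.lat_coord (X.Ltop x)
  change AddMonoidHom.mk' f hf _ ∈ W
  rw [map_sum]
  exact W.sum_mem fun i hi => by
    rw [map_zsmul]
    exact zsmul_mem (h i (mem_range.1 hi)) _

theorem red2 (f : H → H → G → ℚ × ℚ) (hf : ∀ x y z, f (x + y) z = f x z + f y z)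
    (hs : ∀ x y, f y x = -f x y) (h0 : ∀ x, f x x = 0)
    (h : ∀ i j, i < j → j < X.N → f (X.c i) (X.c j) ∈ W) (x y : H) : f x y ∈ W := by
  refine red (X := X) (fun x => f x y) (fun a b => hf a b y) (fun i hi => ?_) x
  refine red (X := X) (f (X.c i)) (fun a b => ?_) (fun j hj => ?_) y
  · rw [hs, hf, hs a, hs b]
    ring
  · rcases lt_trichotomy i j with hij | rfl | hij
    · exact h i j hij hj
    · rw [h0]
      exact W.zero_mem
    · rw [hs]
      exact W.neg_mem (h j i hij hi)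

theorem of_mul {v : G → ℚ × ℚ} (n : ℕ) [n.AtLeastTwo] (h : OfNat.ofNat n * v ∈ W) : v ∈ W := by
  refine (W.smul_mem_iff (s := (OfNat.ofNat n : ℚ)) (OfNat.ofNat_ne_zero n)).1 ?_
  rwa [Algebra.smul_def, map_ofNat]

theorem x3_swap (p q r e : H) : x3 X r e p q = x3 X p q r e := by
  simp only [x3, bb_swap X q r, bb_swap X p e, bb_swap X p r, bb_swap X q e]
  ring

theorem x3_mem (h : ∀ i j k l, i < j → k < l → i ≤ k → j ≤ l → l < X.N →
    x3 X (X.c i) (X.c j) (X.c k) (X.c l) ∈ W) (p q r e : H) : x3 X p q r e ∈ W := by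
  have h1 : ∀ i j k l, i < j → k < l → i ≤ k → j < X.N → l < X.N →
      x3 X (X.c i) (X.c j) (X.c k) (X.c l) ∈ W := fun i j k l hij hkl hik hj hl => by
    rcases le_or_gt j l with hjl | hjl
    · exact h i j k l hij hkl hik hjl hl
    rcases hik.eq_or_lt with rfl | hik
    · rw [x3_swap]
      exact h _ _ _ _ hkl hij le_rfl hjl.le hj
    have e : x3 X (X.c i) (X.c j) (X.c k) (X.c l) =
        x3 X (X.c i) (X.c l) (X.c k) (X.c j) - x3 X (X.c i) (X.c k) (X.c l) (X.c j) := by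
      simp only [x3, bb_swap X (X.c k) (X.c j), bb_swap X (X.c l) (X.c j),
        bb_swap X (X.c k) (X.c l)]
      ring
    rw [e]
    exact W.sub_mem (h _ _ _ _ (by omega) (by omega) hik.le hjl.le hj)
      (h _ _ _ _ hik hjl (by omega) (by omega) hj)
  have ha : ∀ r e x y z, x3 X (x + y) z r e = x3 X x z r e + x3 X y z r e := fun r e x y z => by
    simp only [x3, bb_add]
    ring
  have hs : ∀ r e x y, x3 X y x r e = -x3 X x y r e := fun r e x y => by
    simp only [x3, bb_swap X x y]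
    ring
  have h0 : ∀ r e x, x3 X x x r e = 0 := fun r e x => by
    simp only [x3, bb_self]
    ring
  refine red2 (X := X) (fun p q => x3 X p q r e) (ha r e) (hs r e) (h0 r e)
    (fun i j hij hj => ?_) p q
  rw [x3_swap]
  refine red2 (X := X) (fun r e => x3 X r e (X.c i) (X.c j)) (ha _ _) (hs _ _) (h0 _ _)
    (fun k l hkl hl => ?_) r e
  rcases le_total i k with hik | hik
  · rw [x3_swap]
    exact h1 i j k l hij hkl hik hj hl
  · exact h1 k l i j hkl hij hik hl hj

theorem sub_mem {s t : Finset ℕ} {f : ℕ → G → ℚ × ℚ} (hts : t ⊆ s) (hs : ∑ j ∈ s, f j ∈ W)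
    (h : ∀ j ∈ s, j ∉ t → f j ∈ W) : ∑ j ∈ t, f j ∈ W := by
  rw [← sum_sdiff hts] at hs
  exact (W.add_mem_iff_right (W.sum_mem fun j hj => h j (mem_sdiff.1 hj).1 (mem_sdiff.1 hj).2)).1 hs

theorem sb_mem (K : LabKit X) (hx : ∀ p q r e, x3 X p q r e ∈ W)
    (h : ∀ i k l, 1 ≤ i → i ≤ X.N → k < l → l < X.N → ss X (dl i) * bb X (X.c k) (X.c l) ∈ W)
    (i : ℕ) (hi : i ≤ X.N) (r e : H) : ss X (dl i) * bb X r e ∈ W := by
  have h1 : ∀ i, 1 ≤ i → i ≤ X.N → ss X (dl i) * bb X r e ∈ W := fun i h1 hi =>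
    red2 (X := X) (fun r e => ss X (dl i) * bb X r e) (fun x y z => by rw [bb_add, mul_add])
      (fun x y => by rw [bb_swap, mul_neg]) (fun x => by rw [bb_self, mul_zero])
      (fun k l => h i k l h1 hi) r e
  rcases i.eq_zero_or_pos with rfl | hi0
  swap
  · exact h1 i hi0 hi
  obtain ⟨d, hd1, hd2⟩ := sums X
  have h2 : ∑ i ∈ range (X.N + 1), ss X (dl i) * bb X r e ∈ W := by
    refine of_mul 2 ?_
    have e : ∑ j ∈ range X.N, x3 X (X.c j) (d j) r e =
        2 * ∑ i ∈ range (X.N + 1), ss X (dl i) * bb X r e := by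
      simp only [x3, sum_add_distrib, sum_sub_distrib, ← mul_sum, ← sum_mul, hd1, hd2, ss_tot K,
        bb_swap X r e]
      ring
    rw [← e]
    exact W.sum_mem fun j _ => hx ..
  have := sub_mem (t := {0}) (by simp) h2 fun j hj hj0 =>
    h1 j (Nat.pos_of_ne_zero (by simpa using hj0)) (Nat.lt_succ_iff.1 (mem_range.1 hj))
  rwa [sum_singleton] at this

theorem tt_mem (K : LabKit X) (hb : ∀ i, i ≤ X.N → ∀ r e, ss X (dl i) * bb X r e ∈ W)
    (h : ∀ c d, 1 ≤ c → c < d → d ≤ X.N → ¬(c = 1 ∧ d = 2) → ss X (dl c) * ss X (dl d) ∈ W)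
    (c d : ℕ) (hcd : c < d) (hd : d ≤ X.N) : ss X (dl c) * ss X (dl d) ∈ W := by
  have h6 := X.h6
  obtain ⟨δ, hδ, -⟩ := sums X
  have h' : ∀ c d, 1 ≤ c → 1 ≤ d → c ≠ d → c ≤ X.N → d ≤ X.N → 3 < c + d →
      ss X (dl c) * ss X (dl d) ∈ W := fun c d h1 h2 hne hc hd h3 => by
    rcases lt_or_gt_of_ne hne with hl | hl
    · exact h c d h1 hl hd (by omega)
    · rw [mul_comm]
      exact h d c h2 hl hc (by omega)
  have row : ∀ i, i ≤ X.N → ∑ j ∈ (range (X.N + 1)).erase i, ss X (dl i) * ss X (dl j) ∈ W :=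
    fun i hi => by
      rw [← mul_sum, sum_erase_eq_sub (mem_range.2 (Nat.lt_succ_of_le hi)), ss_tot K, mul_sub,
        ss_idem, mul_add, mul_one, add_sub_cancel_right, ← hδ, mul_sum]
      exact W.sum_mem fun j _ => hb i hi _ _
  have r3 : ∀ i, 3 ≤ i → i ≤ X.N → ss X (dl i) * ss X (dl 0) ∈ W := fun i h3 hi => by
    have := sub_mem (t := {0}) (by simp; omega) (row i hi) fun j hj hj0 => by
      simp only [mem_erase, mem_range, mem_singleton] at hj hj0
      exact h' i j (by omega) (by omega) (by omega) hi (by omega) (by omega)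
    rwa [sum_singleton] at this
  have r1 := sub_mem (t := {0, 2}) (by simp [insert_subset_iff]; omega) (row 1 (by omega))
    fun j hj hj0 => by
      simp only [mem_erase, mem_range, mem_insert, mem_singleton] at hj hj0
      exact h' 1 j (by omega) (by omega) (by omega) (by omega) (by omega) (by omega)
  have r2 := sub_mem (t := {0, 1}) (by simp [insert_subset_iff]; omega) (row 2 (by omega))
    fun j hj hj0 => by
      simp only [mem_erase, mem_range, mem_insert, mem_singleton] at hj hj0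
      exact h' 2 j (by omega) (by omega) (by omega) (by omega) (by omega) (by omega)
  have r0 := sub_mem (t := {1, 2}) (by simp [insert_subset_iff]; omega) (row 0 (by omega))
    fun j hj hj0 => by
      simp only [mem_erase, mem_range, mem_insert, mem_singleton] at hj hj0
      rw [mul_comm]
      exact r3 j (by omega) (by omega)
  rw [sum_pair (by omega)] at r0 r1 r2
  have t12 : ss X (dl 1) * ss X (dl 2) ∈ W := of_mul 2 (by
    have := W.sub_mem (W.add_mem r1 r2) r0
    rwa [show ∀ a b c : G → ℚ × ℚ, b * a + b * c + (c * a + c * b) - (a * b + a * c) = 2 * (b * c)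
      from fun a b c => by ring] at this)
  by_cases h12 : c = 1 ∧ d = 2
  · rw [h12.1, h12.2]
    exact t12
  rcases c.eq_zero_or_pos with rfl | hc
  swap
  · exact h c d hc hcd hd h12
  rw [mul_comm]
  obtain rfl | rfl | h3 : d = 1 ∨ d = 2 ∨ 3 ≤ d := by omega
  · exact (W.add_mem_iff_left t12).1 r1
  · exact (W.add_mem_iff_left (mul_comm (ss X (dl 1)) _ ▸ t12)).1 r2
  · exact r3 d h3 hd

theorem pair_eq (K : LabKit X) {c d : ℕ} (h : c ≠ d) :
    X.vL (mkL ∅ c d) = (2 : ℚ) • (ss X (dl c) * ss X (dl d)) := by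
  funext g
  rw [K.pair c d h g]
  simp [ss, mul_assoc]

end SpanA

open SpanA in
theorem sSpan : SSpan := by
  intro G H _ _ X K a b
  refine le_antisymm (Submodule.span_le.2 ?_) (Submodule.span_le.2 ?_)
  swap
  · have h4 : ∀ p q r e I, X.v4 p q r e I ∈ Submodule.span ℚ (X.Fam a b) := fun p q r e I =>
      Submodule.subset_span (.inl ⟨p, q, r, e, I, rfl⟩)
    rintro _ ⟨t | t | t | t, rfl⟩
    · exact Submodule.subset_span (.inr (.inr rfl))
    · exact Submodule.subset_span (.inr (.inl ⟨_, _, _, (mem_filter.1 t.2).2.1, rfl⟩))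
    · exact h4 _ _ _ _ _
    · exact Submodule.smul_mem _ _ (Submodule.add_mem _ (Submodule.smul_mem _ _ (h4 _ _ _ _ _))
        (h4 _ _ _ _ _))
  set W := Submodule.span ℚ (Set.range (X.bas a b))
  have hB : ∀ t, X.bas a b t ∈ W := fun t => Submodule.subset_span ⟨t, rfl⟩
  have hx : ∀ p q r e, x3 X p q r e ∈ W := x3_mem fun i j k l h1 h2 h3 h4 h5 => by
    rw [x3_eq]
    refine W.smul_mem _ (hB (.inr (.inr (.inr ⟨(i, j, k, l), ?_⟩))))
    simp only [J2, mem_filter, mem_product, mem_range]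
    omega
  have hb := sb_mem K hx fun i k l h1 h2 h3 h4 => by
    have := hB (.inr (.inr (.inl ⟨(i, k, l), by
      simp only [J1, mem_filter, mem_product, mem_range]
      omega⟩)))
    rwa [XSys.bas, v4_eq, bb_zero, bb_zero, add_zero, zero_mul, sub_zero] at this
  have hL : ∀ A c d, LabIdx X.N A c d → c < d → (A = ∅ → 1 ≤ c ∧ ¬(c = 1 ∧ d = 2)) →
      X.vL (mkL A c d) ∈ W := fun A c d h1 h2 h3 =>
    hB (.inr (.inl ⟨(A, c, d), mem_filter.2 ⟨mem_product.2 ⟨mem_powerset.2 h1.1, mem_product.2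
      ⟨mem_range.2 (Nat.lt_succ_of_le h1.2.2.1), mem_range.2 (Nat.lt_succ_of_le h1.2.2.2.1)⟩⟩,
      h1, h2, h3⟩⟩))
  have ht := tt_mem K hb fun c d h1 h2 h3 h4 => by
    have := hL ∅ c d ⟨empty_subset _, by simp, by omega, h3, h2.ne, notMem_empty _,
      notMem_empty _, by simp⟩ h2 fun _ => ⟨h1, h4⟩
    rwa [pair_eq K h2.ne, W.smul_mem_iff two_ne_zero] at this
  have hL' : ∀ A c d, LabIdx X.N A c d → c < d → X.vL (mkL A c d) ∈ W := fun A c d h1 h2 => by
    by_cases hA : A = ∅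
    · rw [hA, pair_eq K h2.ne]
      exact W.smul_mem _ (ht c d h2 h1.2.2.2.1)
    · exact hL A c d h1 h2 fun h => (hA h).elim
  rintro _ (⟨p, q, r, e, I, rfl⟩ | ⟨A, c, d, h, rfl⟩ | rfl)
  · refine of_mul 3 ?_
    have e1 : 3 * X.v4 p q r e I =
        (3 : ℚ) • (ss X I * bb X r e) + (x3 X p q r e - x3 X p e q r) := by
      rw [Algebra.smul_def, map_ofNat]
      simp only [v4_eq, x3, bb_swap X q e, bb_swap X r e]
      ring
    rw [e1, ss_sum K I, sum_mul]
    refine W.add_mem (W.smul_mem _ (W.sum_mem fun i hi => ?_)) (W.sub_mem (hx _ _ _ _) (hx _ _ _ _))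
    rw [smul_mul_assoc]
    exact W.smul_mem _ (hb i (Nat.lt_succ_iff.1 (mem_range.1 hi)) r e)
  · rcases lt_or_gt_of_ne h.2.2.2.2.1 with hl | hl
    · exact hL' A c d h hl
    · obtain ⟨h1, h2, h3, h4, h5, h6, h7, h8⟩ := h
      rw [K.symm A c d h5]
      exact hL' A d c ⟨h1, h2, h4, h3, h5.symm, h7, h6, fun h => (h8 h).imp fun a ha =>
        ⟨ha.1, ha.2.symm⟩⟩ hl
  · exact hB (.inl ())

end Pool.Agent.MP_00906f_gt.H33E
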