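import Pool.Agent.MP_00906f_gt.H33E.Base

/-! Row statements for the exact first Betti number (plan in the team store, 00906f_H33E_plan). -/

namespace Pool.Agent.MP_00906f_gt.H33E

open H46 H46.FinAux

/-- The class only depends on the Artin action. -/
def HW {N : ℕ} {K : Subgroup (Br N)} (φ : Additive K →+ ℚ) : Prop :=
  ∀ k k' : K, Art N k FreeGroup.of = Art N k' FreeGroup.of →
    φ (Additive.ofMul k) = φ (Additive.ofMul k')

/-- Row H4: the Johnson type classes. -/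
def SH4 : Prop := ∀ (N : ℕ) (H : Type) [AddCommGroup H] (X : XSys (Br N) H), X.N = N →
  X.σ = sg N → ∀ p q r e I, ∃ φ, HW φ ∧ X.val φ = X.v4 p q r e I

/-- Row HL: the labelled classes. -/
def SHL : Prop := ∀ (N : ℕ) (H : Type) [AddCommGroup H] (X : XSys (Br N) H), X.N = N →
  X.σ = sg N → ∀ A c d, LabIdx N A c d → ∃ φ, HW φ ∧ X.val φ = X.vL (mkL A c d)

/-- The generators of the hyperelliptic mapping class group. -/
def tt (g i : ℕ) : HypMCG g := if h : i < 2 * g + 1 then PresentedGroup.of ⟨i, h⟩ else 1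

theorem tt_of {g : ℕ} (i : Fin (2 * g + 1)) : tt g i = PresentedGroup.of i := dif_pos i.2

theorem tt_BH (g : ℕ) : BH (tt g) (2 * g + 1) :=
  (rels_iff g (PresentedGroup.mk _) (tt g) fun i => (tt_of i).symm).1 fun _ hr =>
    PresentedGroup.one_of_mem hr

theorem tt_sh_bf (g : ℕ) : IsBF (fun i => tt g (i + 1)) (2 * g) :=
  ⟨fun i hi => (tt_BH g).bf.braid (i + 1) (by omega),
    fun i j hij hj => (tt_BH g).bf.comm (i + 1) (j + 1) (by omega) (by omega)⟩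

/-- The map from the braid group on `2 g + 1` strands. -/
def piB (g : ℕ) : Br (2 * g) →* HypMCG g := brLift _ (tt_sh_bf g)

/-- The total angle along a word of transvections. -/
def tot {g : ℕ} (θ : (Hom1 g ≃ₗ[ℤ] Hom1 g) → Hom1 g → ℝ) :
    (Hom1 g ≃ₗ[ℤ] Hom1 g) → List (Hom1 g) → ℝ
  | _, [] => 0
  | h, v :: l => θ h v + tot θ (h * tv v) l

/-- Row MeyA: the angle cocycle. -/
def SMeyA : Prop := ∀ g : ℕ, 1 ≤ g → ∃ θ : (Hom1 g ≃ₗ[ℤ] Hom1 g) → Hom1 g → ℝ,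
  (∀ h v, θ h (-v) = θ h v) ∧
  (∀ h : Hom1 g ≃ₗ[ℤ] Hom1 g, (∀ x y, om g (h x) (h y) = om g x y) → ∀ u v,
    θ h u + θ (h * tv u) v = θ h (tv u v) + θ (h * tv (tv u v)) u) ∧
  (∀ l : List (Hom1 g), (l.map tv).prod = 1 → ∃ n : ℤ, tot θ 1 l = 2 * Real.pi * n) ∧
  |tot θ 1 (List.replicate 6 [chain g 0, chain g 1]).flatten| = 2 * Real.pi

/-- The invariant class. -/
def SMey : Prop := ∀ g : ℕ, 3 ≤ g → ∀ ρ : HypMCG g →* (Hom1 g ≃ₗ[ℤ] Hom1 g),
  IsHomologyAction g ρ → ∃ (s : Additive ρ.ker →+ ℚ) (a b : ℚ), 10 * a ≠ 3 * b ∧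
    (∀ γ (h : γ * T3 (fun i => tt g (i + 1)) * γ⁻¹ ∈ ρ.ker), s (Additive.ofMul ⟨_, h⟩) = a) ∧
    ∀ γ (h : γ * T5 (fun i => tt g (i + 1)) * γ⁻¹ ∈ ρ.ker), s (Additive.ofMul ⟨_, h⟩) = b

/-- Row Desc: the kernel of `piB` acts like the powers of the full twist. -/
def SDesc : Prop := ∀ g : ℕ, piB g (Del4 (2 * g)) = 1 ∧ ∀ β, piB g β = 1 →
  ∃ m : ℤ, Art (2 * g) (β ^ 2) FreeGroup.of = Art (2 * g) (Del4 (2 * g) ^ m) FreeGroup.of

/-- A label without its sign. -/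
def Lab.ty : Lab → Lab
  | .O => .O
  | .R => .R
  | .C _ => .C true
  | .D _ => .D true

/-- Change of sign at the places chosen by `ε`. -/
def fl (ε : ℕ → Bool) (l : ℕ → Lab) : ℕ → Lab := fun j => if ε j then (l j).flip else l j

/-- The character of a labelled class at the pair `i, j`. -/
def chi (A : Finset ℕ) (c d i j : ℕ) : ℚ :=
  if (i ∈ A ∧ (j = c ∨ j = d)) ∨ (j ∈ A ∧ (i = c ∨ i = d)) then -1 else 1

/-- The indicator of a place. -/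
def dl (i : ℕ) : ℕ → ℚ := fun j => if j = i then 1 else 0

/-- The facts on places and labels. -/
structure LabKit {G H : Type} [Group G] [AddCommGroup H] (X : XSys G H) : Prop where
  le : ∀ g j, j ≤ X.N → X.perm g j ≤ X.N
  gt : ∀ g j, X.N < j → X.perm g j = j
  pt : ∀ g k x, X.pt (X.perm g k) (X.ρ g x) = X.pt k x
  surj : ∀ s : Equiv.Perm ℕ, (∀ j, X.N < j → s j = j) → ∃ g, X.perm g = s
  three : ∀ i j k, i ≤ X.N → j ≤ X.N → k ≤ X.N → i ≠ j → i ≠ k → j ≠ k →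
    ∃ g, X.perm g 0 = i ∧ X.perm g 1 = j ∧ X.perm g 2 = k
  ty : ∀ g l j, (X.lab g⁻¹ l j).ty = (l (X.perm g j)).ty
  flip : ∀ g ε l, X.lab g⁻¹ (fl ε l) = fl (fun j => ε (X.perm g j)) (X.lab g⁻¹ l)
  sq : ∀ β, X.perm β = 1 → X.lab (β ^ 2) = 1
  ker : ∀ k ∈ X.ρ.ker, X.perm k = 1 ∧ X.lab k = 1
  noR : ∀ g l, (∀ j, l j ≠ Lab.R) → X.lab g⁻¹ l = fun j => l (X.perm g j)
  eig : ∀ γ A c d, LabIdx X.N A c d → ∀ g, X.vL (mkL A c d) (γ * X.σ 0 ^ 2 * γ⁻¹ * g) =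
    chi A c d (X.perm γ 0) (X.perm γ 1) • X.vL (mkL A c d) g
  ne : ∀ A c d, LabIdx X.N A c d → ∃ g, (X.vL (mkL A c d) g).1 ≠ 0
  symm : ∀ A c d, c ≠ d → X.vL (mkL A c d) = X.vL (mkL A d c)
  pair : ∀ c d, c ≠ d → ∀ g, X.vL (mkL ∅ c d) g =
    (2 * X.sI 3 (dl c) g * X.sI 3 (dl d) g, 2 * X.sI 5 (dl c) g * X.sI 5 (dl d) g)

/-- Row Lab. -/
def SLab : Prop := ∀ (G H : Type) [Group G] [AddCommGroup H] (X : XSys G H), LabKit X

/-- Row Zar: a biquadratic function of `x ∧ y` that vanishes on one orbit vanishes. -/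
def SZar : Prop := ∀ (G H : Type) [Group G] [AddCommGroup H] (X : XSys G H), LabKit X →
  ∀ (T : H →+ H →+ H →+ H →+ ℚ) (g : G),
    (∀ (x y : H) (k : ℤ), T x x (y + k • x) (y + k • x) = T x x y y) →
    (∀ (x y : H) (k : ℤ), T (x + k • y) (x + k • y) y y = T x x y y) →
    (∀ β, X.perm β = 1 → X.lab β = 1 →
      T (X.ρ (β * g) (X.c 0)) (X.ρ (β * g) (X.c 0)) (X.ρ (β * g) (X.c 1)) (X.ρ (β * g) (X.c 1)) = 0) →
    ∀ x y, T x x y y = 0

instance (N : ℕ) (A : Finset ℕ) (c d : ℕ) : Decidable (LabIdx N A c d) := by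
  unfold LabIdx; infer_instance

/-- The index set of the labelled basis classes. -/
def JL (N : ℕ) : Finset (Finset ℕ × ℕ × ℕ) :=
  ((Finset.range (N + 1)).powerset ×ˢ Finset.range (N + 1) ×ˢ Finset.range (N + 1)).filter
    fun t => LabIdx N t.1 t.2.1 t.2.2 ∧ t.2.1 < t.2.2 ∧
      (t.1 = ∅ → 1 ≤ t.2.1 ∧ ¬(t.2.1 = 1 ∧ t.2.2 = 2))

/-- The index set of the bilinear basis classes. -/
def J1 (N : ℕ) : Finset (ℕ × ℕ × ℕ) :=
  (Finset.range (N + 1) ×ˢ Finset.range N ×ˢ Finset.range N).filter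
    fun t => 1 ≤ t.1 ∧ t.2.1 < t.2.2

/-- The index set of the biquadratic basis classes (semistandard tableaux of shape two by two). -/
def J2 (N : ℕ) : Finset (ℕ × ℕ × ℕ × ℕ) :=
  (Finset.range N ×ˢ Finset.range N ×ˢ Finset.range N ×ˢ Finset.range N).filter
    fun t => t.1 < t.2.1 ∧ t.2.2.1 < t.2.2.2 ∧ t.1 ≤ t.2.2.1 ∧ t.2.1 ≤ t.2.2.2

/-- The index set of the basis. -/
abbrev Ix (N : ℕ) : Type := Unit ⊕ JL N ⊕ J1 N ⊕ J2 N

/-- The class whose first value is the product of two Pluecker coordinates. -/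
def XSys.xi {G H : Type} [Group G] [AddCommGroup H] (X : XSys G H) (p q r e : H) : G → ℚ × ℚ :=
  (1 / 3 : ℚ) • ((2 : ℚ) • X.v4 p q r e 0 + X.v4 p r q e 0)

/-- The basis. -/
def XSys.bas {G H : Type} [Group G] [AddCommGroup H] (X : XSys G H) (a b : ℚ) :
    Ix X.N → G → ℚ × ℚ
  | .inl _ => fun _ => (a, b)
  | .inr (.inl t) => X.vL (mkL t.1.1 t.1.2.1 t.1.2.2)
  | .inr (.inr (.inl t)) => X.v4 0 0 (X.c t.1.2.1) (X.c t.1.2.2) (dl t.1.1)
  | .inr (.inr (.inr t)) => X.xi (X.c t.1.1) (X.c t.1.2.1) (X.c t.1.2.2.1) (X.c t.1.2.2.2)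

/-- Row Span. -/
def SSpan : Prop := ∀ (G H : Type) [Group G] [AddCommGroup H] (X : XSys G H), LabKit X →
  ∀ a b, Submodule.span ℚ (X.Fam a b) = Submodule.span ℚ (Set.range (X.bas a b))

/-- Row Ssyt: the standard monomials are independent. -/
def SSsyt : Prop := ∀ (G H : Type) [Group G] [AddCommGroup H] (X : XSys G H),
  (∀ f : J1 X.N → ℚ, ∀ i, (∀ x y, ∑ t : J1 X.N,
      f t * (dl i t.1.1 * X.pl x y (X.c t.1.2.1) (X.c t.1.2.2)) = 0) → ∀ t, t.1.1 = i → f t = 0) ∧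
  ∀ f : J2 X.N → ℚ, (∀ x y, ∑ t : J2 X.N, f t * (X.pl x y (X.c t.1.1) (X.c t.1.2.1) *
      X.pl x y (X.c t.1.2.2.1) (X.c t.1.2.2.2)) = 0) → f = 0

/-- Row Chi: the signed classes are independent modulo functions of the places. -/
def SChi : Prop := ∀ (G H : Type) [Group G] [AddCommGroup H] (X : XSys G H), LabKit X →
  ∀ (f : JL X.N → ℚ) (F : Equiv.Perm ℕ → ℚ × ℚ),
    (∀ g, ∑ t : JL X.N, f t • X.vL (mkL t.1.1 t.1.2.1 t.1.2.2) g = F (X.perm g)) →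
    ∀ t, t.1.1 ≠ ∅ → f t = 0

/-- Row Indep. -/
def SIndep : Prop := ∀ (G H : Type) [Group G] [AddCommGroup H] (X : XSys G H), LabKit X →
  ∀ a b, 10 * a ≠ 3 * b → LinearIndependent ℚ (X.bas a b)

/-- Row Card. -/
def SCard : Prop := ∀ g : ℕ, 3 ≤ g →
  6 * Fintype.card (Ix (2 * g)) + 5 * g ^ 2 + 9 * g = 20 * g ^ 4 + 36 * g ^ 3

/-- The upper bound: an element of the abelian kernel killed by all the classes is torsion. -/
def Upper (n₀ : ℕ) : Prop := ∀ (G H : Type) [Group G] [AddCommGroup H] (X : XSys G H),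
  n₀ ≤ X.N → (∀ a ∈ X.ρ.ker, ∀ b ∈ X.ρ.ker, a * b = b * a) → ∀ a b : ℚ, 10 * a ≠ 3 * b →
  (∀ v ∈ X.Fam a b, ∃ φ, X.val φ = v) →
  ∀ k : X.ρ.ker, (∀ φ, X.val φ ∈ X.Fam a b → φ (Additive.ofMul k) = 0) →
    ∃ n : ℕ, 0 < n ∧ k ^ n = 1

/-- Row Dual: a class is determined by its values, and a class that vanishes on the common
kernel of a finite dimensional family lies in its span. -/
def SDual : Prop := ∀ (G H : Type) [Group G] [AddCommGroup H] (X : XSys G H),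
  Function.Injective X.val ∧ ∀ F : Set (G → ℚ × ℚ), (∀ v ∈ F, ∃ φ, X.val φ = v) →
    Module.Finite ℚ (Submodule.span ℚ F) → ∀ ψ : Additive X.ρ.ker →+ ℚ,
      (∀ k, (∀ φ, X.val φ ∈ F → φ k = 0) → ψ k = 0) → X.val ψ ∈ Submodule.span ℚ F

/-- Row Rank: the rank of a finitely generated abelianisation. -/
def SRank : Prop := ∀ (K : Type) [Group K], Group.FG (Abelianization K) →
  Module.finrank ℤ (Additive (Abelianization K)) = Module.finrank ℚ (Additive K →+ ℚ)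

/-- The final statement. -/
def Final (g₀ : ℕ) : Prop := ∀ g : ℕ, g₀ ≤ g → ∀ ρ : HypMCG g →* (Hom1 g ≃ₗ[ℤ] Hom1 g),
  IsHomologyAction g ρ →
    6 * Module.finrank ℚ (Additive ρ.ker →+ ℚ) + 5 * g ^ 2 + 9 * g + 6 = 20 * g ^ 4 + 36 * g ^ 3

end Pool.Agent.MP_00906f_gt.H33E
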