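import Pool.Agent.MP_00906f_gt.H33E.Spec

/-! The standard monomials are independent, and the size of the index set. -/

namespace Pool.Agent.MP_00906f_gt.H33E

open H46 H46.FinAux Finset

namespace SsytA

/-- The Pluecker coordinate of two basis vectors. -/
def ee (a c i j : ℕ) : ℚ := dl a i * dl c j - dl c i * dl a j

theorem ee_ne {a c i j : ℕ} (h : ee a c i j ≠ 0) : (i = a ∧ j = c) ∨ (i = c ∧ j = a) := by
  by_contra hc
  refine h ?_
  unfold ee dl
  split_ifs <;> first | omega | simp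

theorem ee_nonneg {a c i j : ℕ} (h : i ≠ c ∨ j ≠ a) : 0 ≤ ee a c i j := by
  unfold ee dl
  split_ifs <;> first | omega | simp

theorem ee_self {i j : ℕ} (h : i < j) : ee i j i j = 1 := by
  simp [ee, dl, h.ne, h.ne']

theorem exists_dual {G H : Type} [Group G] [AddCommGroup H] (X : XSys G H) :
    ∃ d : ℕ → H, ∀ a < X.N, ∀ c < X.N, ∀ i < X.N, ∀ j < X.N,
      X.pl (d a) (d c) (X.c i) (X.c j) = ee a c i j := by
  have h : ∀ i, ∃ d : H, i < X.N → ∀ j, j < X.N → X.ω (X.c j) d = if j = i then 1 else 0 := by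
    intro i
    by_cases hi : i < X.N
    · obtain ⟨d, -, hd⟩ := X.toSys.lat_dual X.hN hi
      exact ⟨d, fun _ => hd⟩
    · exact ⟨0, fun h => absurd h hi⟩
  choose d hd using h
  refine ⟨d, fun a ha c hc i hi j hj => ?_⟩
  rw [XSys.pl, hd a ha i hi, hd c hc j hj, hd c hc i hi, hd a ha j hj]
  simp only [ee, dl]
  push_cast
  rfl

theorem polar {G H : Type} [Group G] [AddCommGroup H] (X : XSys G H) (x x' y y' p q r e : H) :
    X.pl x y p q * X.pl x' y' r e + X.pl x' y p q * X.pl x y' r e +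
      X.pl x y' p q * X.pl x' y r e + X.pl x' y' p q * X.pl x y r e =
    X.pl (x + x') (y + y') p q * X.pl (x + x') (y + y') r e -
      X.pl x (y + y') p q * X.pl x (y + y') r e - X.pl x' (y + y') p q * X.pl x' (y + y') r e -
      X.pl (x + x') y p q * X.pl (x + x') y r e + X.pl x y p q * X.pl x y r e +
      X.pl x' y p q * X.pl x' y r e - X.pl (x + x') y' p q * X.pl (x + x') y' r e +
      X.pl x y' p q * X.pl x y' r e + X.pl x' y' p q * X.pl x' y' r e := by
  simp only [XSys.pl, map_add]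
  push_cast
  ring

theorem mem_J1 {N : ℕ} {t : ℕ × ℕ × ℕ} :
    t ∈ J1 N ↔ t.1 ≤ N ∧ t.2.2 < N ∧ 1 ≤ t.1 ∧ t.2.1 < t.2.2 := by
  simp only [J1, mem_filter, mem_product, mem_range]; omega

theorem mem_J2 {N : ℕ} {t : ℕ × ℕ × ℕ × ℕ} : t ∈ J2 N ↔
    t.2.2.2 < N ∧ t.1 < t.2.1 ∧ t.2.2.1 < t.2.2.2 ∧ t.1 ≤ t.2.2.1 ∧ t.2.1 ≤ t.2.2.2 := by
  simp only [J2, mem_filter, mem_product, mem_range]; omega

theorem cubic (n : ℕ) (a b c d : ℚ) : ∑ i ∈ range n, (a + b * i + c * i ^ 2 + d * i ^ 3) =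
    a * n + b * (n * (n - 1) / 2) + c * (n * (n - 1) * (2 * n - 1) / 6) +
      d * (n * (n - 1) / 2) ^ 2 := by
  induction n with
  | zero => simp
  | succ n ih => rw [sum_range_succ, ih]; push_cast; ring

theorem tri (n : ℕ) (φ : ℕ → ℚ) : ∑ c ∈ range n, ∑ d ∈ range n, (if c < d then φ c else 0) =
    ∑ c ∈ range n, (n - 1 - c) * φ c := by
  refine sum_congr rfl fun c hc => ?_
  have e : (range n).filter (fun d => c < d) = Ioo c n := by
    ext d; simp only [mem_filter, mem_range, mem_Ioo]; omega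
  rw [← sum_filter, sum_const, e, Nat.card_Ioo, nsmul_eq_mul, Nat.sub_sub,
    Nat.cast_sub (mem_range.1 hc)]
  push_cast; ring

theorem card_J1 (N : ℕ) : ((J1 N).card : ℚ) = N * (N * (N - 1) / 2) := by
  have e : J1 N = Ioc 0 N ×ˢ (range N ×ˢ range N).filter fun t => t.1 < t.2 := by
    ext t; simp only [mem_J1, mem_filter, mem_product, mem_range, mem_Ioc]; omega
  rw [e, card_product, Nat.card_Ioc, card_filter, sum_product]
  push_cast
  rw [tri N fun _ => 1, sum_congr rfl fun (c : ℕ) _ =>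
    show ((N : ℚ) - 1 - c) * 1 = (N - 1) + (-1) * c + 0 * c ^ 2 + 0 * c ^ 3 by ring, cubic]
  simp only [Nat.sub_zero]; ring

theorem card_J2 (N : ℕ) : ((J2 N).card : ℚ) = N ^ 2 * (N ^ 2 - 1) / 12 := by
  have e : (J2 N).card =
      ((range N).sigma fun l => (range l).sigma fun i => Ioc i l ×ˢ Ico i l).card := by
    refine card_nbij' (fun t => ⟨t.2.2.2, t.1, t.2.1, t.2.2.1⟩)
      (fun s => (s.2.1, s.2.2.1, s.2.2.2, s.1)) (fun t ht => ?_) (fun s hs => ?_)
      (fun _ _ => rfl) fun _ _ => rfl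
    · rw [mem_coe, mem_J2] at ht
      simp only [mem_coe, mem_sigma, mem_product, mem_range, mem_Ioc, mem_Ico]; omega
    · simp only [mem_coe, mem_sigma, mem_product, mem_range, mem_Ioc, mem_Ico] at hs
      simp only [mem_coe, mem_J2]; omega
  rw [e, card_sigma]
  push_cast
  rw [sum_congr rfl (g := fun l : ℕ => (0 : ℚ) + 1 / 6 * l + 1 / 2 * l ^ 2 + 1 / 3 * l ^ 3)
    fun l _ => ?_, cubic]
  · ring
  rw [card_sigma]
  push_cast
  rw [sum_congr rfl (g := fun i : ℕ => (l : ℚ) ^ 2 + (-2 * l) * i + 1 * i ^ 2 + 0 * i ^ 3)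
    fun i hi => ?_, cubic]
  · ring
  rw [card_product, Nat.card_Ioc, Nat.card_Ico, Nat.cast_mul, Nat.cast_sub (mem_range.1 hi).le]
  ring

theorem card_A {N c d : ℕ} (hcd : c < d) (hd : d ≤ N) :
    ((((range (N + 1)).powerset.filter fun A => LabIdx N A c d ∧ c < d ∧
      (A = ∅ → 1 ≤ c ∧ ¬(c = 1 ∧ d = 2))).card : ℕ) : ℚ) =
    (1 - (if c = 0 then 1 else 0) + (N - 1) + (N - 1) * (N - 2) / 2 -
      (N - c - 1) * (N - c - 2) / 2) - if c = 1 ∧ d = 2 then 1 else 0 := by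
  obtain ⟨S, hS⟩ : ∃ S : Finset ℕ, S = ((range (N + 1)).erase c).erase d := ⟨_, rfl⟩
  obtain ⟨S', hS'⟩ : ∃ S' : Finset ℕ, S' = (Ioc c N).erase d := ⟨_, rfl⟩
  have mS : ∀ a, a ∈ S ↔ a ≤ N ∧ a ≠ c ∧ a ≠ d := fun a => by
    simp only [hS, mem_erase, mem_range]; omega
  have mS' : ∀ a, a ∈ S' ↔ a ≤ N ∧ c < a ∧ a ≠ d := fun a => by
    simp only [hS', mem_erase, mem_Ioc]; omega
  have cS : (S.card : ℚ) = N - 1 := by
    rw [hS, cast_card_erase_of_mem (by simp only [mem_erase, mem_range]; omega),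
      cast_card_erase_of_mem (by simp only [mem_range]; omega), card_range]
    push_cast; ring
  have cS' : (S'.card : ℚ) = N - c - 1 := by
    rw [hS', cast_card_erase_of_mem (by simp only [mem_Ioc]; omega), Nat.card_Ioc,
      Nat.cast_sub (by omega)]
  have sub : ∀ A : Finset ℕ, A ⊆ S ↔ A ⊆ range (N + 1) ∧ c ∉ A ∧ d ∉ A := fun A => by
    rw [hS, subset_erase, subset_erase, and_assoc]
  rw [card_eq_sum_card_fiberwise (f := card) (t := range 3) fun A hA =>
    mem_coe.2 (mem_range.2 (Nat.lt_succ_of_le (mem_filter.1 (mem_coe.1 hA)).2.1.2.1))]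
  simp only [sum_range_succ, range_zero, sum_empty, zero_add, filter_filter]
  have e0 : ((range (N + 1)).powerset.filter fun A => (LabIdx N A c d ∧ c < d ∧
      (A = ∅ → 1 ≤ c ∧ ¬(c = 1 ∧ d = 2))) ∧ A.card = 0) =
      if 1 ≤ c ∧ ¬(c = 1 ∧ d = 2) then {∅} else ∅ := by
    ext A
    simp only [mem_filter, mem_powerset, card_eq_zero, LabIdx]
    constructor
    · rintro ⟨-, h, rfl⟩
      rw [if_pos (h.2.2 rfl)]; exact mem_singleton_self _
    · intro h
      split_ifs at h with h1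
      · obtain rfl := mem_singleton.1 h
        simp [h1.1, h1.2, hcd, hd, hcd.ne, hcd.le.trans hd]
      · exact absurd h (notMem_empty _)
  have e1 : ((range (N + 1)).powerset.filter fun A => (LabIdx N A c d ∧ c < d ∧
      (A = ∅ → 1 ≤ c ∧ ¬(c = 1 ∧ d = 2))) ∧ A.card = 1) = powersetCard 1 S := by
    ext A
    simp only [mem_filter, mem_powerset, LabIdx, mem_powersetCard, sub]
    refine ⟨fun h => ⟨⟨h.1, h.2.1.1.2.2.2.2.2.1, h.2.1.1.2.2.2.2.2.2.1⟩, h.2.2⟩, fun h =>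
      ⟨h.1.1, ⟨⟨h.1.1, by omega, by omega, hd, hcd.ne, h.1.2.1, h.1.2.2, by omega⟩, hcd,
        fun e => ?_⟩, h.2⟩⟩
    rw [e] at h; exact absurd h.2 (by simp)
  have e2 : ((range (N + 1)).powerset.filter fun A => (LabIdx N A c d ∧ c < d ∧
      (A = ∅ → 1 ≤ c ∧ ¬(c = 1 ∧ d = 2))) ∧ A.card = 2) =
      powersetCard 2 S \ powersetCard 2 S' := by
    ext A
    simp only [mem_filter, mem_powerset, LabIdx, mem_powersetCard, mem_sdiff, sub]
    refine ⟨fun h => ⟨⟨⟨h.1, h.2.1.1.2.2.2.2.2.1, h.2.1.1.2.2.2.2.2.2.1⟩, h.2.2⟩, fun k => ?_⟩,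
      fun h => ⟨h.1.1.1, ⟨⟨h.1.1.1, by omega, by omega, hd, hcd.ne, h.1.1.2.1, h.1.1.2.2,
        fun _ => ?_⟩, hcd, fun e => ?_⟩, h.1.2⟩⟩
    · obtain ⟨a, ha, h1, -⟩ := h.2.1.1.2.2.2.2.2.2.2 h.2.2
      have := (mS' a).1 (k.1 ha)
      omega
    · obtain ⟨a, ha, h1⟩ := not_subset.1 fun k => h.2 ⟨k, h.1.2⟩
      have h2 := (mS a).1 ((sub A).2 h.1.1 ha)
      rw [mS'] at h1
      exact ⟨a, ha, by omega, by omega⟩
    · rw [e] at h; exact absurd h.1.2 (by simp)
  have hss : powersetCard 2 S' ⊆ powersetCard 2 S := powersetCard_mono fun a ha => by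
    rw [mS'] at ha; rw [mS]; omega
  rw [e0, e1, e2, Nat.cast_add, Nat.cast_add, cast_card_sdiff hss, card_powersetCard,
    card_powersetCard, card_powersetCard, Nat.choose_one_right, Nat.cast_choose_two,
    Nat.cast_choose_two, cS, cS']
  split_ifs <;> first | omega | (simp; ring)

theorem card_JL {N : ℕ} (hN : 2 ≤ N) : ((JL N).card : ℚ) = N * (N - 1) / 2 - 1 +
    (N + 1) * N * (N - 1) / 2 + (N + 1) * N * (N - 1) * (N - 2) / 8 := by
  rw [JL, card_filter, sum_product_right, sum_product]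
  push_cast
  refine (sum_congr rfl fun (c : ℕ) _ => sum_congr rfl (g := fun d : ℕ => (if c < d then
      ((1 : ℚ) - (if c = 0 then 1 else 0) + (N - 1) + (N - 1) * (N - 2) / 2 -
      (N - c - 1) * (N - c - 2) / 2) else 0) - if c = 1 then (if d = 2 then 1 else 0) else 0)
      fun d hd => ?_).trans ?_
  · rw [sum_boole]
    by_cases h : c < d
    · rw [if_pos h, card_A h (Nat.le_of_lt_succ (mem_range.1 hd)), ite_and]
    · rw [if_neg h, filter_false_of_mem fun A _ k => h k.2.1]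
      split_ifs <;> first | omega | simp
  simp only [sum_sub_distrib]
  rw [tri, sum_congr rfl (g := fun c : ℕ => ((N : ℚ) * (N + (N - 1) * (N - 2) / 2) -
      N * (N - 1) * (N - 2) / 2 + (-(N + (N - 1) * (N - 2) / 2) + (3 * N ^ 2 - 6 * N + 2) / 2) * c +
      (-(3 * N - 3) / 2) * c ^ 2 + 1 / 2 * c ^ 3) - if c = 0 then (N : ℚ) else 0)
      fun c _ => by split_ifs with h <;> simp [*] <;> ring, sum_sub_distrib, cubic]
  simp [show 1 < N + 1 by omega, show 2 < N + 1 by omega]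
  ring

end SsytA

open SsytA

theorem sSsyt : SSsyt := by
  intro G H _ _ X
  obtain ⟨d, hd⟩ := exists_dual X
  refine ⟨fun f i h t ht => ?_, fun f h => funext fun t => ?_⟩
  · obtain ⟨-, t2, -, t4⟩ := mem_J1.1 t.2
    have := h (d t.1.2.1) (d t.1.2.2)
    rw [sum_eq_single t (fun s _ hs => ?_) fun h => absurd (mem_univ _) h,
      hd _ (by omega) _ t2 _ (by omega) _ t2, ee_self t4, ht] at this
    · simpa [dl] using this
    obtain ⟨-, s2, -, s4⟩ := mem_J1.1 s.2
    rw [hd _ (by omega) _ t2 _ (by omega) _ s2]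
    refine mul_eq_zero_of_right _ (mul_eq_zero.2 (or_iff_not_imp_left.2 fun h1 => ?_))
    by_contra h2
    have h3 := ee_ne h2
    have h4 : s.1.1 = i := by
      by_contra h5
      exact h1 (if_neg h5)
    exact hs (Subtype.ext (Prod.ext (by omega) (Prod.ext (by omega) (by omega))))
  · obtain ⟨⟨i, j, k, l⟩, ht⟩ := t
    obtain ⟨t1, t2, t3, t4, t5⟩ : l < X.N ∧ i < j ∧ k < l ∧ i ≤ k ∧ j ≤ l := mem_J2.1 ht
    have key : ∑ s : J2 X.N, f s * (ee i j s.1.1 s.1.2.1 * ee k l s.1.2.2.1 s.1.2.2.2 +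
        ee k j s.1.1 s.1.2.1 * ee i l s.1.2.2.1 s.1.2.2.2 +
        ee i l s.1.1 s.1.2.1 * ee k j s.1.2.2.1 s.1.2.2.2 +
        ee k l s.1.1 s.1.2.1 * ee i j s.1.2.2.1 s.1.2.2.2) = 0 := by
      rw [sum_congr rfl (g := fun s : J2 X.N => f s * _) fun s _ => by
        obtain ⟨s1, s2, s3, s4, s5⟩ := mem_J2.1 s.2
        simp (disch := omega) only [← hd]
        rw [polar]]
      simp only [mul_add, mul_sub, sum_add_distrib, sum_sub_distrib, h]
      ring
    rw [sum_eq_single ⟨_, ht⟩ (fun s _ hs => ?_) fun h => absurd (mem_univ _) h] at key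
    · refine (mul_eq_zero.1 key).resolve_right (ne_of_gt ?_)
      dsimp only
      rw [ee_self t2, ee_self t3]
      have a1 := mul_nonneg (ee_nonneg (a := k) (c := j) (i := i) (j := j) (by omega))
        (ee_nonneg (a := i) (c := l) (i := k) (j := l) (by omega))
      have a2 := mul_nonneg (ee_nonneg (a := i) (c := l) (i := i) (j := j) (by omega))
        (ee_nonneg (a := k) (c := j) (i := k) (j := l) (by omega))
      have a3 := mul_nonneg (ee_nonneg (a := k) (c := l) (i := i) (j := j) (by omega))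
        (ee_nonneg (a := i) (c := j) (i := k) (j := l) (by omega))
      linarith
    obtain ⟨⟨i', j', k', l'⟩, hs'⟩ := s
    obtain ⟨s1, s2, s3, s4, s5⟩ : l' < X.N ∧ i' < j' ∧ k' < l' ∧ i' ≤ k' ∧ j' ≤ l' := mem_J2.1 hs'
    have hne : ¬(i' = i ∧ j' = j ∧ k' = k ∧ l' = l) := by
      rintro ⟨rfl, rfl, rfl, rfl⟩; exact hs rfl
    have z : ∀ a c b e, ¬(((i' = a ∧ j' = c) ∨ (i' = c ∧ j' = a)) ∧
        ((k' = b ∧ l' = e) ∨ (k' = e ∧ l' = b))) → ee a c i' j' * ee b e k' l' = 0 := by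
      intro a c b e hn
      by_contra h0
      exact hn ⟨ee_ne (left_ne_zero_of_mul h0), ee_ne (right_ne_zero_of_mul h0)⟩
    dsimp only
    rw [z i j k l (by omega), z k j i l (by omega), z i l k j (by omega), z k l i j (by omega)]
    simp

theorem sCard : SCard := by
  intro g hg
  have h := card_JL (N := 2 * g) (by omega)
  have h1 := card_J1 (2 * g)
  have h2 := card_J2 (2 * g)
  simp only [Fintype.card_sum, Fintype.card_coe, Fintype.card_unit]
  refine Nat.cast_injective (R := ℚ) ?_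
  push_cast at h h1 h2 ⊢
  rw [h, h1, h2]
  ring

end Pool.Agent.MP_00906f_gt.H33E
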