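import Pool.Agent.MP_00906f_gt.H33E.Spec

/-! Row Zar: a biquadratic function that vanishes on one orbit vanishes. -/

namespace Pool.Agent.MP_00906f_gt.H33E

open H46 H46.FinAux

namespace ZarA

theorem quad {H W : Type} [AddCommGroup H] [AddCommGroup W] (Q : H →+ H →+ W) (ev : W →+ ℚ)
    (φ : H →ₗ[ℤ] ℤ) (y₀ : H) (h1 : φ y₀ = 1)
    (h : ∀ l, φ l = 0 → ev (Q (y₀ + (8 : ℤ) • l) (y₀ + (8 : ℤ) • l)) = 0) (y : H) :
    ev (Q y y) = 0 := by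
  obtain ⟨n, l, hl, rfl⟩ : ∃ (n : ℤ) (l : H), φ l = 0 ∧ y = n • y₀ + l :=
    ⟨φ y, y - φ y • y₀, by simp [h1], by simp⟩
  have a0 := h 0 (map_zero φ)
  have a1 := h l hl
  have a2 := h ((-1 : ℤ) • l) (by simp [hl])
  simp only [smul_zero, add_zero, map_add, map_zsmul, AddMonoidHom.add_apply,
    AddMonoidHom.zsmul_apply, zsmul_eq_mul] at a0 a1 a2 ⊢
  push_cast at a1 a2
  linear_combination ((n : ℚ) ^ 2 - 1 / 64) * a0 + (n / 16 + 1 / 128) * a1 +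
    (-n / 16 + 1 / 128) * a2

variable {G H : Type} [Group G] [AddCommGroup H] (X : XSys G H)

theorem perm_yy {j : ℕ} (hj : j + 2 ≤ X.N) : X.perm (yy X.σ j) = 1 := by
  induction j with
  | zero =>
    rw [yy, map_pow, map_mul, X.perm_σ 0 (by omega), X.perm_σ 1 (by omega)]
    ext k
    rcases k with _ | _ | _ | k <;> simp [pow_succ, Equiv.swap_apply_def]
  | succ j ih => simp [yy, ih (by omega)]

theorem perm_FF {f : G} (hf : f ∈ FF X.σ X.N) : X.perm (f ^ 2) = 1 := by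
  have h : FF X.σ X.N ≤ (Subgroup.zpowers (Equiv.swap 0 1)).comap X.perm := by
    rw [FF, Subgroup.closure_le]
    rintro x (rfl | ⟨j, hj, rfl⟩)
    · exact ⟨1, by simp [X.perm_σ 0 (by have := X.h6; omega)]⟩
    · exact ⟨0, by simp [perm_yy X hj]⟩
  obtain ⟨n, hn⟩ := h hf
  rw [map_pow, ← hn, ← zpow_natCast, zpow_comm, zpow_natCast, sq, Equiv.swap_mul_self, one_zpow]

theorem unip (K : LabKit X) {l : H} (hl : X.ω (X.c 0) l = 0) : ∃ γ, X.perm γ = 1 ∧ X.lab γ = 1 ∧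
    X.ρ γ (X.c 0) = X.c 0 ∧ X.ρ γ (X.c 1) = X.c 1 + (8 : ℤ) • l := by
  have h2 : 2 ≤ X.N := by have := X.h6; omega
  obtain ⟨f, hf, e⟩ := X.exists_E X.hN h2 (X.Ltop l) hl (-2 * X.ω l (X.c 1))
  have e0 : X.ρ f (X.c 0) = X.c 0 := by rw [e, X.E_c0 hl]
  have e1 : X.ρ f (X.c 1) = X.c 1 + (2 : ℤ) • l := by simp [e, Sys.E, X.ω01 h2]
  have e2 : X.ρ f l = l := by simp [e, Sys.E, hl, X.alt]
  refine ⟨(f ^ 2) ^ 2, by rw [map_pow, perm_FF X hf, one_pow], K.sq _ (perm_FF X hf), ?_, ?_⟩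
  · simp only [sq, X.ρ_mul, e0]
  · simp only [sq, X.ρ_mul, map_add, map_zsmul, e1, e2]
    module

end ZarA

open ZarA

theorem sZar : SZar := by
  intro G H _ _ X K T g _ _ h x y
  have h2 : 2 ≤ X.N := by have := X.h6; omega
  have hA : ∀ β, X.perm β = 1 → X.lab β = 1 →
      T (X.ρ (β * g) (X.c 0)) (X.ρ (β * g) (X.c 0)) y y = 0 := fun β p q => by
    refine quad _ (AddMonoidHom.id ℚ) (X.ω (X.ρ (β * g) (X.c 0))) (X.ρ (β * g) (X.c 1))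
      (by rw [X.ρ_ω (X.top _), X.ω01 h2]) (fun l hl => ?_) y
    obtain ⟨γ, p', q', e0, e1⟩ := unip X K (l := X.ρ (β * g)⁻¹ l)
      (by rw [← X.ρ_ω (X.top (β * g)), X.ρ_ρ_inv, hl])
    have := h (β * g * γ * g⁻¹) (by simp [p, p']) (by simp [q, q'])
    rwa [inv_mul_cancel_right, X.ρ_mul _ γ, X.ρ_mul _ γ, e0, e1, map_add, map_zsmul,
      X.ρ_ρ_inv] at this
  refine quad T ((AddMonoidHom.eval y).comp (AddMonoidHom.eval y))
    (X.ω.flip (X.ρ g (X.c 1))) (X.ρ g (X.c 0))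
    (by rw [LinearMap.flip_apply, X.ρ_ω (X.top _), X.ω01 h2]) (fun l hl => ?_) x
  have d0 := X.ρ_δ_c0 h2
  have d1 : X.ρ (X.σ 0 * X.σ 1) (X.c 0 - X.c 1) = X.c 0 := by
    rw [map_sub, d0, X.ρ_δ h2, X.ω10 h2, X.alt]; module
  generalize X.σ 0 * X.σ 1 = δ at d0 d1
  obtain ⟨γ, p', q', e0, e1⟩ := unip X K (l := -X.ρ (g * δ)⁻¹ l) (by
    rw [map_neg, ← X.ρ_ω (X.top (g * δ)), X.ρ_ρ_inv, X.ρ_mul, d0, X.skew, neg_neg]; exact hl)
  have := hA (g * δ * γ * δ⁻¹ * g⁻¹) (by simp [p']) (by simp [q'])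
  have e : X.ρ (g * δ * γ * δ⁻¹) (X.c 0) = X.ρ g (X.c 0) + (8 : ℤ) • l := by
    conv_lhs => rw [← d1, X.ρ_mul, X.ρ_inv_ρ, X.ρ_mul, map_sub, e0, e1, ← sub_sub, map_sub,
      map_zsmul, map_neg, X.ρ_ρ_inv, X.ρ_mul, d1]
    module
  rwa [inv_mul_cancel_right, e] at this

end Pool.Agent.MP_00906f_gt.H33E
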